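import Pool.Agent.H358R2.Sparse

/-!
Asymptotic form of the dichotomy.
-/

namespace Pool.Agent.H358R2

open Filter

theorem aux_pow (K e : ℕ) (hK : 0 < K) : (e + 1) ^ K ≤ K ^ K * 2 * 2 ^ e := by
  have h1 : e + 1 < K * ((e + 1) / K + 1) := by
    have := Nat.lt_mul_div_succ (e + 1) hK
    simpa using this
  have h2 : (e + 1) / K + 1 ≤ 2 ^ ((e + 1) / K) := Nat.lt_two_pow_self
  have h3 : e + 1 ≤ K * 2 ^ ((e + 1) / K) := by
    calc e + 1 ≤ K * ((e + 1) / K + 1) := h1.le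
      _ ≤ K * 2 ^ ((e + 1) / K) := Nat.mul_le_mul_left _ h2
  calc (e + 1) ^ K ≤ (K * 2 ^ ((e + 1) / K)) ^ K := Nat.pow_le_pow_left h3 K
    _ = K ^ K * 2 ^ ((e + 1) / K * K) := by rw [mul_pow, ← pow_mul]
    _ ≤ K ^ K * 2 ^ (e + 1) := by
        apply Nat.mul_le_mul_left
        exact Nat.pow_le_pow_right (by norm_num) (Nat.div_mul_le_self _ _)
    _ = K ^ K * 2 * 2 ^ e := by rw [pow_succ]; ring

/-- `d(n) ^ K ≤ C_K n` -/
theorem card_divisors_pow_le (K : ℕ) (hK : 0 < K) (n : ℕ) (hn : n ≠ 0) :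
    (n.divisors.card) ^ K ≤ (K ^ K * 2) ^ (2 ^ K) * n := by
  rw [Nat.card_divisors hn]
  set c : ℕ → ℕ := fun q => if q < 2 ^ K then K ^ K * 2 else 1 with hc
  have hc0 : 1 ≤ K ^ K * 2 := by
    have : 0 < K ^ K := Nat.pow_pos hK
    omega
  have key : ∀ q ∈ n.primeFactors, (n.factorization q + 1) ^ K ≤ c q * q ^ n.factorization q := by
    intro q hq
    have hqp : q.Prime := Nat.prime_of_mem_primeFactors hq
    by_cases h : q < 2 ^ K
    · simp only [hc, h, if_true]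
      refine (aux_pow K _ hK).trans ?_
      exact Nat.mul_le_mul_left _ (Nat.pow_le_pow_left hqp.two_le _)
    · simp only [hc, h, if_false, one_mul]
      push Not at h
      calc (n.factorization q + 1) ^ K ≤ (2 ^ n.factorization q) ^ K :=
            Nat.pow_le_pow_left Nat.lt_two_pow_self K
        _ = (2 ^ K) ^ n.factorization q := by rw [← pow_mul, ← pow_mul, mul_comm]
        _ ≤ q ^ n.factorization q := Nat.pow_le_pow_left h _
  calc (∏ q ∈ n.primeFactors, (n.factorization q + 1)) ^ K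
      = ∏ q ∈ n.primeFactors, (n.factorization q + 1) ^ K := by rw [Finset.prod_pow]
    _ ≤ ∏ q ∈ n.primeFactors, (c q * q ^ n.factorization q) :=
        Finset.prod_le_prod' key
    _ = (∏ q ∈ n.primeFactors, c q) * ∏ q ∈ n.primeFactors, q ^ n.factorization q :=
        Finset.prod_mul_distrib
    _ = (∏ q ∈ n.primeFactors, c q) * n := by
        congr 1
        exact Nat.prod_factorization_pow_eq_self hn
    _ ≤ (K ^ K * 2) ^ (2 ^ K) * n := by
        apply Nat.mul_le_mul_right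
        have : ∏ q ∈ n.primeFactors, c q
            = ∏ q ∈ n.primeFactors.filter (fun q => q < 2 ^ K), (K ^ K * 2) := by
          rw [Finset.prod_filter]
        rw [this, Finset.prod_const]
        apply Nat.pow_le_pow_right hc0
        calc (n.primeFactors.filter (fun q => q < 2 ^ K)).card ≤ (Finset.range (2 ^ K)).card := by
              apply Finset.card_le_card
              intro q hq
              simp only [Finset.mem_filter] at hq
              exact Finset.mem_range.mpr hq.2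
          _ = 2 ^ K := Finset.card_range _

/-- the divisor bound -/
theorem div_bound {δ : ℝ} (hδ : 0 < δ) : ∃ C : ℝ, 1 ≤ C ∧ ∀ n : ℕ, n ≠ 0 →
    (n.divisors.card : ℝ) ≤ C * (n : ℝ) ^ δ := by
  obtain ⟨K0, hK0⟩ := exists_nat_gt (1 / δ)
  set K := K0 + 1 with hKdef
  have hK : 0 < K := by omega
  have hK' : (0 : ℝ) < K := by exact_mod_cast hK
  have hKδ : 1 / (K : ℝ) ≤ δ := by
    rw [div_le_iff₀ hK']
    rw [div_lt_iff₀ hδ] at hK0
    have : (K0 : ℝ) ≤ K := by exact_mod_cast (by omega : K0 ≤ K)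
    nlinarith
  set c : ℕ := (K ^ K * 2) ^ (2 ^ K) with hc
  have hc1 : 1 ≤ c := by
    rw [hc]
    exact Nat.one_le_pow _ _ (by positivity)
  have hc1' : (1 : ℝ) ≤ c := by exact_mod_cast hc1
  refine ⟨c, hc1', ?_⟩
  intro n hn
  have hn1 : 1 ≤ n := Nat.one_le_iff_ne_zero.2 hn
  have hn1' : (1 : ℝ) ≤ n := by exact_mod_cast hn1
  have h1 : ((n.divisors.card : ℝ)) ^ K ≤ c * n := by
    exact_mod_cast card_divisors_pow_le K hK n hn
  have h2 : (n.divisors.card : ℝ) ≤ (c * n : ℝ) ^ (1 / (K : ℝ)) := by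
    have h3 := Real.rpow_le_rpow (by positivity) h1 (by positivity : (0 : ℝ) ≤ 1 / (K : ℝ))
    rwa [← Real.rpow_natCast, ← Real.rpow_mul (Nat.cast_nonneg _), mul_one_div_cancel hK'.ne',
      Real.rpow_one] at h3
  refine h2.trans ?_
  rw [Real.mul_rpow (by positivity) (by positivity)]
  apply mul_le_mul
  · calc (c : ℝ) ^ (1 / (K : ℝ)) ≤ (c : ℝ) ^ (1 : ℝ) := by
          apply Real.rpow_le_rpow_of_exponent_le hc1'
          rw [div_le_one hK']
          exact_mod_cast hK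
      _ = c := Real.rpow_one _
  · exact Real.rpow_le_rpow_of_exponent_le hn1' hKδ
  · positivity
  · positivity

theorem f_le (d : QF) {N X : ℕ} (hN : N ≤ X) (hX : 1 ≤ X) : d.f N ≤ d.M * X ^ 2 := by
  unfold QF.f QF.M
  have h1 : N ^ 2 ≤ X ^ 2 := Nat.pow_le_pow_left hN 2
  have h2 : N ≤ X ^ 2 := hN.trans (Nat.le_self_pow (by norm_num) X)
  have h3 : 1 ≤ X ^ 2 := Nat.one_le_pow _ _ hX
  have h4 : d.b * N ≤ d.b * X ^ 2 := Nat.mul_le_mul_left _ h2
  have h5 : d.c ≤ d.c * X ^ 2 := Nat.le_mul_of_pos_right _ h3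
  calc N ^ 2 + d.b * N + d.c ≤ X ^ 2 + d.b * X ^ 2 + d.c * X ^ 2 := by omega
    _ = (1 + d.b + d.c) * X ^ 2 := by ring

/-- divisor bound for values of the polynomial -/
theorem div_bound_f (d : QF) {δ : ℝ} (hδ : 0 < δ) : ∃ C : ℝ, 1 ≤ C ∧ ∀ X : ℕ, 1 ≤ X →
    ∀ N ≤ X, ((d.f N).divisors.card : ℝ) ≤ C * (X : ℝ) ^ δ := by
  obtain ⟨C, hC, hb⟩ := div_bound (half_pos hδ)
  have hM : (1 : ℝ) ≤ d.M := by exact_mod_cast d.M_pos
  refine ⟨C * (d.M : ℝ) ^ (δ / 2), ?_, ?_⟩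
  · have : 1 ≤ (d.M : ℝ) ^ (δ / 2) := Real.one_le_rpow hM (by positivity)
    nlinarith
  intro X hX N hN
  have hX' : (0 : ℝ) ≤ X := Nat.cast_nonneg _
  refine (hb _ (d.f_pos N)).trans ?_
  rw [mul_assoc]
  apply mul_le_mul_of_nonneg_left _ (by linarith)
  have h1 : ((d.f N : ℕ) : ℝ) ≤ d.M * (X : ℝ) ^ 2 := by exact_mod_cast f_le d hN hX
  calc ((d.f N : ℕ) : ℝ) ^ (δ / 2) ≤ (d.M * (X : ℝ) ^ 2) ^ (δ / 2) :=
        Real.rpow_le_rpow (Nat.cast_nonneg _) h1 (by positivity)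
    _ = (d.M : ℝ) ^ (δ / 2) * (X : ℝ) ^ δ := by
        rw [Real.mul_rpow (by positivity) (by positivity), ← Real.rpow_natCast,
          ← Real.rpow_mul hX']
        congr 2
        push_cast
        ring

/-- if sign changes are sparse at some large `X`, then the sign is periodic up to `N0` -/
theorem periodic_of_sparse {h : ℕ → ℤ} (H : CM h) (d : QF) {ε : ℝ} (hε : 0 < ε) (hε1 : ε ≤ 1) :
    ∃ r : ℕ, ∀ N0 : ℕ, ∀ᶠ X : ℕ in atTop, ((SF h d X).card : ℝ) < (X : ℝ) ^ (1 - ε) →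
      ∀ n ≤ N0, h (d.f n) = h (d.f (n + 2 ^ r)) := by
  obtain ⟨r, hr⟩ : ∃ r : ℕ, 64 / ε < (2 : ℝ) ^ r := pow_unbounded_of_one_lt _ (by norm_num)
  obtain ⟨C, n1, hC, hper⟩ := per_nat d r
  obtain ⟨C2, hC2, hdiv⟩ := div_bound_f d (by positivity : 0 < ε / 4)
  refine ⟨r, ?_⟩
  intro N0
  set D : ℝ := (2 : ℝ) ^ r with hD
  have hDpos : 0 < D := by rw [hD]; positivity
  have hDε : 64 / D < ε := by
    rw [div_lt_iff₀ hDpos]
    rw [div_lt_iff₀ hε] at hr
    linarith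
  have hDε' : 16 / D < ε / 4 := by
    have : 16 / D = 64 / D / 4 := by ring
    rw [this]; linarith
  have t1 : Tendsto (fun X : ℕ => (X : ℝ) ^ (2 / D)) atTop atTop :=
    (tendsto_rpow_atTop (by positivity)).comp tendsto_natCast_atTop_atTop
  have t2 : Tendsto (fun X : ℕ => (X : ℝ) ^ (ε / 2)) atTop atTop :=
    (tendsto_rpow_atTop (by positivity)).comp tendsto_natCast_atTop_atTop
  filter_upwards [t1.eventually_ge_atTop ((n1 : ℝ) + N0), eventually_ge_atTop 1,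
    t2.eventually_ge_atTop ((C : ℝ) * 256 * (C2 + 1))] with X h1 hX1 h2 hsp n hn
  have hX1' : (1 : ℝ) ≤ X := by exact_mod_cast hX1
  have hX0 : (0 : ℝ) < X := by linarith
  set y : ℕ := ⌈(X : ℝ) ^ (2 / D)⌉₊ with hy
  have hyge : (X : ℝ) ^ (2 / D) ≤ y := Nat.le_ceil _
  have hX2D : 1 ≤ (X : ℝ) ^ (2 / D) := Real.one_le_rpow hX1' (by positivity)
  have hyle : (y : ℝ) ≤ 2 * (X : ℝ) ^ (2 / D) := by
    have := (Nat.ceil_lt_add_one (by positivity : 0 ≤ (X : ℝ) ^ (2 / D))).le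
    rw [← hy] at this
    linarith
  have hn1y : n1 + N0 ≤ y := by
    have : ((n1 + N0 : ℕ) : ℝ) ≤ y := by push_cast; linarith
    exact_mod_cast this
  have hy8 : (y : ℝ) ^ 8 ≤ 256 * (X : ℝ) ^ (ε / 4) := by
    calc (y : ℝ) ^ 8 ≤ (2 * (X : ℝ) ^ (2 / D)) ^ 8 := pow_le_pow_left₀ (Nat.cast_nonneg _) hyle 8
      _ = 256 * (X : ℝ) ^ (16 / D) := by
          rw [mul_pow, ← Real.rpow_natCast ((X : ℝ) ^ (2 / D)), ← Real.rpow_mul hX0.le]
          norm_num
          congr 1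
          ring
      _ ≤ 256 * (X : ℝ) ^ (ε / 4) := by
          apply mul_le_mul_of_nonneg_left _ (by norm_num)
          exact Real.rpow_le_rpow_of_exponent_le hX1' hDε'.le
  set T : ℕ := ⌊C2 * (X : ℝ) ^ (ε / 4)⌋₊ with hT
  have hTle : (T : ℝ) ≤ C2 * (X : ℝ) ^ (ε / 4) := Nat.floor_le (by positivity)
  have hC0 : (0 : ℝ) < C := by exact_mod_cast hC
  have hXe : (X : ℝ) ^ (ε / 4) * (X : ℝ) ^ (ε / 4) * (X : ℝ) ^ (1 - ε) * (X : ℝ) ^ (ε / 2) = X := by
    rw [← Real.rpow_add hX0, ← Real.rpow_add hX0, ← Real.rpow_add hX0]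
    have : ε / 4 + ε / 4 + (1 - ε) + ε / 2 = 1 := by ring
    rw [this, Real.rpow_one]
  have hXe2 : (X : ℝ) ^ (ε / 4) * (X : ℝ) ^ (ε / 2) ≤ X := by
    rw [← Real.rpow_add hX0]
    calc (X : ℝ) ^ (ε / 4 + ε / 2) ≤ (X : ℝ) ^ (1 : ℝ) := by
          apply Real.rpow_le_rpow_of_exponent_le hX1'
          linarith
      _ = X := Real.rpow_one _
  apply hper h H X y T (by omega) _ _ _ _ n
  · have : N0 ≤ y := by omega
    have h3 : y ≤ 8 * y ^ 2 := by
      have : y ≤ y ^ 2 := Nat.le_self_pow (by norm_num) y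
      omega
    omega
  · -- C * y ^ 8 ≤ X
    have : (C : ℝ) * (y : ℝ) ^ 8 ≤ X := by
      calc (C : ℝ) * (y : ℝ) ^ 8 ≤ C * (256 * (X : ℝ) ^ (ε / 4)) :=
            mul_le_mul_of_nonneg_left hy8 hC0.le
        _ = (X : ℝ) ^ (ε / 4) * (C * 256) := by ring
        _ ≤ (X : ℝ) ^ (ε / 4) * (X : ℝ) ^ (ε / 2) := by
            apply mul_le_mul_of_nonneg_left _ (by positivity)
            refine le_trans ?_ h2
            nlinarith
        _ ≤ X := hXe2
    exact_mod_cast this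
  · -- X ^ 2 ≤ y ^ D
    have : ((X : ℝ)) ^ 2 ≤ (y : ℝ) ^ (2 ^ r) := by
      calc ((X : ℝ)) ^ 2 = ((X : ℝ) ^ (2 / D)) ^ (2 ^ r) := by
            rw [← Real.rpow_natCast ((X : ℝ) ^ (2 / D)), ← Real.rpow_mul hX0.le]
            push_cast
            rw [← hD, div_mul_cancel₀ _ hDpos.ne']
            norm_num
        _ ≤ (y : ℝ) ^ (2 ^ r) := pow_le_pow_left₀ (by positivity) hyge _
    exact_mod_cast this
  · intro N hN
    rw [hT]
    exact Nat.le_floor (hdiv X hX1 N hN)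
  · have h3 : (C : ℝ) * (y : ℝ) ^ 8 * T * (SF h d X).card ≤ X := by
      calc (C : ℝ) * (y : ℝ) ^ 8 * T * (SF h d X).card
          ≤ C * (256 * (X : ℝ) ^ (ε / 4)) * (C2 * (X : ℝ) ^ (ε / 4)) * (X : ℝ) ^ (1 - ε) := by
            gcongr
        _ = (X : ℝ) ^ (ε / 4) * (X : ℝ) ^ (ε / 4) * (X : ℝ) ^ (1 - ε) * (C * 256 * C2) := by ring
        _ ≤ (X : ℝ) ^ (ε / 4) * (X : ℝ) ^ (ε / 4) * (X : ℝ) ^ (1 - ε) * (X : ℝ) ^ (ε / 2) := by
            apply mul_le_mul_of_nonneg_left _ (by positivity)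
            refine le_trans ?_ h2
            nlinarith
        _ = X := hXe
    exact_mod_cast h3

/-- linear lower bound for periodic signs -/
theorem card_SF_periodic {h : ℕ → ℤ} {d : QF} {P n0 : ℕ} (hP : 0 < P)
    (hper : ∀ n, h (d.f n) = h (d.f (n + P))) (hn0 : h (d.f n0) = -1) (X : ℕ) :
    (X - n0) / P ≤ (SF h d X).card := by
  have hk : ∀ k, h (d.f (n0 + k * P)) = -1 := by
    intro k
    induction k with
    | zero => simpa using hn0
    | succ k ih =>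
      have : n0 + (k + 1) * P = (n0 + k * P) + P := by ring
      rw [this, ← hper, ih]
  calc (X - n0) / P = (Finset.Icc 1 ((X - n0) / P)).card := by simp
    _ ≤ (SF h d X).card := by
        apply Finset.card_le_card_of_injOn (fun k => n0 + k * P)
        · intro k hk'
          rw [Finset.mem_coe, Finset.mem_Icc] at hk'
          rw [Finset.mem_coe, mem_SF]
          refine ⟨?_, hk k⟩
          have h1 : k * P ≤ (X - n0) / P * P := Nat.mul_le_mul_right _ hk'.2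
          have h2 := Nat.div_mul_le_self (X - n0) P
          have h3 : 1 * P ≤ k * P := Nat.mul_le_mul_right _ hk'.1
          show n0 + k * P ≤ X
          omega
        · intro a _ b _ hab
          have hab' : n0 + a * P = n0 + b * P := hab
          have : a * P = b * P := by omega
          exact Nat.eq_of_mul_eq_mul_right hP this

/-- **Dichotomy.** -/
theorem dichotomy {h : ℕ → ℤ} (H : CM h) (d : QF) (hne : ∃ n0, h (d.f n0) = -1) {ε : ℝ}
    (hε : 0 < ε) : ∀ᶠ X : ℕ in atTop, (X : ℝ) ^ (1 - ε) ≤ ((SF h d X).card : ℝ) := by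
  -- reduce to `ε ≤ 1`
  have main : ∀ ε : ℝ, 0 < ε → ε ≤ 1 →
      ∀ᶠ X : ℕ in atTop, (X : ℝ) ^ (1 - ε) ≤ ((SF h d X).card : ℝ) := by
    intro ε hε hε1
    obtain ⟨n0, hn0⟩ := hne
    by_contra hnot
    rw [not_eventually] at hnot
    obtain ⟨r, hr⟩ := periodic_of_sparse H d hε hε1
    have hper : ∀ n, h (d.f n) = h (d.f (n + 2 ^ r)) := by
      intro n
      obtain ⟨X, hX1, hX2⟩ := (hnot.and_eventually (hr n)).exists
      exact hX2 (lt_of_not_ge hX1) n le_rfl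
    apply hnot
    have hPpos : 0 < 2 ^ r := by positivity
    have hP' : (0 : ℝ) < (2 : ℝ) ^ r := by positivity
    have t2 : Tendsto (fun X : ℕ => (X : ℝ) ^ ε) atTop atTop :=
      (tendsto_rpow_atTop hε).comp tendsto_natCast_atTop_atTop
    filter_upwards [t2.eventually_ge_atTop (2 * (2 : ℝ) ^ r), eventually_ge_atTop 1,
      eventually_ge_atTop (2 * (n0 + 2 ^ r))] with X h1 hX1 hX2
    have hX1' : (1 : ℝ) ≤ X := by exact_mod_cast hX1
    have hX0 : (0 : ℝ) < X := by linarith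
    push Not
    have h3 := card_SF_periodic hPpos hper hn0 X
    have h4 : (X : ℝ) / (2 * (2 : ℝ) ^ r) ≤ (((X - n0) / 2 ^ r : ℕ) : ℝ) := by
      have h5 : X ≤ 2 * 2 ^ r * ((X - n0) / 2 ^ r) := by
        have h6 := Nat.lt_mul_div_succ (X - n0) hPpos
        have h7 : 2 ^ r * ((X - n0) / 2 ^ r + 1) = 2 ^ r * ((X - n0) / 2 ^ r) + 2 ^ r := by ring
        have h8 : 2 * 2 ^ r * ((X - n0) / 2 ^ r) = 2 * (2 ^ r * ((X - n0) / 2 ^ r)) := by ring
        omega
      rw [div_le_iff₀ (by positivity)]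
      have h9 : (X : ℝ) ≤ 2 * 2 ^ r * (((X - n0) / 2 ^ r : ℕ) : ℝ) := by exact_mod_cast h5
      linarith
    have h5 : (((X - n0) / 2 ^ r : ℕ) : ℝ) ≤ (SF h d X).card := by exact_mod_cast h3
    refine le_trans ?_ (h4.trans h5)
    rw [le_div_iff₀ (by positivity)]
    calc (X : ℝ) ^ (1 - ε) * (2 * 2 ^ r) ≤ (X : ℝ) ^ (1 - ε) * (X : ℝ) ^ ε :=
          mul_le_mul_of_nonneg_left h1 (by positivity)
      _ = X := by
          rw [← Real.rpow_add hX0]
          have : 1 - ε + ε = 1 := by ring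
          rw [this, Real.rpow_one]
  rcases le_total ε 1 with h1 | h1
  · exact main ε hε h1
  · filter_upwards [main 1 one_pos le_rfl, eventually_ge_atTop 1] with X hX hX1
    have hX1' : (1 : ℝ) ≤ X := by exact_mod_cast hX1
    refine le_trans ?_ hX
    exact Real.rpow_le_rpow_of_exponent_le hX1' (by linarith)

end Pool.Agent.H358R2
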