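import Mathlib

/-!
Farey graph colouring by a completely multiplicative function of the norm.
Vectors are pairs of natural numbers.
-/

namespace Pool.Agent.H358R2

/-- a completely multiplicative function with values `1`, `-1` on nonzero naturals -/
structure CM (h : ℕ → ℤ) : Prop where
  mul : ∀ m n : ℕ, m ≠ 0 → n ≠ 0 → h (m * n) = h m * h n
  pm : ∀ m : ℕ, m ≠ 0 → h m = 1 ∨ h m = -1

/-- a monic quadratic `x ^ 2 + b x + c` with natural coefficients and negative discriminant -/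
structure QF where
  b : ℕ
  c : ℕ
  neg : b ^ 2 < 4 * c

theorem QF.c_pos (d : QF) : 0 < d.c := by
  have := d.neg
  by_contra h
  have h0 : d.c = 0 := by omega
  rw [h0] at this
  omega

/-- the polynomial -/
def QF.f (d : QF) (N : ℕ) : ℕ := N ^ 2 + d.b * N + d.c

theorem QF.f_pos (d : QF) (N : ℕ) : d.f N ≠ 0 := by
  have := d.c_pos
  unfold QF.f
  omega

/-- a size constant -/
def QF.M (d : QF) : ℕ := 1 + d.b + d.c

theorem QF.M_pos (d : QF) : 0 < d.M := by unfold QF.M; omega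

/-- the form `x ^ 2 + b x y + c y ^ 2` -/
def nm (d : QF) (u : ℕ × ℕ) : ℕ := u.1 ^ 2 + d.b * (u.1 * u.2) + d.c * u.2 ^ 2

/-- size -/
def sz (u : ℕ × ℕ) : ℕ := u.1 + u.2

/-- inner product -/
def ip (d : QF) (u v : ℕ × ℕ) : ℕ := u.1 * v.1 + d.b * (u.2 * v.1) + d.c * (u.2 * v.2)

/-- Farey edge: determinant one -/
def Edge (a b : ℕ × ℕ) : Prop := a.1 * b.2 = a.2 * b.1 + 1

theorem edge_nm_int {a1 a2 b1 b2 B C : ℤ} (h : a1 * b2 = a2 * b1 + 1) :
    (a1 ^ 2 + B * (a1 * a2) + C * a2 ^ 2) * (b1 ^ 2 + B * (b1 * b2) + C * b2 ^ 2) =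
      (a1 * b1 + B * (a2 * b1) + C * (a2 * b2)) ^ 2 +
        B * (a1 * b1 + B * (a2 * b1) + C * (a2 * b2)) + C := by
  linear_combination (B * (a1 * b1 + B * (a2 * b1) + C * (a2 * b2)) +
    C * (a1 * b2 - a2 * b1 + 1)) * h

theorem edge_nm (d : QF) {a b : ℕ × ℕ} (h : Edge a b) :
    nm d a * nm d b = d.f (ip d a b) := by
  unfold Edge at h
  unfold nm ip QF.f
  have h' : (a.1 : ℤ) * b.2 = a.2 * b.1 + 1 := by exact_mod_cast h
  have := edge_nm_int (B := d.b) (C := d.c) h'
  exact_mod_cast this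

theorem edge_left_pos {a b : ℕ × ℕ} (h : Edge a b) : 0 < a.1 := by
  unfold Edge at h
  rcases Nat.eq_zero_or_pos a.1 with h0 | h0
  · rw [h0] at h; omega
  · exact h0

theorem edge_right_pos {a b : ℕ × ℕ} (h : Edge a b) : 0 < b.2 := by
  unfold Edge at h
  rcases Nat.eq_zero_or_pos b.2 with h0 | h0
  · rw [h0] at h; omega
  · exact h0

theorem edge_add_right {a b : ℕ × ℕ} (h : Edge a b) : Edge a (a + b) := by
  unfold Edge at *
  simp only [Prod.fst_add, Prod.snd_add]
  rw [mul_add, mul_add, h]; ring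

theorem edge_add_left {a b : ℕ × ℕ} (h : Edge a b) : Edge (a + b) b := by
  unfold Edge at *
  simp only [Prod.fst_add, Prod.snd_add]
  rw [add_mul, add_mul, h]; ring

theorem sz_add (a b : ℕ × ℕ) : sz (a + b) = sz a + sz b := by
  simp only [sz, Prod.fst_add, Prod.snd_add]; ring

theorem sz_comb (α β : ℕ) (a b : ℕ × ℕ) : sz (α • a + β • b) = α * sz a + β * sz b := by
  simp only [sz, Prod.fst_add, Prod.snd_add, Prod.smul_fst, Prod.smul_snd, smul_eq_mul]; ring

theorem nm_pos_of_sz {d : QF} {u : ℕ × ℕ} (h : 0 < sz u) : nm d u ≠ 0 := by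
  have hd := d.c_pos
  unfold sz at h; unfold nm
  intro h0
  have h1 : u.1 ^ 2 = 0 := by omega
  have h2 : d.c * u.2 ^ 2 = 0 := by omega
  have h1' : u.1 = 0 := by simpa using h1
  have h2' : u.2 = 0 := by
    rcases Nat.mul_eq_zero.1 h2 with h3 | h3
    · omega
    · simpa using h3
  omega

theorem edge_sz_pos {a b : ℕ × ℕ} (h : Edge a b) : 0 < sz a ∧ 0 < sz b := by
  have h1 := edge_left_pos h
  have h2 := edge_right_pos h
  unfold sz
  constructor <;> omega

theorem ip_le_sz {d : QF} (a b : ℕ × ℕ) : ip d a b ≤ d.M * (sz a * sz b) := by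
  have e1 : a.1 * b.1 ≤ sz a * sz b :=
    Nat.mul_le_mul (by unfold sz; omega) (by unfold sz; omega)
  have e2 : a.2 * b.1 ≤ sz a * sz b :=
    Nat.mul_le_mul (by unfold sz; omega) (by unfold sz; omega)
  have e3 : a.2 * b.2 ≤ sz a * sz b :=
    Nat.mul_le_mul (by unfold sz; omega) (by unfold sz; omega)
  unfold ip QF.M
  calc a.1 * b.1 + d.b * (a.2 * b.1) + d.c * (a.2 * b.2)
      ≤ sz a * sz b + d.b * (sz a * sz b) + d.c * (sz a * sz b) :=
        Nat.add_le_add (Nat.add_le_add e1 (Nat.mul_le_mul_left _ e2)) (Nat.mul_le_mul_left _ e3)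
    _ = (1 + d.b + d.c) * (sz a * sz b) := by ring

/-- `u` is bad at level `A` -/
def Bad (h : ℕ → ℤ) (d : QF) (A : ℕ) (u : ℕ × ℕ) : Prop :=
  ∃ (c e : ℕ × ℕ) (γ δ : ℕ), Edge c e ∧ h (d.f (ip d c e)) = -1 ∧ A ≤ ip d c e ∧
    u = γ • c + δ • e ∧ sz c ≤ sz u ∧ sz e ≤ sz u

theorem nm_smul (d : QF) (α : ℕ) (a : ℕ × ℕ) : nm d (α • a) = α ^ 2 * nm d a := by
  simp only [nm, Prod.smul_fst, Prod.smul_snd, smul_eq_mul]; ring

theorem CM.sq {h : ℕ → ℤ} (H : CM h) {m : ℕ} (hm : m ≠ 0) : h (m ^ 2) = 1 := by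
  rw [pow_two, H.mul m m hm hm]
  rcases H.pm m hm with e | e <;> rw [e] <;> norm_num

theorem CM.color_smul {h : ℕ → ℤ} (H : CM h) {d : QF} {α : ℕ} (hα : α ≠ 0) {a : ℕ × ℕ}
    (ha : nm d a ≠ 0) : h (nm d (α • a)) = h (nm d a) := by
  rw [nm_smul, H.mul _ _ (pow_ne_zero 2 hα) ha, H.sq hα, one_mul]

theorem ip_add_right_ge (d : QF) (a b : ℕ × ℕ) : ip d a b ≤ ip d a (a + b) := by
  simp only [ip, Prod.fst_add, Prod.snd_add]
  nlinarith [Nat.zero_le (a.1 * a.1), Nat.zero_le (d.c * (a.2 * a.2)),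
    Nat.zero_le (d.b * (a.2 * a.1))]

theorem ip_add_left_ge (d : QF) (a b : ℕ × ℕ) : ip d a b ≤ ip d (a + b) b := by
  simp only [ip, Prod.fst_add, Prod.snd_add]
  nlinarith [Nat.zero_le (b.1 * b.1), Nat.zero_le (d.c * (b.2 * b.2)),
    Nat.zero_le (d.b * (b.2 * b.1))]

/-- local constancy -/
theorem local_const {h : ℕ → ℤ} (H : CM h) {d : QF} (A : ℕ) :
    ∀ (k α β : ℕ) (a b u : ℕ × ℕ), α + β = k → 0 < α + β → Edge a b → A ≤ ip d a b →
      u = α • a + β • b → sz a ≤ sz u → sz b ≤ sz u → ¬ Bad h d A u →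
      h (nm d u) = h (nm d a) ∧ h (nm d a) = h (nm d b) := by
  intro k
  induction k using Nat.strong_induction_on with
  | _ k ih =>
    intro α β a b u hk hpos hE hA hu hsa hsb hbad
    have hna : nm d a ≠ 0 := nm_pos_of_sz (edge_sz_pos hE).1
    have hnb : nm d b ≠ 0 := nm_pos_of_sz (edge_sz_pos hE).2
    have hab : h (nm d a) = h (nm d b) := by
      have h1 : h (d.f (ip d a b)) = 1 := by
        rcases H.pm (d.f (ip d a b)) (d.f_pos _) with e | e
        · exact e
        · exact absurd ⟨a, b, α, β, hE, e, hA, hu, hsa, hsb⟩ hbad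
      rw [← edge_nm d hE, H.mul _ _ hna hnb] at h1
      rcases H.pm _ hna with e | e <;> rcases H.pm _ hnb with e' | e' <;> rw [e, e'] at h1 ⊢
      all_goals norm_num at h1
    refine ⟨?_, hab⟩
    rcases Nat.eq_zero_or_pos α with hα | hα
    · subst hα
      have hβ : β ≠ 0 := by omega
      rw [hu, zero_smul, zero_add, H.color_smul hβ hnb, hab]
    rcases Nat.eq_zero_or_pos β with hβ | hβ
    · subst hβ
      rw [hu, zero_smul, add_zero, H.color_smul hα.ne' hna]
    have hsum : sz (a + b) ≤ sz u := by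
      rw [hu, sz_comb, sz_add]
      nlinarith [Nat.zero_le (sz a), Nat.zero_le (sz b)]
    rcases le_total β α with hle | hle
    · have := ih ((α - β) + β) (by omega) (α - β) β a (a + b) u rfl (by omega)
        (edge_add_right hE) (hA.trans (ip_add_right_ge d a b))
        (by
          rw [hu]
          ext
          · simp only [Prod.fst_add, Prod.smul_fst, smul_eq_mul]
            obtain ⟨c, rfl⟩ := Nat.exists_eq_add_of_le hle
            simp only [Nat.add_sub_cancel_left]; ring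
          · simp only [Prod.snd_add, Prod.smul_snd, smul_eq_mul]
            obtain ⟨c, rfl⟩ := Nat.exists_eq_add_of_le hle
            simp only [Nat.add_sub_cancel_left]; ring)
        hsa hsum hbad
      exact this.1
    · have := ih (α + (β - α)) (by omega) α (β - α) (a + b) b u rfl (by omega)
        (edge_add_left hE) (hA.trans (ip_add_left_ge d a b))
        (by
          rw [hu]
          ext
          · simp only [Prod.fst_add, Prod.smul_fst, smul_eq_mul]
            obtain ⟨c, rfl⟩ := Nat.exists_eq_add_of_le hle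
            simp only [Nat.add_sub_cancel_left]; ring
          · simp only [Prod.snd_add, Prod.smul_snd, smul_eq_mul]
            obtain ⟨c, rfl⟩ := Nat.exists_eq_add_of_le hle
            simp only [Nat.add_sub_cancel_left]; ring)
        hsum hsb hbad
      rw [this.1, this.2, hab]

end Pool.Agent.H358R2
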