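import Pool.Agent.H358R2.Basic

/-!
Counting Farey edges with given inner product, and counting bad vectors.
-/

namespace Pool.Agent.H358R2

open Finset

theorem edge_inj_int {A B X Y A' B' X' Y' b c : ℤ} (hb : 0 ≤ b) (hc1 : 1 ≤ c)
    (hneg : b ^ 2 < 4 * c) (hA1 : 0 < A) (hA1' : 0 < A')
    (hB0 : 0 ≤ B) (hB0' : 0 ≤ B') (h : A * Y = B * X + 1) (h' : A' * Y' = B' * X' + 1)
    (hN : A * X + b * (B * X) + c * (B * Y) = A' * X' + b * (B' * X') + c * (B' * Y'))
    (hn : A ^ 2 + b * (A * B) + c * B ^ 2 = A' ^ 2 + b * (A' * B') + c * B' ^ 2) :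
    A = A' ∧ B = B' ∧ X = X' ∧ Y = Y' := by
  have e1 : (A ^ 2 + b * (A * B) + c * B ^ 2) * X =
      A * (A * X + b * (B * X) + c * (B * Y)) - c * B := by
    linear_combination (-B * c) * h
  have e1' : (A' ^ 2 + b * (A' * B') + c * B' ^ 2) * X' =
      A' * (A' * X' + b * (B' * X') + c * (B' * Y')) - c * B' := by
    linear_combination (-B' * c) * h'
  have e2 : (A ^ 2 + b * (A * B) + c * B ^ 2) * Y =
      B * (A * X + b * (B * X) + c * (B * Y)) + A + b * B := by
    linear_combination (A + b * B) * h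
  have e2' : (A' ^ 2 + b * (A' * B') + c * B' ^ 2) * Y' =
      B' * (A' * X' + b * (B' * X') + c * (B' * Y')) + A' + b * B' := by
    linear_combination (A' + b * B') * h'
  obtain ⟨m, hm⟩ : ∃ m, A ^ 2 + b * (A * B) + c * B ^ 2 = m := ⟨_, rfl⟩
  obtain ⟨N, hNN⟩ : ∃ N, A * X + b * (B * X) + c * (B * Y) = N := ⟨_, rfl⟩
  have hm' : A' ^ 2 + b * (A' * B') + c * B' ^ 2 = m := by rw [← hn, hm]
  have hN' : A' * X' + b * (B' * X') + c * (B' * Y') = N := by rw [← hN, hNN]
  rw [hm, hNN] at e1 e2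
  rw [hm', hN'] at e1' e2'
  have hmpos : 0 < m := by
    rw [← hm]
    have h1 : 0 < A ^ 2 := by positivity
    have h2 : 0 ≤ b * (A * B) := by positivity
    have h3 : 0 ≤ c * B ^ 2 := by positivity
    linarith
  have hdet : A * B' - B * A' = m * (B' * Y - B * Y') := by
    linear_combination B * e2' - B' * e2
  obtain ⟨P, hP⟩ : ∃ P, A * A' + b * (B * A') + c * (B * B') = P := ⟨_, rfl⟩
  obtain ⟨P', hP'⟩ : ∃ P', A * A' + b * (A * B') + c * (B * B') = P' := ⟨_, rfl⟩
  have hPpos : 0 < P := by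
    rw [← hP]
    have h1 : 0 < A * A' := mul_pos hA1 hA1'
    have h2 : 0 ≤ b * (B * A') := by positivity
    have h3 : 0 ≤ c * (B * B') := by positivity
    linarith
  have hPpos' : 0 < P' := by
    rw [← hP']
    have h1 : 0 < A * A' := mul_pos hA1 hA1'
    have h2 : 0 ≤ b * (A * B') := by positivity
    have h3 : 0 ≤ c * (B * B') := by positivity
    linarith
  have hsq : c * (A * B' - B * A') ^ 2 + P * P' = m ^ 2 := by
    have : c * (A * B' - B * A') ^ 2 + P * P' =
        (A ^ 2 + b * (A * B) + c * B ^ 2) * (A' ^ 2 + b * (A' * B') + c * B' ^ 2) := by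
      rw [← hP, ← hP']; ring
    rw [this, hm', hm]; ring
  have hk : B' * Y - B * Y' = 0 := by
    by_contra hne
    have h1 : 1 ≤ (B' * Y - B * Y') ^ 2 := by
      have := sq_nonneg (B' * Y - B * Y')
      rcases this.lt_or_eq with h | h
      · omega
      · exact absurd (pow_eq_zero_iff (two_ne_zero)|>.1 h.symm) hne
    have h2 : m ^ 2 ≤ (A * B' - B * A') ^ 2 := by
      rw [hdet, mul_pow]
      exact le_mul_of_one_le_right (sq_nonneg m) h1
    have h3 : (A * B' - B * A') ^ 2 ≤ c * (A * B' - B * A') ^ 2 :=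
      le_mul_of_one_le_left (sq_nonneg _) hc1
    have h4 : 0 < P * P' := mul_pos hPpos hPpos'
    linarith
  rw [hk, mul_zero] at hdet
  have hPP : P = P' := by
    rw [← hP, ← hP']
    linear_combination (-b) * hdet
  rw [hdet, ← hPP] at hsq
  have hipm : P = m := by
    have : (P - m) * (P + m) = 0 := by
      linear_combination hsq
    rcases mul_eq_zero.1 this with h | h
    · linarith
    · linarith
  have hfin : (2 * (A - A') + b * (B - B')) ^ 2 + (4 * c - b ^ 2) * (B - B') ^ 2 = 0 := by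
    have e3 : (2 * (A - A') + b * (B - B')) ^ 2 + (4 * c - b ^ 2) * (B - B') ^ 2 =
      4 * ((A ^ 2 + b * (A * B) + c * B ^ 2) + (A' ^ 2 + b * (A' * B') + c * B' ^ 2) -
        (A * A' + b * (B * A') + c * (B * B')) - (A * A' + b * (A * B') + c * (B * B'))) := by
      ring
    rw [e3, hm, hm', hP, hP', ← hPP, hipm]; ring
  have hEB : 0 ≤ (4 * c - b ^ 2) * (B - B') ^ 2 := mul_nonneg (by linarith) (sq_nonneg _)
  have hB2 : (B - B') ^ 2 = 0 := by
    have : (4 * c - b ^ 2) * (B - B') ^ 2 = 0 := by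
      linarith [sq_nonneg (2 * (A - A') + b * (B - B'))]
    rcases mul_eq_zero.1 this with h | h
    · linarith
    · exact h
  have hB : B = B' := sub_eq_zero.1 ((pow_eq_zero_iff two_ne_zero).1 hB2)
  have hA2 : (2 * (A - A') + b * (B - B')) ^ 2 = 0 :=
    le_antisymm (by linarith) (sq_nonneg _)
  have hA3 := (pow_eq_zero_iff two_ne_zero).1 hA2
  have hA : A = A' := by
    rw [hB] at hA3
    linarith
  have hX : X = X' := by
    have : m * X = m * X' := by rw [e1, e1', hA, hB]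
    exact mul_left_cancel₀ hmpos.ne' this
  have hY : Y = Y' := by
    have : m * Y = m * Y' := by rw [e2, e2', hA, hB]
    exact mul_left_cancel₀ hmpos.ne' this
  exact ⟨hA, hB, hX, hY⟩

theorem edge_inj {D : QF} {c d c' d' : ℕ × ℕ} (h : Edge c d) (h' : Edge c' d')
    (hN : ip D c d = ip D c' d') (hn : nm D c = nm D c') : c = c' ∧ d = d' := by
  have hc1 := edge_left_pos h
  have hc1' := edge_left_pos h'
  have hcp := D.c_pos
  have hneg := D.neg
  obtain ⟨a, b⟩ := c
  obtain ⟨x, y⟩ := d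
  obtain ⟨a', b'⟩ := c'
  obtain ⟨x', y'⟩ := d'
  simp only [Edge, ip, nm] at *
  have := edge_inj_int (A := a) (B := b) (X := x) (Y := y) (A' := a') (B' := b') (X' := x')
    (Y' := y') (b := D.b) (c := D.c) (Nat.cast_nonneg _) (by exact_mod_cast hcp)
    (by exact_mod_cast hneg) (by exact_mod_cast hc1) (by exact_mod_cast hc1')
    (Nat.cast_nonneg _) (Nat.cast_nonneg _) (by exact_mod_cast h) (by exact_mod_cast h')
    (by exact_mod_cast hN) (by exact_mod_cast hn)
  obtain ⟨e1, e2, e3, e4⟩ := this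
  have e1 : a = a' := by exact_mod_cast e1
  have e2 : b = b' := by exact_mod_cast e2
  have e3 : x = x' := by exact_mod_cast e3
  have e4 : y = y' := by exact_mod_cast e4
  subst e1 e2 e3 e4
  exact ⟨rfl, rfl⟩

/-- edges of size at most `R` with inner product `N` -/
noncomputable def edgesF (d : QF) (R N : ℕ) : Finset ((ℕ × ℕ) × (ℕ × ℕ)) :=
  letI := Classical.decPred fun p : (ℕ × ℕ) × (ℕ × ℕ) =>
    Edge p.1 p.2 ∧ ip d p.1 p.2 = N ∧ sz p.1 ≤ R ∧ sz p.2 ≤ R
  ((range (R + 1) ×ˢ range (R + 1)) ×ˢ (range (R + 1) ×ˢ range (R + 1))).filter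
    fun p => Edge p.1 p.2 ∧ ip d p.1 p.2 = N ∧ sz p.1 ≤ R ∧ sz p.2 ≤ R

theorem mem_edgesF {d : QF} {R N : ℕ} {p : (ℕ × ℕ) × (ℕ × ℕ)} :
    p ∈ edgesF d R N ↔ Edge p.1 p.2 ∧ ip d p.1 p.2 = N ∧ sz p.1 ≤ R ∧ sz p.2 ≤ R := by
  classical
  unfold edgesF
  simp only [mem_filter, mem_product, mem_range]
  constructor
  · rintro ⟨_, h⟩; exact h
  · intro h
    refine ⟨?_, h⟩
    obtain ⟨_, _, h1, h2⟩ := h
    unfold sz at h1 h2
    omega

theorem card_edgesF {d : QF} (R N : ℕ) :
    (edgesF d R N).card ≤ (d.f N).divisors.card := by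
  apply Finset.card_le_card_of_injOn (fun p => nm d p.1)
  · intro p hp
    rw [Finset.mem_coe, mem_edgesF] at hp
    rw [Finset.mem_coe, Nat.mem_divisors]
    refine ⟨⟨nm d p.2, ?_⟩, d.f_pos N⟩
    rw [edge_nm d hp.1, hp.2.1]
  · intro p hp q hq hpq
    rw [Finset.mem_coe, mem_edgesF] at hp hq
    have := edge_inj hp.1 hq.1 (hp.2.1.trans hq.2.1.symm) hpq
    exact Prod.ext this.1 this.2

/-- bad vectors of size at most `R` -/
noncomputable def badF (h : ℕ → ℤ) (d : QF) (A R : ℕ) : Finset (ℕ × ℕ) :=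
  letI := Classical.decPred fun u : ℕ × ℕ => sz u ≤ R ∧ Bad h d A u
  (range (R + 1) ×ˢ range (R + 1)).filter fun u => sz u ≤ R ∧ Bad h d A u

theorem mem_badF {h : ℕ → ℤ} {d : QF} {A R : ℕ} {u : ℕ × ℕ} :
    u ∈ badF h d A R ↔ sz u ≤ R ∧ Bad h d A u := by
  classical
  unfold badF
  simp only [mem_filter, mem_product, mem_range]
  constructor
  · rintro ⟨_, h⟩; exact h
  · intro h
    refine ⟨?_, h⟩
    obtain ⟨h1, _⟩ := h
    unfold sz at h1
    omega

/-- the sign changes up to `X` -/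
noncomputable def SF (h : ℕ → ℤ) (d : QF) (X : ℕ) : Finset ℕ :=
  letI := Classical.decPred fun N : ℕ => h (d.f N) = -1
  (range (X + 1)).filter fun N => h (d.f N) = -1

theorem mem_SF {h : ℕ → ℤ} {d : QF} {X N : ℕ} : N ∈ SF h d X ↔ N ≤ X ∧ h (d.f N) = -1 := by
  classical
  unfold SF
  simp only [mem_filter, mem_range, Nat.lt_succ_iff]

theorem card_badF (h : ℕ → ℤ) (d : QF) (A R T : ℕ)
    (hT : ∀ N ≤ d.M * R ^ 2, (d.f N).divisors.card ≤ T) :
    A * (badF h d A R).card ≤ (SF h d (d.M * R ^ 2)).card * (T * (4 * d.M * R ^ 2)) := by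
  classical
  set I : ℕ → Finset ((ℕ × ℕ) × (ℕ × ℕ)) := fun N => if A ≤ N then edgesF d R N else ∅ with hI
  set G : (ℕ × ℕ) × (ℕ × ℕ) → Finset (ℕ × ℕ) := fun p =>
    (range (R / sz p.1 + 1) ×ˢ range (R / sz p.2 + 1)).image fun q => q.1 • p.1 + q.2 • p.2 with hG
  have hsub : badF h d A R ⊆ (SF h d (d.M * R ^ 2)).biUnion fun N => (I N).biUnion G := by
    intro u hu
    rw [mem_badF] at hu
    obtain ⟨hsz, c, e, γ, δ, hE, hS, hAle, hu', hc, he⟩ := hu
    have hc0 := (edge_sz_pos hE).1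
    have he0 := (edge_sz_pos hE).2
    rw [mem_biUnion]
    refine ⟨ip d c e, ?_, ?_⟩
    · rw [mem_SF]
      refine ⟨?_, hS⟩
      calc ip d c e ≤ d.M * (sz c * sz e) := ip_le_sz c e
        _ ≤ d.M * (R * R) := Nat.mul_le_mul_left _ (Nat.mul_le_mul (hc.trans hsz) (he.trans hsz))
        _ = d.M * R ^ 2 := by ring
    · rw [mem_biUnion]
      refine ⟨(c, e), ?_, ?_⟩
      · rw [hI]
        simp only [hAle, if_true]
        rw [mem_edgesF]
        exact ⟨hE, rfl, hc.trans hsz, he.trans hsz⟩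
      · rw [hG]
        simp only [mem_image, mem_product, mem_range]
        have hszu : γ * sz c + δ * sz e ≤ R := by
          rw [← sz_comb, ← hu']; exact hsz
        refine ⟨(γ, δ), ⟨?_, ?_⟩, hu'.symm⟩
        · apply Nat.lt_succ_of_le
          rw [Nat.le_div_iff_mul_le hc0]
          exact le_trans (Nat.le_add_right _ _) hszu
        · apply Nat.lt_succ_of_le
          rw [Nat.le_div_iff_mul_le he0]
          exact le_trans (Nat.le_add_left _ _) hszu
  have hGcard : ∀ N ∈ SF h d (d.M * R ^ 2), ∀ p ∈ I N, A * (G p).card ≤ 4 * d.M * R ^ 2 := by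
    intro N hN p hp
    by_cases hAN : A ≤ N
    · simp only [hI, hAN, if_true] at hp
      rw [mem_edgesF] at hp
      obtain ⟨hE, hip, h1, h2⟩ := hp
      have hc0 := (edge_sz_pos hE).1
      have hd0 := (edge_sz_pos hE).2
      have hcard : (G p).card ≤ (R / sz p.1 + 1) * (R / sz p.2 + 1) := by
        rw [hG]
        refine card_image_le.trans ?_
        rw [card_product, card_range, card_range]
      have e1 : (R / sz p.1 + 1) * sz p.1 ≤ 2 * R := by
        have := Nat.div_mul_le_self R (sz p.1)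
        rw [add_mul, one_mul]; omega
      have e2 : (R / sz p.2 + 1) * sz p.2 ≤ 2 * R := by
        have := Nat.div_mul_le_self R (sz p.2)
        rw [add_mul, one_mul]; omega
      calc A * (G p).card ≤ (d.M * (sz p.1 * sz p.2)) * ((R / sz p.1 + 1) * (R / sz p.2 + 1)) := by
            apply Nat.mul_le_mul _ hcard
            rw [← hip] at hAN
            exact hAN.trans (ip_le_sz _ _)
        _ = d.M * (((R / sz p.1 + 1) * sz p.1) * ((R / sz p.2 + 1) * sz p.2)) := by ring
        _ ≤ d.M * ((2 * R) * (2 * R)) := Nat.mul_le_mul_left _ (Nat.mul_le_mul e1 e2)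
        _ = 4 * d.M * R ^ 2 := by ring
    · simp only [hI, hAN, if_false] at hp
      exact absurd hp (Finset.notMem_empty _)
  have hIcard : ∀ N ∈ SF h d (d.M * R ^ 2), (I N).card ≤ T := by
    intro N hN
    rw [mem_SF] at hN
    by_cases hAN : A ≤ N
    · simp only [hI, hAN, if_true]
      exact (card_edgesF R N).trans (hT N hN.1)
    · simp only [hI, hAN, if_false, card_empty]
      exact Nat.zero_le _
  calc A * (badF h d A R).card
      ≤ A * ((SF h d (d.M * R ^ 2)).biUnion fun N => (I N).biUnion G).card :=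
        Nat.mul_le_mul_left _ (card_le_card hsub)
    _ ≤ A * ∑ N ∈ SF h d (d.M * R ^ 2), ((I N).biUnion G).card :=
        Nat.mul_le_mul_left _ card_biUnion_le
    _ ≤ A * ∑ N ∈ SF h d (d.M * R ^ 2), ∑ p ∈ I N, (G p).card :=
        Nat.mul_le_mul_left _ (sum_le_sum fun N _ => card_biUnion_le)
    _ = ∑ N ∈ SF h d (d.M * R ^ 2), ∑ p ∈ I N, A * (G p).card := by
        rw [mul_sum]
        apply sum_congr rfl
        intro N _
        rw [mul_sum]
    _ ≤ ∑ N ∈ SF h d (d.M * R ^ 2), ∑ p ∈ I N, 4 * d.M * R ^ 2 :=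
        sum_le_sum fun N hN => sum_le_sum fun p hp => hGcard N hN p hp
    _ ≤ ∑ N ∈ SF h d (d.M * R ^ 2), T * (4 * d.M * R ^ 2) := by
        apply sum_le_sum
        intro N hN
        rw [sum_const, smul_eq_mul]
        exact Nat.mul_le_mul_right _ (hIcard N hN)
    _ = (SF h d (d.M * R ^ 2)).card * (T * (4 * d.M * R ^ 2)) := by
        rw [sum_const, smul_eq_mul]

end Pool.Agent.H358R2
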