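import Pool.Agent.H358R2.Main

/-!
The iterated difference list: a list of rotations with very small total angle.
-/

namespace Pool.Agent.H358R2

open Set

variable {E : Type*} [NormedAddCommGroup E] [NormedSpace ℝ E]

/-- backward difference -/
def df (F : ℝ → E) : ℝ → E := fun x => F x - F (x + 1)

theorem df_deriv {F F' : ℝ → E} (h : ∀ x : ℝ, 0 < x → HasDerivAt F (F' x) x) :
    ∀ x : ℝ, 0 < x → HasDerivAt (df F) (df F' x) x := by
  intro x hx
  exact (h x hx).sub ((h (x + 1) (by linarith)).comp_add_const x 1)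

theorem dfk_deriv {F F' : ℝ → E} (h : ∀ x : ℝ, 0 < x → HasDerivAt F (F' x) x) (k : ℕ) :
    ∀ x : ℝ, 0 < x → HasDerivAt (df^[k] F) (df^[k] F' x) x := by
  induction k with
  | zero => simpa using h
  | succ k ih =>
    intro x hx
    rw [Function.iterate_succ_apply', Function.iterate_succ_apply']
    exact df_deriv ih x hx

theorem df_bound {F F' : ℝ → E} (h : ∀ x : ℝ, 0 < x → HasDerivAt F (F' x) x) {x C : ℝ}
    (hx : 0 < x) (hC : ∀ y ∈ Icc x (x + 1), ‖F' y‖ ≤ C) : ‖df F x‖ ≤ C := by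
  have := Convex.norm_image_sub_le_of_norm_hasDerivWithin_le (f := F) (f' := F')
    (s := Icc x (x + 1)) (C := C) (x := x + 1) (y := x)
    (fun y hy => (h y (lt_of_lt_of_le hx hy.1)).hasDerivWithinAt) hC (convex_Icc _ _)
    (right_mem_Icc.2 (by linarith)) (left_mem_Icc.2 (by linarith))
  unfold df
  refine this.trans (le_of_eq ?_)
  have : x - (x + 1) = -1 := by ring
  rw [this]
  simp

theorem df_const_mul (a : ℂ) (F : ℝ → ℂ) : df (fun x => a * F x) = fun x => a * df F x := by
  funext x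
  simp only [df]; ring

theorem dfk_const_mul (a : ℂ) (F : ℝ → ℂ) (k : ℕ) :
    df^[k] (fun x => a * F x) = fun x => a * df^[k] F x := by
  induction k with
  | zero => rfl
  | succ k ih =>
    rw [Function.iterate_succ_apply', ih, df_const_mul]
    funext x
    rw [Function.iterate_succ_apply']

/-- the model functions -/
noncomputable def GG (β q : ℝ) (s : ℕ) (x : ℝ) : ℂ :=
  ((x : ℂ) + ((β : ℂ) + (q : ℂ) * Complex.I)) ^ (-(s : ℤ))

theorem xI_ne {q : ℝ} (hq : 0 < q) (β x : ℝ) : (x : ℂ) + ((β : ℂ) + (q : ℂ) * Complex.I) ≠ 0 := by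
  intro h
  have := congrArg Complex.im h
  simp at this
  exact hq.ne' this

theorem GG_deriv {q : ℝ} (hq : 0 < q) (β : ℝ) (s : ℕ) (x : ℝ) :
    HasDerivAt (GG β q s) (-(s : ℂ) * GG β q (s + 1) x) x := by
  have h1 : HasDerivAt (fun y : ℝ => (y : ℂ) + ((β : ℂ) + (q : ℂ) * Complex.I)) 1 x :=
    (Complex.ofRealCLM.hasDerivAt (x := x)).add_const ((β : ℂ) + (q : ℂ) * Complex.I)
      |>.congr_deriv (by simp)
  have h2 : HasDerivAt (fun z : ℂ => z ^ (-(s : ℤ)))
      ((-(s : ℤ) : ℤ) * ((x : ℂ) + ((β : ℂ) + (q : ℂ) * Complex.I)) ^ (-(s : ℤ) - 1))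
      ((x : ℂ) + ((β : ℂ) + (q : ℂ) * Complex.I)) :=
    hasDerivAt_zpow _ _ (Or.inl (xI_ne hq β x))
  have h3 := h2.comp_of_eq x h1 rfl
  refine h3.congr_deriv ?_
  unfold GG
  rw [mul_one]
  have e : (-(s : ℤ) - 1) = -((s + 1 : ℕ) : ℤ) := by push_cast; ring
  rw [e]
  push_cast
  ring

/-- rising factorials -/
def rf : ℕ → ℕ → ℕ
  | _, 0 => 1
  | s, k + 1 => s * rf (s + 1) k

theorem GG_bound {β q : ℝ} (hβ : 0 ≤ β) (hq : 0 < q) (k : ℕ) : ∀ (s : ℕ) (x : ℝ), 0 < x →
    ‖df^[k] (GG β q s) x‖ ≤ rf s k / x ^ (s + k) := by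
  induction k with
  | zero =>
    intro s x hx
    simp only [Function.iterate_zero, id_eq, rf, Nat.cast_one, add_zero]
    unfold GG
    rw [zpow_neg, zpow_natCast, norm_inv, norm_pow, ← one_div]
    apply one_div_le_one_div_of_le (by positivity)
    apply pow_le_pow_left₀ hx.le
    have := Complex.abs_re_le_norm ((x : ℂ) + ((β : ℂ) + (q : ℂ) * Complex.I))
    simp only [Complex.add_re, Complex.ofReal_re, Complex.mul_re, Complex.I_re, mul_zero,
      Complex.ofReal_im, Complex.I_im, mul_one, sub_self, add_zero] at this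
    have h2 : x ≤ |x + β| := by
      rw [abs_of_pos (by linarith)]; linarith
    exact h2.trans this
  | succ k ih =>
    intro s x hx
    rw [Function.iterate_succ_apply']
    have hd := dfk_deriv (F := GG β q s) (F' := fun x => -(s : ℂ) * GG β q (s + 1) x)
      (fun y _ => GG_deriv hq β s y) k
    apply df_bound hd hx
    intro y hy
    have hy0 : 0 < y := lt_of_lt_of_le hx hy.1
    rw [dfk_const_mul]
    simp only [norm_mul, norm_neg, Complex.norm_natCast]
    have h1 := ih (s + 1) y hy0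
    simp only [rf]
    push_cast
    rw [mul_div_assoc]
    apply mul_le_mul_of_nonneg_left _ (Nat.cast_nonneg s)
    refine h1.trans ?_
    have e : s + 1 + k = s + (k + 1) := by ring
    rw [e]
    apply div_le_div_of_nonneg_left (Nat.cast_nonneg _) (by positivity)
    exact pow_le_pow_left₀ hx.le hy.1 _

theorem atan_deriv {β q : ℝ} (hβ : 0 ≤ β) (hq : 0 < q) (x : ℝ) (hx : 0 < x) :
    HasDerivAt (fun y : ℝ => Real.arctan (q / (y + β))) (GG β q 1 x).im x := by
  have hxb : x + β ≠ 0 := by positivity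
  have h0 : HasDerivAt (fun y : ℝ => (y + β)⁻¹) (-((x + β) ^ 2)⁻¹) x := by
    have := (hasDerivAt_inv hxb).comp_of_eq x ((hasDerivAt_id' x).add_const β) rfl
    rw [mul_one] at this
    exact this
  have h1 : HasDerivAt (fun y : ℝ => q / (y + β)) (q * -((x + β) ^ 2)⁻¹) x := by
    simpa [div_eq_mul_inv] using h0.const_mul q
  have h2 := (Real.hasDerivAt_arctan (q / (x + β))).comp_of_eq x h1 rfl
  refine h2.congr_deriv ?_
  unfold GG
  have e : ((x : ℂ) + ((β : ℂ) + (q : ℂ) * Complex.I)) ^ (-((1 : ℕ) : ℤ)) =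
      ((x : ℂ) + ((β : ℂ) + (q : ℂ) * Complex.I))⁻¹ := by
    simp
  rw [e, Complex.inv_im]
  have hn : Complex.normSq ((x : ℂ) + ((β : ℂ) + (q : ℂ) * Complex.I)) = (x + β) ^ 2 + q ^ 2 := by
    simp [Complex.normSq_apply]; ring
  rw [hn]
  have hi : ((x : ℂ) + ((β : ℂ) + (q : ℂ) * Complex.I)).im = q := by simp
  rw [hi]
  have : (x + β) ^ 2 ≠ 0 := by positivity
  have h3 : (x + β) ^ 2 + q ^ 2 ≠ 0 := by positivity
  field_simp

theorem df_im (F : ℝ → ℂ) : df (fun x => (F x).im) = fun x => (df F x).im := by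
  funext x; simp [df]

theorem dfk_im (F : ℝ → ℂ) (k : ℕ) :
    df^[k] (fun x => (F x).im) = fun x => (df^[k] F x).im := by
  induction k with
  | zero => rfl
  | succ k ih =>
    rw [Function.iterate_succ_apply', ih, df_im]
    funext x
    rw [Function.iterate_succ_apply']

theorem atan_bound {β q : ℝ} (hβ : 0 ≤ β) (hq : 0 < q) (k : ℕ) (x : ℝ) (hx : 0 < x) :
    |df^[k + 1] (fun y : ℝ => Real.arctan (q / (y + β))) x| ≤ rf 1 k / x ^ (k + 1) := by
  rw [Function.iterate_succ_apply']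
  have hd := dfk_deriv (F := fun y : ℝ => Real.arctan (q / (y + β)))
    (F' := fun y => (GG β q 1 y).im) (atan_deriv hβ hq) k
  rw [← Real.norm_eq_abs]
  apply df_bound hd hx
  intro y hy
  have hy0 : 0 < y := lt_of_lt_of_le hx hy.1
  rw [dfk_im, Real.norm_eq_abs]
  refine (Complex.abs_im_le_norm _).trans ((GG_bound hβ hq k 1 y hy0).trans ?_)
  rw [add_comm 1 k]
  apply div_le_div_of_nonneg_left (Nat.cast_nonneg _) (by positivity)
  exact pow_le_pow_left₀ hx.le hy.1 _

/-- reversed rotations -/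
def ng (L : List (ℕ × Bool)) : List (ℕ × Bool) := L.map fun ω => (ω.1, !ω.2)

/-- iterated difference list -/
def LD : ℕ → ℕ → List (ℕ × Bool)
  | 0, n => [(n, true)]
  | D + 1, n => LD D n ++ ng (LD D (n + 1))

theorem tot_append (d : QF) (L M : List (ℕ × Bool)) : tot d (L ++ M) = tot d L + tot d M := by
  induction L with
  | nil => simp [tot]
  | cons ω L ih => simp only [List.cons_append, tot, ih]; ring

theorem al_not (d : QF) (ω : ℕ × Bool) : al d (ω.1, !ω.2) = -al d ω := by
  unfold al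
  obtain ⟨n, b⟩ := ω
  cases b <;> simp

theorem tot_ng (d : QF) (L : List (ℕ × Bool)) : tot d (ng L) = -tot d L := by
  induction L with
  | nil => simp [tot, ng]
  | cons ω L ih =>
    have : ng (ω :: L) = (ω.1, !ω.2) :: ng L := rfl
    rw [this]
    simp only [tot, ih, al_not]; ring

theorem sg_append (h : ℕ → ℤ) (d : QF) (L M : List (ℕ × Bool)) :
    sg h d (L ++ M) = sg h d L * sg h d M := by
  induction L with
  | nil => simp [sg]
  | cons ω L ih => simp only [List.cons_append, sg, ih]; ring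

theorem sg_ng (h : ℕ → ℤ) (d : QF) (L : List (ℕ × Bool)) : sg h d (ng L) = sg h d L := by
  induction L with
  | nil => simp [sg, ng]
  | cons ω L ih =>
    have : ng (ω :: L) = (ω.1, !ω.2) :: ng L := rfl
    rw [this]
    simp only [sg, ih]

theorem length_LD (D : ℕ) : ∀ n, (LD D n).length = 2 ^ D := by
  induction D with
  | zero => intro n; simp [LD]
  | succ D ih =>
    intro n
    simp only [LD, List.length_append, ng, List.length_map, ih]; ring

theorem mem_LD (D : ℕ) : ∀ n, ∀ ω ∈ LD D n, n ≤ ω.1 ∧ ω.1 ≤ n + D := by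
  induction D with
  | zero =>
    intro n ω hω
    simp only [LD, List.mem_singleton] at hω
    rw [hω]; simp
  | succ D ih =>
    intro n ω hω
    simp only [LD, List.mem_append, ng, List.mem_map] at hω
    rcases hω with hω | ⟨ω', hω', rfl⟩
    · have := ih n ω hω; omega
    · have := ih (n + 1) ω' hω'
      simp only; omega

theorem tot_LD (d : QF) (D : ℕ) : ∀ n : ℕ,
    tot d (LD D n) = df^[D] (fun y : ℝ => Real.arctan (d.κ / (y + (d.b : ℝ) / 2))) (n : ℝ) := by
  induction D with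
  | zero => intro n; simp [LD, tot, al]
  | succ D ih =>
    intro n
    rw [Function.iterate_succ_apply']
    simp only [LD, tot_append, tot_ng, ih, df]
    push_cast
    ring

theorem tot_LD_bound (d : QF) (D : ℕ) (hD : 1 ≤ D) (n : ℕ) (hn : 0 < n) :
    |tot d (LD D n)| ≤ rf 1 (D - 1) / (n : ℝ) ^ D := by
  obtain ⟨k, rfl⟩ := Nat.exists_eq_add_of_le' hD
  rw [tot_LD]
  simp only [Nat.add_sub_cancel]
  exact atan_bound (by positivity) d.κ_pos k n (by exact_mod_cast hn)

theorem sg_LD_succ (h : ℕ → ℤ) (d : QF) (D n : ℕ) :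
    sg h d (LD (D + 1) n) = sg h d (LD D n) * sg h d (LD D (n + 1)) := by
  simp only [LD, sg_append, sg_ng]

theorem sg_pm {h : ℕ → ℤ} (H : CM h) {d : QF} (L : List (ℕ × Bool)) :
    sg h d L = 1 ∨ sg h d L = -1 := by
  induction L with
  | nil => left; rfl
  | cons ω L ih =>
    simp only [sg]
    rcases H.pm (d.f ω.1) (d.f_pos _) with e | e <;> rcases ih with e' | e' <;>
      rw [e, e'] <;> norm_num

theorem sg_sq {h : ℕ → ℤ} (H : CM h) {d : QF} (L : List (ℕ × Bool)) :
    sg h d L * sg h d L = 1 := by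
  rcases sg_pm H L with e | e <;> rw [e] <;> norm_num

theorem sg_LD_pow {h : ℕ → ℤ} (H : CM h) {d : QF} (r : ℕ) : ∀ D n : ℕ,
    sg h d (LD (D + 2 ^ r) n) = sg h d (LD D n) * sg h d (LD D (n + 2 ^ r)) := by
  induction r with
  | zero => intro D n; simp only [pow_zero]; exact sg_LD_succ h d D n
  | succ r ih =>
    intro D n
    have e : D + 2 ^ (r + 1) = (D + 2 ^ r) + 2 ^ r := by ring
    rw [e, ih, ih, ih]
    have e2 : n + 2 ^ r + 2 ^ r = n + 2 ^ (r + 1) := by ring
    rw [e2]
    have := sg_sq H (d := d) (LD D (n + 2 ^ r))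
    linear_combination (sg h d (LD D n) * sg h d (LD D (n + 2 ^ (r + 1)))) * this

theorem sg_LD_two_pow {h : ℕ → ℤ} (H : CM h) {d : QF} (r n : ℕ) :
    sg h d (LD (2 ^ r) n) = h (d.f n) * h (d.f (n + 2 ^ r)) := by
  have := sg_LD_pow H (d := d) r 0 n
  rw [zero_add] at this
  rw [this]
  simp [LD, sg]

end Pool.Agent.H358R2
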