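import Pool.Agent.H358R2.Legendre
import Pool.Agent.H358R2.Basic

/-!
The Liouville function takes the value `-1` at `n ^ 2 + b n + c`, `b ∈ {0, 1}`.
-/

namespace Pool.Agent.H358R2

/-- the form over the integers -/
def FZ (d : QF) (x y : ℤ) : ℤ := x ^ 2 + d.b * (x * y) + d.c * y ^ 2

theorem FZ_four (d : QF) (x y : ℤ) :
    4 * FZ d x y = (2 * x + d.b * y) ^ 2 + (4 * d.c - (d.b : ℤ) ^ 2) * y ^ 2 := by
  unfold FZ; ring

theorem FZ_nonneg (d : QF) (x y : ℤ) : 0 ≤ FZ d x y := by
  have h := FZ_four d x y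
  have hn : ((d.b : ℤ)) ^ 2 < 4 * d.c := by exact_mod_cast d.neg
  have h1 : 0 ≤ (4 * (d.c : ℤ) - (d.b : ℤ) ^ 2) * y ^ 2 :=
    mul_nonneg (by linarith) (sq_nonneg y)
  nlinarith [sq_nonneg (2 * x + d.b * y)]

theorem FZ_pos (d : QF) {x y : ℤ} (hxy : x ≠ 0 ∨ y ≠ 0) : 0 < FZ d x y := by
  rcases (FZ_nonneg d x y).lt_or_eq with h | h
  · exact h
  exfalso
  have h4 := FZ_four d x y
  have hn : ((d.b : ℤ)) ^ 2 < 4 * d.c := by exact_mod_cast d.neg
  rw [← h, mul_zero] at h4
  have h1 : 0 ≤ (4 * (d.c : ℤ) - (d.b : ℤ) ^ 2) * y ^ 2 :=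
    mul_nonneg (by linarith) (sq_nonneg y)
  have h2 : (4 * (d.c : ℤ) - (d.b : ℤ) ^ 2) * y ^ 2 = 0 := by
    nlinarith [sq_nonneg (2 * x + d.b * y)]
  have hy : y = 0 := by
    rcases mul_eq_zero.1 h2 with h3 | h3
    · linarith
    · simpa using h3
  rw [hy] at h4
  have hx : x = 0 := by
    have : (2 * x) ^ 2 = 0 := by linarith
    have h5 : 2 * x = 0 := by simpa using this
    omega
  rcases hxy with h3 | h3
  · exact h3 hx
  · exact h3 hy

theorem FZ_f (d : QF) (N : ℕ) : FZ d N 1 = d.f N := by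
  unfold FZ QF.f; push_cast; ring

/-- if the sign is `+1` at all natural numbers then it is `+1` on all primitive vectors -/
theorem all_prim {h : ℕ → ℤ} (H : CM h) (d : QF) (hb : d.b ≤ 1)
    (hall : ∀ n : ℕ, h (d.f n) = 1) :
    ∀ (y : ℕ) (x : ℤ), Int.gcd x y = 1 → h (FZ d x y).toNat = 1 := by
  have hone : h 1 = 1 := by
    have := H.mul 1 1 one_ne_zero one_ne_zero
    rcases H.pm 1 one_ne_zero with e | e
    · exact e
    · rw [mul_one, e] at this; norm_num at this
  -- all integers
  have hint : ∀ N : ℤ, h (FZ d N 1).toNat = 1 := by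
    intro N
    rcases le_or_gt 0 N with h0 | h0
    · obtain ⟨n, rfl⟩ := Int.eq_ofNat_of_zero_le h0
      rw [FZ_f]
      simpa using hall n
    · have : 0 ≤ -N - d.b := by omega
      obtain ⟨n, hn⟩ := Int.eq_ofNat_of_zero_le this
      have e : FZ d N 1 = FZ d n 1 := by
        have : N = -n - d.b := by linarith
        rw [this]; unfold FZ; ring
      rw [e, FZ_f]
      simpa using hall n
  intro y
  induction y using Nat.strong_induction_on with
  | _ y ih =>
    intro x hg
    rcases Nat.eq_zero_or_pos y with h0 | hy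
    · subst h0
      simp only [Nat.cast_zero, Int.gcd_zero_right] at hg
      have : FZ d x ((0 : ℕ) : ℤ) = 1 := by
        unfold FZ
        have h1 : x.natAbs = 1 := hg
        have h2 : x ^ 2 = 1 := by
          rw [← Int.natAbs_sq, h1]; norm_num
        rw [h2]; simp
      rw [this]
      simpa using hone
    · have hy' : (0 : ℤ) < y := by exact_mod_cast hy
      have hbez := Int.gcd_eq_gcd_ab x y
      rw [hg] at hbez
      set u := Int.gcdA x y
      set v := Int.gcdB x y
      set y' : ℤ := (-u) % y with hy'def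
      have hy'0 : 0 ≤ y' := Int.emod_nonneg _ hy'.ne'
      have hy'lt : y' < y := Int.emod_lt_of_pos _ hy'
      obtain ⟨k, hk⟩ : (y : ℤ) ∣ 1 + y' * x := by
        have h1 : y' = -u - y * ((-u) / y) := by
          rw [hy'def]
          have := Int.emod_add_mul_ediv (-u) y
          linarith
        refine ⟨v - (-u) / y * x, ?_⟩
        rw [h1]
        push_cast at hbez
        linear_combination hbez
      -- the previous vector
      have hdet : k * y = y' * x + 1 := by linarith
      obtain ⟨m, hm⟩ := Int.eq_ofNat_of_zero_le hy'0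
      have hm' : m < y := by
        have : (m : ℤ) < y := by rw [← hm]; exact hy'lt
        exact_mod_cast this
      have hgm : Int.gcd k m = 1 := by
        rw [← Int.isCoprime_iff_gcd_eq_one]
        refine ⟨y, -x, ?_⟩
        rw [← hm]; linarith
      have e1 := ih m hm' k hgm
      have hkey := edge_nm_int (a1 := k) (a2 := y') (b1 := x) (b2 := y) (B := d.b) (C := d.c) hdet
      set N : ℤ := k * x + d.b * (y' * x) + d.c * (y' * y) with hN
      have hkey' : FZ d k m * FZ d x y = FZ d N 1 := by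
        unfold FZ
        rw [← hm]
        linear_combination hkey
      have e2 := hint N
      have p1 : FZ d k m ≠ 0 := by
        intro h0
        rw [h0, zero_mul] at hkey'
        have := FZ_pos d (x := N) (y := 1) (Or.inr one_ne_zero)
        linarith
      have p2 : FZ d x y ≠ 0 := by
        intro h0
        rw [h0, mul_zero] at hkey'
        have := FZ_pos d (x := N) (y := 1) (Or.inr one_ne_zero)
        linarith
      have q1 := FZ_nonneg d k m
      have q2 := FZ_nonneg d x y
      rw [← hkey', Int.toNat_mul q1 q2, H.mul _ _ (by omega) (by omega), e1, one_mul] at e2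
      exact e2

theorem all_vec {h : ℕ → ℤ} (H : CM h) (d : QF) (hb : d.b ≤ 1)
    (hall : ∀ n : ℕ, h (d.f n) = 1) {x y : ℤ} (hxy : x ≠ 0 ∨ y ≠ 0) :
    h (FZ d x y).toNat = 1 := by
  have main : ∀ (x : ℤ) (y : ℕ), (x ≠ 0 ∨ y ≠ 0) → h (FZ d x y).toNat = 1 := by
    intro x y hxy
    have hg : 0 < Int.gcd x y := by
      rw [Nat.pos_iff_ne_zero]
      intro h0
      rw [Int.gcd_eq_zero_iff] at h0
      rcases hxy with h1 | h1
      · exact h1 h0.1
      · apply h1; exact_mod_cast h0.2
    set g := Int.gcd x y with hgdef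
    obtain ⟨x', hx'⟩ : (g : ℤ) ∣ x := Int.gcd_dvd_left ..
    obtain ⟨y', hy'⟩ : g ∣ y := by
      have : (g : ℤ) ∣ (y : ℤ) := Int.gcd_dvd_right ..
      exact_mod_cast this
    have hgp : Int.gcd x' y' = 1 := by
      have h1 : Int.gcd ((g : ℤ) * x') ((g : ℤ) * y') = g * Int.gcd x' y' := by
        rw [Int.gcd_mul_left]; simp
      have h2 : Int.gcd ((g : ℤ) * x') ((g : ℤ) * y') = g := by
        rw [← hx']
        have : ((g : ℤ) * (y' : ℤ)) = (y : ℤ) := by exact_mod_cast hy'.symm
        rw [this]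
      rw [h2] at h1
      have h3 : g * 1 = g * Int.gcd x' y' := by rw [mul_one]; exact h1
      exact (Nat.eq_of_mul_eq_mul_left hg h3).symm
    have e1 := all_prim H d hb hall y' x' hgp
    have hF : FZ d x y = (g : ℤ) ^ 2 * FZ d x' y' := by
      have : (y : ℤ) = (g : ℤ) * y' := by exact_mod_cast hy'
      rw [hx', this]; unfold FZ; ring
    have hnn := FZ_nonneg d x' y'
    have hpos : FZ d x' y' ≠ 0 := by
      intro h0
      have := FZ_pos d (x := x) (y := y) (by
        rcases hxy with h | h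
        · exact Or.inl h
        · right; exact_mod_cast h)
      rw [hF, h0, mul_zero] at this
      exact lt_irrefl _ this
    rw [hF, Int.toNat_mul (by positivity) hnn]
    have hgt : ((g : ℤ) ^ 2).toNat = g ^ 2 := by
      have : ((g : ℤ) ^ 2) = ((g ^ 2 : ℕ) : ℤ) := by push_cast; ring
      rw [this, Int.toNat_natCast]
    rw [hgt, H.mul _ _ (by positivity) (by omega), H.sq hg.ne', e1, one_mul]
  rcases le_or_gt 0 y with h0 | h0
  · obtain ⟨n, rfl⟩ := Int.eq_ofNat_of_zero_le h0
    apply main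
    rcases hxy with h | h
    · exact Or.inl h
    · right; intro h1; apply h; rw [h1]; rfl
  · have : 0 ≤ -y := by omega
    obtain ⟨n, hn⟩ := Int.eq_ofNat_of_zero_le this
    have e : FZ d x y = FZ d (-x) n := by
      have : y = -n := by linarith
      rw [this]; unfold FZ; ring
    rw [e]
    apply main
    rcases hxy with h | h
    · left; omega
    · right; intro h1; apply h; rw [h1] at hn; simp at hn; omega

/-- the sign `-1` occurs -/
theorem exists_neg {h : ℕ → ℤ} (H : CM h) (hp : ∀ q : ℕ, q.Prime → h q = -1) (d : QF)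
    (hb : d.b ≤ 1) : ∃ n : ℕ, h (d.f n) = -1 := by
  by_contra hno
  push Not at hno
  have hall : ∀ n : ℕ, h (d.f n) = 1 := by
    intro n
    rcases H.pm _ (d.f_pos n) with e | e
    · exact e
    · exact absurd e (hno n)
  have hneg := d.neg
  obtain ⟨q, hq, X, Y, Z, hZ, heq⟩ := legendre_case (Δ := 4 * d.c - d.b ^ 2) (by omega)
  have hΔ : (((4 * d.c - d.b ^ 2 : ℕ)) : ℤ) = 4 * d.c - (d.b : ℤ) ^ 2 := by
    rw [Nat.cast_sub hneg.le]; push_cast; ring
  rw [hΔ] at heq
  have hF : FZ d (X - d.b * Y) (2 * Y) = q * Z ^ 2 := by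
    rw [← heq]; unfold FZ; ring
  have hqpos : (0 : ℤ) < q := by exact_mod_cast hq.pos
  have hZ2 : 0 < Z ^ 2 := by positivity
  have hne : X - d.b * Y ≠ 0 ∨ 2 * Y ≠ 0 := by
    by_contra hcon
    push Not at hcon
    obtain ⟨h1, h2⟩ := hcon
    rw [h1, h2] at hF
    have : FZ d 0 0 = 0 := by unfold FZ; ring
    rw [this] at hF
    have : 0 < (q : ℤ) * Z ^ 2 := mul_pos hqpos hZ2
    linarith
  have e1 := all_vec H d hb hall hne
  rw [hF] at e1
  have e2 : ((q : ℤ) * Z ^ 2).toNat = q * Z.natAbs ^ 2 := by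
    have : (q : ℤ) * Z ^ 2 = ((q * Z.natAbs ^ 2 : ℕ) : ℤ) := by
      push_cast
      rw [← Int.natCast_natAbs, ← Int.natAbs_sq Z]
    rw [this, Int.toNat_natCast]
  have hZn : Z.natAbs ≠ 0 := Int.natAbs_ne_zero.2 hZ
  rw [e2, H.mul _ _ hq.ne_zero (pow_ne_zero 2 hZn), H.sq hZn, hp q hq] at e1
  norm_num at e1

end Pool.Agent.H358R2
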