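import Pool.Agent.H358R2.Count

/-!
Farey neighbours of a real slope.
-/

namespace Pool.Agent.H358R2

/-- slope -/
noncomputable def sl (u : ℕ × ℕ) : ℝ := (u.2 : ℝ) / (u.1 : ℝ)

theorem farey (t : ℝ) (ht : 0 < t) : ∀ Q : ℕ, 1 ≤ Q → ∃ a b : ℕ × ℕ, Edge a b ∧
    (a.2 : ℝ) ≤ t * a.1 ∧ t * b.1 < b.2 ∧ sz a ≤ Q ∧ sz b ≤ Q ∧ Q < sz a + sz b := by
  intro Q hQ
  induction Q, hQ using Nat.le_induction with
  | base =>
    refine ⟨(1, 0), (0, 1), ?_, ?_, ?_, ?_, ?_, ?_⟩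
    · simp [Edge]
    · simp only [Nat.cast_zero, Nat.cast_one, mul_one]; exact ht.le
    · simp
    · simp [sz]
    · simp [sz]
    · simp [sz]
  | succ Q hQ ih =>
    obtain ⟨a, b, hE, h1, h2, h3, h4, h5⟩ := ih
    by_cases hlt : Q + 1 < sz a + sz b
    · exact ⟨a, b, hE, h1, h2, by omega, by omega, hlt⟩
    · have hs : sz a + sz b = Q + 1 := by omega
      have ha := (edge_sz_pos hE).1
      have hb := (edge_sz_pos hE).2
      by_cases hc : ((a + b).2 : ℝ) ≤ t * (a + b).1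
      · refine ⟨a + b, b, edge_add_left hE, hc, h2, ?_, by omega, ?_⟩
        · rw [sz_add]; omega
        · rw [sz_add]; omega
      · refine ⟨a, a + b, edge_add_right hE, h1, lt_of_not_ge hc, by omega, ?_, ?_⟩
        · rw [sz_add]; omega
        · rw [sz_add]; omega

theorem slopes_ok {t : ℝ} (h13 : 1 / 3 < t) (h3 : t < 3) {Q : ℕ} (hQ : 4 ≤ Q) {a b : ℕ × ℕ}
    (hE : Edge a b) (h1 : (a.2 : ℝ) ≤ t * a.1) (h2 : t * b.1 < b.2)
    (h5 : Q < sz a + sz b) :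
    a.1 ≤ 3 * a.2 ∧ a.2 ≤ 3 * a.1 ∧ b.1 ≤ 3 * b.2 ∧ b.2 ≤ 3 * b.1 := by
  have ha2 : a.2 ≤ 3 * a.1 := by
    have : (a.2 : ℝ) ≤ 3 * a.1 :=
      h1.trans (mul_le_mul_of_nonneg_right h3.le (Nat.cast_nonneg _))
    exact_mod_cast this
  have hapos := edge_left_pos hE
  have ha2' : a.2 < 3 * a.1 := by
    have hpos : (0 : ℝ) < a.1 := by exact_mod_cast hapos
    have : (a.2 : ℝ) < 3 * a.1 :=
      lt_of_le_of_lt h1 (mul_lt_mul_of_pos_right h3 hpos)
    exact_mod_cast this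
  have hb1' : b.1 < 3 * b.2 := by
    have hb0 : (0 : ℝ) ≤ b.1 := Nat.cast_nonneg _
    have hb2 : (0 : ℝ) < b.2 := by exact_mod_cast edge_right_pos hE
    have : (b.1 : ℝ) < 3 * b.2 := by nlinarith
    exact_mod_cast this
  have hb1 : b.1 ≤ 3 * b.2 := hb1'.le
  refine ⟨?_, ha2, hb1, ?_⟩
  · by_contra hlt
    push Not at hlt
    unfold Edge at hE
    obtain ⟨k, hk⟩ := Nat.exists_eq_add_of_lt hlt
    obtain ⟨l, hl⟩ := Nat.exists_eq_add_of_lt hb1'
    unfold sz at h5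
    -- (3 b2 - b1) (a1 + a2) + (a1 - 3 a2) (b1 + b2) = 4
    have key : (l + 1) * (a.1 + a.2) + (k + 1) * (b.1 + b.2) = 4 := by
      zify at *
      have e1 : (l : ℤ) + 1 = 3 * b.2 - b.1 := by linarith
      have e2 : (k : ℤ) + 1 = a.1 - 3 * a.2 := by linarith
      rw [e1, e2]
      linear_combination 4 * hE
    nlinarith [Nat.zero_le (l * (a.1 + a.2)), Nat.zero_le (k * (b.1 + b.2))]
  · by_contra hlt
    push Not at hlt
    unfold Edge at hE
    obtain ⟨k, hk⟩ := Nat.exists_eq_add_of_lt hlt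
    obtain ⟨l, hl⟩ := Nat.exists_eq_add_of_lt ha2'
    unfold sz at h5
    have key : (k + 1) * (a.1 + a.2) + (l + 1) * (b.1 + b.2) = 4 := by
      zify at *
      have e1 : (k : ℤ) + 1 = b.2 - 3 * b.1 := by linarith
      have e2 : (l : ℤ) + 1 = 3 * a.1 - a.2 := by linarith
      rw [e1, e2]
      linear_combination 4 * hE
    nlinarith [Nat.zero_le (k * (a.1 + a.2)), Nat.zero_le (l * (b.1 + b.2))]

theorem sl_sub {a b : ℕ × ℕ} (hE : Edge a b) (ha : 0 < a.1) (hb : 0 < b.1) :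
    sl b - sl a = 1 / ((a.1 : ℝ) * b.1) := by
  unfold Edge at hE
  unfold sl
  have ha' : (0 : ℝ) < a.1 := by exact_mod_cast ha
  have hb' : (0 : ℝ) < b.1 := by exact_mod_cast hb
  have hE' : (a.1 : ℝ) * b.2 = a.2 * b.1 + 1 := by exact_mod_cast hE
  field_simp
  linarith

/-- neighbours of comparable size -/
theorem nbr {t : ℝ} (h13 : 1 / 3 < t) (h3 : t < 3) {K Q : ℕ} (hK : 2 ≤ K) (hQ : 4 ≤ Q)
    (hB1 : ∀ c : ℕ × ℕ, 0 < c.1 → K * sz c < Q → 32 / ((sz c : ℝ) * Q) < |t - sl c|) :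
    ∃ a b : ℕ × ℕ, Edge a b ∧ 0 < a.1 ∧ 0 < b.1 ∧ sl a ≤ t ∧ t < sl b ∧ sz a ≤ Q ∧ sz b ≤ Q ∧
      Q ≤ K * sz a ∧ Q ≤ K * sz b ∧ a.1 ≤ 3 * a.2 ∧ a.2 ≤ 3 * a.1 ∧ b.1 ≤ 3 * b.2 ∧
      b.2 ≤ 3 * b.1 ∧ sl b - sl a ≤ 16 * K ^ 2 / Q ^ 2 := by
  obtain ⟨a, b, hE, h1, h2, h4, h5, h6⟩ := farey t (by linarith) Q (by omega)
  obtain ⟨s1, s2, s3, s4⟩ := slopes_ok h13 h3 hQ hE h1 h2 h6
  have ha := edge_left_pos hE
  have hb2 := edge_right_pos hE
  have hb : 0 < b.1 := by omega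
  have ha' : (0 : ℝ) < a.1 := by exact_mod_cast ha
  have hb' : (0 : ℝ) < b.1 := by exact_mod_cast hb
  have hsa : (sz a : ℝ) ≤ 4 * a.1 := by
    have : sz a ≤ 4 * a.1 := by unfold sz; omega
    exact_mod_cast this
  have hsb : (sz b : ℝ) ≤ 4 * b.1 := by
    have : sz b ≤ 4 * b.1 := by unfold sz; omega
    exact_mod_cast this
  have hsa0 : (0 : ℝ) < sz a := by exact_mod_cast (edge_sz_pos hE).1
  have hsb0 : (0 : ℝ) < sz b := by exact_mod_cast (edge_sz_pos hE).2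
  have hta : sl a ≤ t := by
    unfold sl
    rw [div_le_iff₀ ha']; exact h1
  have htb : t < sl b := by
    unfold sl
    rw [lt_div_iff₀ hb']; exact h2
  have hlen : sl b - sl a ≤ 16 / ((sz a : ℝ) * sz b) := by
    rw [sl_sub hE ha hb, div_le_div_iff₀ (by positivity) (by positivity)]
    nlinarith
  have hQ0 : (0 : ℝ) < Q := by
    have : 0 < Q := by omega
    exact_mod_cast this
  have hsum : (Q : ℝ) < sz a + sz b := by exact_mod_cast h6
  have hKa : Q ≤ K * sz a := by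
    by_contra hlt
    push Not at hlt
    have hb := hB1 a ha hlt
    have h2a : 2 * sz a < Q := lt_of_le_of_lt (Nat.mul_le_mul_right _ hK) hlt
    have h2a' : 2 * (sz a : ℝ) < Q := by exact_mod_cast h2a
    have : |t - sl a| ≤ 32 / ((sz a : ℝ) * Q) := by
      rw [abs_of_nonneg (by linarith)]
      calc t - sl a ≤ sl b - sl a := by linarith
        _ ≤ 16 / ((sz a : ℝ) * sz b) := hlen
        _ ≤ 32 / ((sz a : ℝ) * Q) := by
          rw [div_le_div_iff₀ (by positivity) (by positivity)]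
          nlinarith
    linarith
  have hKb : Q ≤ K * sz b := by
    by_contra hlt
    push Not at hlt
    have hb := hB1 b hb hlt
    have h2a : 2 * sz b < Q := lt_of_le_of_lt (Nat.mul_le_mul_right _ hK) hlt
    have h2a' : 2 * (sz b : ℝ) < Q := by exact_mod_cast h2a
    have : |t - sl b| ≤ 32 / ((sz b : ℝ) * Q) := by
      rw [abs_of_nonpos (by linarith)]
      calc -(t - sl b) ≤ sl b - sl a := by linarith
        _ ≤ 16 / ((sz a : ℝ) * sz b) := hlen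
        _ ≤ 32 / ((sz b : ℝ) * Q) := by
          rw [div_le_div_iff₀ (by positivity) (by positivity)]
          nlinarith
    linarith
  refine ⟨a, b, hE, ha, hb, hta, htb, h4, h5, hKa, hKb, s1, s2, s3, s4, hlen.trans ?_⟩
  rw [div_le_div_iff₀ (by positivity) (by positivity)]
  have e1 : (Q : ℝ) ≤ K * sz a := by exact_mod_cast hKa
  have e2 : (Q : ℝ) ≤ K * sz b := by exact_mod_cast hKb
  have e3 : (Q : ℝ) * Q ≤ (K * sz a) * (K * sz b) :=
    mul_le_mul e1 e2 hQ0.le (by positivity)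
  nlinarith

/-- a vector strictly inside a cone is a positive combination -/
theorem in_cone {a b u : ℕ × ℕ} (hE : Edge a b) (ha : 0 < a.1) (hb : 0 < b.1) (hu : 0 < u.1)
    (h1 : sl a < sl u) (h2 : sl u < sl b) :
    ∃ α β : ℕ, 0 < α ∧ 0 < β ∧ u = α • a + β • b := by
  have ha' : (0 : ℝ) < a.1 := by exact_mod_cast ha
  have hb' : (0 : ℝ) < b.1 := by exact_mod_cast hb
  have hu' : (0 : ℝ) < u.1 := by exact_mod_cast hu
  unfold sl at h1 h2
  rw [div_lt_div_iff₀ ha' hu'] at h1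
  rw [div_lt_div_iff₀ hu' hb'] at h2
  have h1' : a.2 * u.1 < u.2 * a.1 := by exact_mod_cast h1
  have h2' : u.2 * b.1 < b.2 * u.1 := by exact_mod_cast h2
  obtain ⟨k, hk⟩ := Nat.exists_eq_add_of_lt h1'
  obtain ⟨l, hl⟩ := Nat.exists_eq_add_of_lt h2'
  unfold Edge at hE
  refine ⟨l + 1, k + 1, by omega, by omega, ?_⟩
  ext
  · simp only [Prod.fst_add, Prod.smul_fst, smul_eq_mul]
    zify at *
    have e1 : (l : ℤ) + 1 = b.2 * u.1 - u.2 * b.1 := by linarith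
    have e2 : (k : ℤ) + 1 = u.2 * a.1 - a.2 * u.1 := by linarith
    rw [e1, e2]
    linear_combination (-(u.1 : ℤ)) * hE
  · simp only [Prod.snd_add, Prod.smul_snd, smul_eq_mul]
    zify at *
    have e1 : (l : ℤ) + 1 = b.2 * u.1 - u.2 * b.1 := by linarith
    have e2 : (k : ℤ) + 1 = u.2 * a.1 - a.2 * u.1 := by linarith
    rw [e1, e2]
    linear_combination (-(u.2 : ℤ)) * hE

/-- colour of a non-bad vector strictly inside a cone -/
theorem cone_color {h : ℕ → ℤ} (H : CM h) {d : QF} {A : ℕ} {a b u : ℕ × ℕ}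
    (hE : Edge a b) (ha : 0 < a.1) (hb : 0 < b.1) (hu : 0 < u.1) (h1 : sl a < sl u)
    (h2 : sl u < sl b) (hA : A ≤ ip d a b) (hbad : ¬ Bad h d A u) :
    h (nm d u) = h (nm d a) := by
  obtain ⟨α, β, hα, hβ, huu⟩ := in_cone hE ha hb hu h1 h2
  refine (local_const H A (α + β) α β a b u rfl (by omega) hE hA huu ?_ ?_ hbad).1
  · rw [huu, sz_comb]; nlinarith [Nat.zero_le (sz a), Nat.zero_le (sz b)]
  · rw [huu, sz_comb]; nlinarith [Nat.zero_le (sz a), Nat.zero_le (sz b)]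

end Pool.Agent.H358R2
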