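import Mathlib

/-!
For every `D ≥ 1` there is a prime `q` such that `X ^ 2 + D Y ^ 2 = q Z ^ 2` has a solution with
`Z ≠ 0` (a case of Legendre's theorem, by the pigeonhole principle).
-/

namespace Pool.Agent.H358R2

/-- the square root of `-D` modulo primes `q ≡ 1 mod 4 D` -/
theorem sqrt_neg_mod {D q : ℕ} (hD : 1 < D) (hq : q.Prime) (hqD : D < q)
    (h1 : q ≡ 1 [MOD (4 * D)]) : ∃ t : ZMod q, t ^ 2 = -(D : ZMod q) := by
  haveI : Fact q.Prime := ⟨hq⟩
  have hmod : q % (4 * D) = 1 := by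
    have := h1
    unfold Nat.ModEq at this
    rw [this]
    exact Nat.mod_eq_of_lt (by omega)
  have hodd : Odd q := by
    rw [Nat.odd_iff]
    have h2 : q = 4 * D * (q / (4 * D)) + 1 := by
      have := Nat.div_add_mod q (4 * D)
      rw [hmod] at this
      exact this.symm
    have h3 : 4 * D * (q / (4 * D)) = 2 * (2 * D * (q / (4 * D))) := by ring
    omega
  have hj : jacobiSym (-(D : ℤ)) q = 1 := by
    rw [jacobiSym.mod_right _ hodd]
    have : (-(D : ℤ)).natAbs = D := by simp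
    rw [this, hmod]
    exact jacobiSym.one_right _
  rw [← jacobiSym.legendreSym.to_jacobiSym] at hj
  have hne : ((-(D : ℤ) : ℤ) : ZMod q) ≠ 0 := by
    push_cast
    rw [neg_ne_zero]
    intro h0
    rw [ZMod.natCast_eq_zero_iff] at h0
    have := Nat.le_of_dvd (by omega) h0
    omega
  obtain ⟨t, ht⟩ := (legendreSym.eq_one_iff q hne).1 hj
  refine ⟨t, ?_⟩
  rw [pow_two, ← ht]
  push_cast
  rfl

/-- small solutions of the congruences -/
theorem pigeon {D q : ℕ} (hD : 0 < D) (hq : 0 < q) (t : ZMod q) :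
    ∃ x y z : ℤ, (x ≠ 0 ∨ y ≠ 0 ∨ z ≠ 0) ∧ x ^ 2 ≤ D * q ∧ y ^ 2 ≤ q ∧ z ^ 2 ≤ D ∧
      ((x : ZMod q) = t * (y : ZMod q)) ∧ ((x : ZMod D) = (z : ZMod D)) := by
  classical
  haveI : NeZero D := ⟨hD.ne'⟩
  haveI : NeZero q := ⟨hq.ne'⟩
  set a := Nat.sqrt (D * q) with ha
  set b := Nat.sqrt q with hb
  set c := Nat.sqrt D with hc
  let S : Finset (ℕ × ℕ × ℕ) :=
    Finset.range (a + 1) ×ˢ (Finset.range (b + 1) ×ˢ Finset.range (c + 1))
  let g : ℕ × ℕ × ℕ → ZMod q × ZMod D := fun p =>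
    ((p.1 : ZMod q) - t * (p.2.1 : ZMod q), (p.1 : ZMod D) - (p.2.2 : ZMod D))
  have hcard : (Finset.univ : Finset (ZMod q × ZMod D)).card < S.card := by
    rw [Finset.card_univ, Fintype.card_prod, ZMod.card, ZMod.card]
    simp only [S, Finset.card_product, Finset.card_range]
    have h1 : D * q < (a + 1) * (a + 1) := Nat.lt_succ_sqrt _
    have h2 : q < (b + 1) * (b + 1) := Nat.lt_succ_sqrt _
    have h3 : D < (c + 1) * (c + 1) := Nat.lt_succ_sqrt _
    by_contra hle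
    push Not at hle
    have h4 : ((a + 1) * ((b + 1) * (c + 1))) * ((a + 1) * ((b + 1) * (c + 1))) ≤
        (q * D) * (q * D) := Nat.mul_le_mul hle hle
    have h5 : (D * q) * (q * D) < ((a + 1) * (a + 1)) * (((b + 1) * (b + 1)) * ((c + 1) * (c + 1))) := by
      apply Nat.mul_lt_mul_of_lt_of_le h1
      · exact Nat.mul_le_mul h2.le h3.le
      · positivity
    have h6 : ((a + 1) * (a + 1)) * (((b + 1) * (b + 1)) * ((c + 1) * (c + 1))) =
        ((a + 1) * ((b + 1) * (c + 1))) * ((a + 1) * ((b + 1) * (c + 1))) := by ring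
    have h7 : (D * q) * (q * D) = (q * D) * (q * D) := by ring
    omega
  obtain ⟨p, hp, p', hp', hne, heq⟩ :=
    Finset.exists_ne_map_eq_of_card_lt_of_maps_to (t := Finset.univ) (f := g) hcard
      (fun p _ => Finset.mem_univ _)
  simp only [S, Finset.mem_product, Finset.mem_range] at hp hp'
  obtain ⟨u1, u2, u3⟩ := p
  obtain ⟨v1, v2, v3⟩ := p'
  simp only at hp hp'
  simp only [g, Prod.mk.injEq] at heq
  obtain ⟨e1, e2⟩ := heq
  have hsq : ∀ m n k : ℕ, m < Nat.sqrt k + 1 → n < Nat.sqrt k + 1 → ((m : ℤ) - n) ^ 2 ≤ k := by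
    intro m n k hm hn
    have h1 : |(m : ℤ) - n| ≤ Nat.sqrt k := by
      rw [abs_le]; constructor <;> omega
    have h2 : ((m : ℤ) - n) ^ 2 ≤ (Nat.sqrt k : ℤ) ^ 2 := sq_le_sq' (abs_le.1 h1).1 (abs_le.1 h1).2
    have h3 : ((Nat.sqrt k : ℕ) : ℤ) ^ 2 ≤ k := by
      have := Nat.sqrt_le k
      rw [pow_two]
      exact_mod_cast this
    linarith
  refine ⟨(u1 : ℤ) - v1, (u2 : ℤ) - v2, (u3 : ℤ) - v3, ?_, ?_, ?_, ?_, ?_, ?_⟩
  · by_contra hall
    push Not at hall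
    obtain ⟨h1, h2, h3⟩ := hall
    apply hne
    have g1 : u1 = v1 := by omega
    have g2 : u2 = v2 := by omega
    have g3 : u3 = v3 := by omega
    rw [g1, g2, g3]
  · have := hsq u1 v1 (D * q) hp.1 hp'.1
    push_cast at this
    exact this
  · exact hsq u2 v2 q hp.2.1 hp'.2.1
  · exact hsq u3 v3 D hp.2.2 hp'.2.2
  · push_cast
    linear_combination e1
  · push_cast
    linear_combination e2

theorem legendre_squarefree {D : ℕ} (hD : 1 < D) (hsf : Squarefree D) :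
    ∃ q : ℕ, q.Prime ∧ ∃ X Y Z : ℤ, Z ≠ 0 ∧ X ^ 2 + D * Y ^ 2 = q * Z ^ 2 := by
  obtain ⟨q, hq, hqD, h1⟩ := Nat.exists_prime_gt_modEq_one D (by omega : 4 * D ≠ 0)
  obtain ⟨t, ht⟩ := sqrt_neg_mod hD hq hqD h1
  obtain ⟨x, y, z, hne, hx, hy, hz, e1, e2⟩ := pigeon (D := D) (by omega) hq.pos t
  refine ⟨q, hq, ?_⟩
  -- divisibility
  have d1 : (q : ℤ) ∣ x ^ 2 + D * y ^ 2 - q * z ^ 2 := by
    rw [← ZMod.intCast_zmod_eq_zero_iff_dvd _ q]
    push_cast
    rw [e1, ZMod.natCast_self]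
    linear_combination ((y : ZMod q) ^ 2) * ht
  have hq1 : (q : ZMod D) = 1 := by
    have : q ≡ 1 [MOD D] := h1.of_mul_left 4
    exact_mod_cast (ZMod.natCast_eq_natCast_iff q 1 D).2 this
  have d2 : (D : ℤ) ∣ x ^ 2 + D * y ^ 2 - q * z ^ 2 := by
    rw [← ZMod.intCast_zmod_eq_zero_iff_dvd _ D]
    push_cast
    rw [e2, ZMod.natCast_self, hq1]
    ring
  have hcop : IsCoprime (D : ℤ) (q : ℤ) := by
    rw [Nat.isCoprime_iff_coprime]
    rw [Nat.coprime_comm, Nat.Prime.coprime_iff_not_dvd hq]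
    intro hdvd
    have := Nat.le_of_dvd (by omega) hdvd
    omega
  obtain ⟨k, hk⟩ := hcop.mul_dvd d2 d1
  have hDpos : (0 : ℤ) < D := by exact_mod_cast (by omega : 0 < D)
  have hqpos : (0 : ℤ) < q := by exact_mod_cast hq.pos
  -- strictness
  have hnsq : ∀ m : ℤ, ∀ n : ℕ, Squarefree n → 1 < n → m ^ 2 ≠ n := by
    intro m n hn hn1 hm
    have h2 : m.natAbs * m.natAbs = n := by
      have : (m.natAbs : ℤ) ^ 2 = n := by rw [Int.natAbs_sq]; exact hm
      rw [pow_two] at this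
      exact_mod_cast this
    have h3 : m.natAbs * m.natAbs ∣ n := by rw [h2]
    have h4 := hn _ h3
    rw [Nat.isUnit_iff] at h4
    rw [h4] at h2
    omega
  have hy' : y ^ 2 < q := lt_of_le_of_ne hy (hnsq y q hq.squarefree hq.one_lt)
  have hz' : z ^ 2 < D := lt_of_le_of_ne hz (hnsq z D hsf hD)
  have hup : x ^ 2 + D * y ^ 2 - q * z ^ 2 < D * q * 2 := by
    have h2 : (D : ℤ) * y ^ 2 < D * q := mul_lt_mul_of_pos_left hy' hDpos
    have h3 : 0 ≤ (q : ℤ) * z ^ 2 := by positivity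
    linarith
  have hlo : -(D * q : ℤ) < x ^ 2 + D * y ^ 2 - q * z ^ 2 := by
    have h2 : (q : ℤ) * z ^ 2 < q * D := mul_lt_mul_of_pos_left hz' hqpos
    have h3 : 0 ≤ x ^ 2 + (D : ℤ) * y ^ 2 := by positivity
    linarith
  rw [hk] at hup hlo
  have hDq : (0 : ℤ) < D * q := mul_pos hDpos hqpos
  have hk2 : k < 2 := by
    by_contra hge
    push Not at hge
    have := mul_le_mul_of_nonneg_left hge hDq.le
    linarith
  have hk0 : -1 < k := by
    by_contra hge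
    push Not at hge
    have := mul_le_mul_of_nonneg_left hge hDq.le
    linarith
  have hk01 : k = 0 ∨ k = 1 := by omega
  rcases hk01 with h | h
  · rw [h, mul_zero] at hk
    refine ⟨x, y, z, ?_, by linarith⟩
    intro hz0
    rw [hz0] at hk
    have h2 : x ^ 2 + (D : ℤ) * y ^ 2 = 0 := by linarith
    have h3 : 0 ≤ (D : ℤ) * y ^ 2 := by positivity
    have h4 : x ^ 2 = 0 := le_antisymm (by linarith) (sq_nonneg x)
    have h5 : (D : ℤ) * y ^ 2 = 0 := by linarith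
    have h6 : x = 0 := by simpa using h4
    have h7 : y = 0 := by
      rcases mul_eq_zero.1 h5 with h8 | h8
      · omega
      · simpa using h8
    rcases hne with h8 | h8 | h8
    · exact h8 h6
    · exact h8 h7
    · exact h8 hz0
  · rw [h, mul_one] at hk
    refine ⟨x * z - D * y, y * z + x, z ^ 2 + D, by positivity, ?_⟩
    linear_combination (z ^ 2 + (D : ℤ)) * hk

/-- a case of Legendre's theorem -/
theorem legendre_case {Δ : ℕ} (hΔ : 0 < Δ) :
    ∃ q : ℕ, q.Prime ∧ ∃ X Y Z : ℤ, Z ≠ 0 ∧ X ^ 2 + Δ * Y ^ 2 = q * Z ^ 2 := by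
  obtain ⟨D, f, hDf, hsf⟩ := Nat.sq_mul_squarefree Δ
  have hf : f ≠ 0 := by
    intro h0
    rw [h0] at hDf
    simp at hDf
    omega
  have hD0 : D ≠ 0 := hsf.ne_zero
  have hΔ' : (Δ : ℤ) = (f : ℤ) ^ 2 * D := by exact_mod_cast hDf.symm
  have hf' : (f : ℤ) ≠ 0 := by exact_mod_cast hf
  rcases Nat.lt_or_ge 1 D with h1 | h1
  · obtain ⟨q, hq, X, Y, Z, hZ, h⟩ := legendre_squarefree h1 hsf
    refine ⟨q, hq, f * X, Y, f * Z, mul_ne_zero hf' hZ, ?_⟩
    rw [hΔ']
    linear_combination ((f : ℤ) ^ 2) * h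
  · have hD1 : D = 1 := by omega
    refine ⟨2, Nat.prime_two, f, 1, f, hf', ?_⟩
    rw [hΔ', hD1]
    push_cast
    ring

end Pool.Agent.H358R2
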