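import Pool.Agent.H358R2.Meas

/-!
The main lemma: short lists of rotations with small total angle have sign one.
-/

namespace Pool.Agent.H358R2

open MeasureTheory Set

theorem main_lemma {h : ℕ → ℤ} (H : CM h) {d : QF} {lo0 hi0 : ℝ}
    (hJ : ∀ θ, lo0 ≤ θ → θ ≤ hi0 → Jn d θ) (hlen0 : lo0 < hi0) (hlen4 : hi0 - lo0 ≤ 4)
    {A K Q R n T : ℕ} (hA0 : 0 < A) (hQ : 4 ≤ Q)
    (hRdef : R = 8 * K ^ 2 * Q) (hA : 16 * K ^ 2 * A ≤ Q ^ 2)
    (hT : ∀ N ≤ d.M * ((n + d.M) * R) ^ 2, (d.f N).divisors.card ≤ T)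
    (hS : 2 * d.M * K ^ 3 * (n + d.M) ^ 2 * T * (SF h d (d.M * ((n + d.M) * R) ^ 2)).card ≤ A)
    (L : List (ℕ × Bool)) (hL0 : L ≠ [])
    (hK : 516 * (d.M : ℝ) * (L.length + 1) < K * (hi0 - lo0)) {η : ℝ}
    (hL : ∀ ω ∈ L, 10 * d.M ≤ ω.1 ∧ ω.1 ≤ n ∧ |al d ω| ≤ η)
    (hη : L.length * η ≤ (hi0 - lo0) / 4)
    (htot : |tot d L| ≤ 1 / (2 * (K * Q ^ 2))) : sg h d L = 1 := by
  have hd' : (1 : ℝ) ≤ d.M := by exact_mod_cast d.M_pos
  have hL' : (0 : ℝ) ≤ L.length := Nat.cast_nonneg _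
  have hKd' : 129 * (d.M : ℝ) ≤ K := by
    have h1 : (K : ℝ) * (hi0 - lo0) ≤ K * 4 := mul_le_mul_of_nonneg_left hlen4 (Nat.cast_nonneg _)
    nlinarith
  have hKd : 129 * d.M ≤ K := by exact_mod_cast hKd'
  have hMp := d.M_pos
  have hK2 : 2 ≤ K := by omega
  have hR4 : 4 ≤ R := by
    rw [hRdef]
    have : 1 ≤ K ^ 2 := Nat.one_le_pow _ _ (by omega)
    nlinarith
  have hK' : (0 : ℝ) < K := by
    have : 0 < K := by omega
    exact_mod_cast this
  have hQ' : (0 : ℝ) < Q := by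
    have : 0 < Q := by omega
    exact_mod_cast this
  have hR' : (0 : ℝ) < R := by
    have : 0 < R := by omega
    exact_mod_cast this
  have hA' : (0 : ℝ) < A := by exact_mod_cast hA0
  set bad : ℕ := (badF h d A ((n + d.M) * R)).card with hbad
  set s : ℕ := (SF h d (d.M * ((n + d.M) * R) ^ 2)).card with hs
  set ρ : ℝ := 1 / (K * Q ^ 2) with hρ
  set r : ℝ := 16 * d.M * K ^ 2 / R ^ 2 with hr
  have hρ0 : 0 < ρ := by rw [hρ]; positivity
  have hrρ : r < ρ / 2 := by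
    have e1 : r = d.M / (4 * K ^ 2 * Q ^ 2) := by
      rw [hr, hRdef]
      push_cast
      field_simp
      ring
    have e2 : ρ / 2 = (2 * K) / (4 * K ^ 2 * Q ^ 2) := by
      rw [hρ]
      field_simp
      ring
    rw [e1, e2]
    apply div_lt_div_of_pos_right _ (by positivity)
    linarith
  have hbadle : (bad : ℝ) * (4 * r) ≤ 128 * d.M / K := by
    have h1 := card_badF h d A ((n + d.M) * R) T hT
    have h1' : (A : ℝ) * bad ≤ s * (T * (4 * d.M * (((n : ℝ) + d.M) * R) ^ 2)) := by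
      exact_mod_cast h1
    have h2 : 2 * (d.M : ℝ) * (K : ℝ) ^ 3 * ((n : ℝ) + d.M) ^ 2 * T * s ≤ A := by exact_mod_cast hS
    have h3 : (A : ℝ) * (bad * (4 * r)) ≤ A * (128 * d.M / K) := by
      calc (A : ℝ) * (bad * (4 * r)) = (A * bad) * (4 * r) := by ring
        _ ≤ (s * (T * (4 * d.M * (((n : ℝ) + d.M) * R) ^ 2))) * (4 * r) :=
            mul_le_mul_of_nonneg_right h1' (by positivity)
        _ = (2 * (d.M : ℝ) * (K : ℝ) ^ 3 * ((n : ℝ) + d.M) ^ 2 * T * s) * (128 * d.M / K) := by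
            rw [hr]; field_simp; ring
        _ ≤ A * (128 * d.M / K) := mul_le_mul_of_nonneg_right h2 (by positivity)
    exact le_of_mul_le_mul_left h3 hA'
  set c : ℝ := (2 + 128 * (d.M : ℝ)) / K + bad * (4 * r) with hc
  have hc0 : 0 ≤ c := by rw [hc]; positivity
  have hcle : c ≤ 258 * d.M / K := by
    rw [hc]
    calc (2 + 128 * (d.M : ℝ)) / K + bad * (4 * r) ≤ (2 + 128 * (d.M : ℝ)) / K + 128 * d.M / K := by linarith
      _ = (2 + 256 * (d.M : ℝ)) / K := by ring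
      _ ≤ 258 * d.M / K := by
        apply div_le_div_of_nonneg_right _ hK'.le
        linarith
  have hv1 := vol_not_AG (h := h) (n := n) hK2 hQ hR4 hA hJ (le_refl c) L hL
    (lo0 + (hi0 - lo0) / 4) (hi0 - (hi0 - lo0) / 4) (by linarith) (by linarith)
  set S1 : Set ℝ := {θ | lo0 + (hi0 - lo0) / 4 ≤ θ ∧ θ ≤ hi0 - (hi0 - lo0) / 4 ∧
    ¬ AG h d A ρ r L θ} with hS1
  set S2 : Set ℝ := B1 d K Q ∪ B2 d Q ρ with hS2
  have hv2 : volume S2 ≤ ENNReal.ofReal (258 * d.M / K) := by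
    refine (measure_union_le _ _).trans ((add_le_add (vol_B1 (by omega) (by omega))
      (vol_B2 (by omega) (by omega))).trans ?_)
    rw [← ENNReal.ofReal_add (by positivity) (by positivity)]
    apply ENNReal.ofReal_le_ofReal
    rw [← add_div]
    apply div_le_div_of_nonneg_right _ hK'.le
    linarith
  have hex : ∃ θ ∈ Icc (lo0 + (hi0 - lo0) / 4) (hi0 - (hi0 - lo0) / 4), θ ∉ S1 ∪ S2 := by
    by_contra hno
    push Not at hno
    have hsub : Icc (lo0 + (hi0 - lo0) / 4) (hi0 - (hi0 - lo0) / 4) ⊆ S1 ∪ S2 := hno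
    have h1 : volume (Icc (lo0 + (hi0 - lo0) / 4) (hi0 - (hi0 - lo0) / 4)) ≤
        L.length * ENNReal.ofReal c + ENNReal.ofReal (258 * d.M / K) :=
      (measure_mono hsub).trans ((measure_union_le _ _).trans (add_le_add hv1 hv2))
    rw [Real.volume_Icc, ← ENNReal.ofReal_natCast, ← ENNReal.ofReal_mul (Nat.cast_nonneg _),
      ← ENNReal.ofReal_add (by positivity) (by positivity)] at h1
    rw [ENNReal.ofReal_le_ofReal_iff (by positivity)] at h1
    have h3 : (L.length : ℝ) * c ≤ L.length * (258 * d.M / K) :=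
      mul_le_mul_of_nonneg_left hcle (Nat.cast_nonneg _)
    have h4 : ((L.length : ℝ) + 1) * (258 * d.M / K) < (hi0 - lo0) / 2 := by
      rw [mul_div_assoc', div_lt_iff₀ hK']
      nlinarith
    linarith
  obtain ⟨θ, ⟨t1, t2⟩, hθ⟩ := hex
  rw [mem_union] at hθ
  push Not at hθ
  obtain ⟨g1, g2⟩ := hθ
  have hAG : AG h d A ρ r L θ := by
    by_contra hno
    exact g1 ⟨t1, t2, hno⟩
  rw [hS2, mem_union] at g2
  push Not at g2
  obtain ⟨a, b, hab⟩ := exists_At (hJ θ (by linarith) (by linarith)) hK2 hQ hA g2.1 g2.2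
  obtain ⟨ω, L', rfl⟩ := List.exists_cons_of_ne_nil hL0
  have hna : nm d a ≠ 0 := nm_pos_of_sz (edge_sz_pos hab.1).1
  have htot' : |tot d (ω :: L')| ≤ ρ / 2 := by
    refine htot.trans (le_of_eq ?_)
    rw [hρ]; field_simp
  rw [abs_le] at htot'
  have hab2 : At d A (ρ / 2) (θ + tot d (ω :: L')) a b := by
    obtain ⟨k1, k2, k3, k4, k5, k6⟩ := hab
    exact ⟨k1, k2, k3, k4, by linarith, by linarith⟩
  have hw := walk H hrρ (by linarith : ρ / 2 ≤ ρ) L' ω θ a b a b (fun x hx => (hL x hx).1) hAG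
    (hab.mono (by linarith)) hab2
  rcases H.pm _ hna with e | e
  · rw [e] at hw; linarith
  · rw [e] at hw; linarith

end Pool.Agent.H358R2
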