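import Pool.Agent.H358R2.Walk

/-!
Measure of the exceptional directions.
-/

namespace Pool.Agent.H358R2

open MeasureTheory Set

theorem arctan_lip (x y : ℝ) : |Real.arctan x - Real.arctan y| ≤ |x - y| := by
  have hL : LipschitzWith 1 Real.arctan := by
    apply lipschitzWith_of_nnnorm_deriv_le Real.differentiable_arctan
    intro x
    rw [← NNReal.coe_le_coe, coe_nnnorm]
    simp only [Real.deriv_arctan, NNReal.coe_one, Real.norm_eq_abs]
    rw [abs_of_nonneg (by positivity)]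
    rw [div_le_one (by positivity)]
    nlinarith [sq_nonneg x]
  have := hL.dist_le_mul x y
  simpa [Real.dist_eq] using this

theorem ag_lip {d : QF} {t : ℝ} (ht : 0 ≤ t) (c : ℕ × ℕ) :
    |Real.arctan (tn d t) - ag d c| ≤ d.M * |t - sl c| :=
  (arctan_lip _ _).trans (tn_lip (sl_nonneg c) ht)

/-- admissible angles -/
def Jn (d : QF) (θ : ℝ) : Prop :=
  ∃ t : ℝ, 1 / 3 < t ∧ t < 3 ∧ Real.arctan (tn d t) = θ

theorem Jn_interval (d : QF) : ∃ lo hi : ℝ, lo < hi ∧ hi - lo ≤ 4 ∧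
    ∀ θ, lo ≤ θ → θ ≤ hi → Jn d θ := by
  refine ⟨Real.arctan (tn d 1), Real.arctan (tn d 2), ?_, ?_, ?_⟩
  · apply Real.arctan_strictMono
    exact tn_lt (by norm_num) (by norm_num)
  · have h1 := Real.arctan_lt_pi_div_two (tn d 2)
    have h2 := Real.neg_pi_div_two_lt_arctan (tn d 1)
    have h3 := Real.pi_le_four
    linarith
  · intro θ h1 h2
    have hc : ContinuousOn (fun t => Real.arctan (tn d t)) (Icc 1 2) := by
      apply Real.continuous_arctan.comp_continuousOn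
      unfold tn
      apply ContinuousOn.div (by fun_prop) (by fun_prop)
      intro t ht
      have hb : (0 : ℝ) ≤ d.b := Nat.cast_nonneg _
      have ht0 : 0 ≤ t := by linarith [ht.1]
      positivity
    obtain ⟨t, ht, hte⟩ := intermediate_value_Icc (by norm_num : (1 : ℝ) ≤ 2) hc ⟨h1, h2⟩
    exact ⟨t, by linarith [ht.1], by linarith [ht.2], hte⟩

/-- vectors of size `s` with positive first coordinate -/
def vs (s : ℕ) : Finset (ℕ × ℕ) := (Finset.range s).image fun i => (i + 1, s - 1 - i)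

theorem card_vs (s : ℕ) : (vs s).card ≤ s := by
  unfold vs
  exact Finset.card_image_le.trans (by rw [Finset.card_range])

theorem mem_vs {c : ℕ × ℕ} (h : 0 < c.1) : c ∈ vs (sz c) := by
  unfold vs sz
  rw [Finset.mem_image]
  refine ⟨c.1 - 1, ?_, ?_⟩
  · rw [Finset.mem_range]; omega
  · ext
    · simp only; omega
    · simp only; omega

/-- union of balls -/
def BB (d : QF) (M : ℕ) (δ : ℕ → ℝ) : Set ℝ :=
  ⋃ s ∈ Finset.range M, ⋃ c ∈ vs s, Metric.closedBall (ag d c) (δ s)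

theorem vol_BB (d : QF) (M : ℕ) (δ : ℕ → ℝ) (hδ : ∀ s, 0 ≤ δ s) :
    volume (BB d M δ) ≤ ENNReal.ofReal (∑ s ∈ Finset.range M, (s : ℝ) * (2 * δ s)) := by
  unfold BB
  refine (measure_biUnion_finset_le _ _).trans ?_
  rw [ENNReal.ofReal_sum_of_nonneg (fun s _ => mul_nonneg (Nat.cast_nonneg s) (by have := hδ s; positivity))]
  apply Finset.sum_le_sum
  intro s _
  refine (measure_biUnion_finset_le _ _).trans ?_
  simp only [Real.volume_closedBall]
  rw [Finset.sum_const, nsmul_eq_mul, ENNReal.ofReal_mul (Nat.cast_nonneg s), ENNReal.ofReal_natCast]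
  gcongr
  exact card_vs s

/-- the exceptional set of `nbr` -/
def B1 (d : QF) (K Q : ℕ) : Set ℝ := BB d (Q / K + 1) fun s => d.M * (32 / ((s : ℝ) * Q))

theorem vol_B1 {d : QF} {K Q : ℕ} (hK : 0 < K) (hQ : 0 < Q) :
    volume (B1 d K Q) ≤ ENNReal.ofReal (64 * d.M / K) := by
  unfold B1
  refine (vol_BB _ _ _ (fun s => by positivity)).trans ?_
  apply ENNReal.ofReal_le_ofReal
  have hK' : (0 : ℝ) < K := by exact_mod_cast hK
  have hQ' : (0 : ℝ) < Q := by exact_mod_cast hQ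
  rw [Finset.sum_range_succ']
  simp only [Nat.cast_zero, zero_mul, add_zero]
  have : ∀ k ∈ Finset.range (Q / K), (((k + 1 : ℕ) : ℝ)) *
      (2 * ((d.M : ℝ) * (32 / (((k + 1 : ℕ) : ℝ) * Q)))) ≤ 64 * d.M / Q := by
    intro k _
    have : (0 : ℝ) < ((k + 1 : ℕ) : ℝ) := by positivity
    apply le_of_eq
    field_simp
    ring
  refine (Finset.sum_le_sum this).trans ?_
  rw [Finset.sum_const, Finset.card_range, nsmul_eq_mul]
  have h1 : ((Q / K : ℕ) : ℝ) ≤ Q / K := Nat.cast_div_le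
  calc ((Q / K : ℕ) : ℝ) * (64 * d.M / Q) ≤ (Q / K) * (64 * d.M / Q) :=
        mul_le_mul_of_nonneg_right h1 (by positivity)
    _ = 64 * d.M / K := by field_simp

/-- the exceptional set for the margin -/
def B2 (d : QF) (Q : ℕ) (ρ : ℝ) : Set ℝ := BB d (Q + 1) fun _ => ρ

theorem vol_B2 {d : QF} {K Q : ℕ} (hK : 0 < K) (hQ : 0 < Q) :
    volume (B2 d Q (1 / (K * Q ^ 2))) ≤ ENNReal.ofReal (2 / K) := by
  unfold B2
  refine (vol_BB _ _ _ (fun s => by positivity)).trans ?_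
  apply ENNReal.ofReal_le_ofReal
  have hK' : (0 : ℝ) < K := by exact_mod_cast hK
  have hQ' : (0 : ℝ) < Q := by exact_mod_cast hQ
  rw [← Finset.sum_mul]
  have h1 : (∑ s ∈ Finset.range (Q + 1), (s : ℝ)) ≤ Q ^ 2 := by
    rw [Finset.sum_range_succ']
    simp only [Nat.cast_zero, add_zero]
    have : ∀ k ∈ Finset.range Q, (((k + 1 : ℕ) : ℝ)) ≤ Q := by
      intro k hk
      rw [Finset.mem_range] at hk
      exact_mod_cast hk
    refine (Finset.sum_le_sum this).trans ?_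
    rw [Finset.sum_const, Finset.card_range, nsmul_eq_mul]
    apply le_of_eq; ring
  calc (∑ s ∈ Finset.range (Q + 1), (s : ℝ)) * (2 * (1 / (K * Q ^ 2)))
      ≤ Q ^ 2 * (2 * (1 / (K * Q ^ 2))) := mul_le_mul_of_nonneg_right h1 (by positivity)
    _ = 2 / K := by field_simp

theorem not_mem_BB {d : QF} {M : ℕ} {δ : ℕ → ℝ} {θ : ℝ} (h : θ ∉ BB d M δ) {c : ℕ × ℕ} (hc : 0 < c.1)
    (hs : sz c < M) : δ (sz c) < |θ - ag d c| := by
  by_contra hlt
  push Not at hlt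
  apply h
  unfold BB
  rw [mem_iUnion₂]
  refine ⟨sz c, by rw [Finset.mem_range]; exact hs, ?_⟩
  rw [mem_iUnion₂]
  exact ⟨c, mem_vs hc, by rw [Metric.mem_closedBall, Real.dist_eq]; exact hlt⟩

/-- `nbr` in terms of angles -/
theorem nbr_angle {d : QF} {θ : ℝ} (hθ : Jn d θ) {K Q : ℕ} (hK : 2 ≤ K) (hQ : 4 ≤ Q)
    (hB : θ ∉ B1 d K Q) :
    ∃ a b : ℕ × ℕ, Edge a b ∧ 0 < a.1 ∧ 0 < b.1 ∧ ag d a ≤ θ ∧ θ < ag d b ∧ sz a ≤ Q ∧ sz b ≤ Q ∧
      Q ≤ K * sz a ∧ Q ≤ K * sz b ∧ a.1 ≤ 3 * a.2 ∧ a.2 ≤ 3 * a.1 ∧ b.1 ≤ 3 * b.2 ∧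
      b.2 ≤ 3 * b.1 ∧ ag d b - ag d a ≤ 16 * d.M * K ^ 2 / Q ^ 2 := by
  obtain ⟨t, t1, t2, t3⟩ := hθ
  have hd' : (0 : ℝ) < d.M := by exact_mod_cast d.M_pos
  have ht0 : 0 ≤ t := by linarith
  have := nbr t1 t2 hK hQ (by
    intro c hc hlt
    have hs : sz c < Q / K + 1 := by
      apply Nat.lt_succ_of_le
      rw [Nat.le_div_iff_mul_le (by omega)]
      rw [mul_comm]; exact hlt.le
    have h := not_mem_BB hB hc hs
    have h2 := ag_lip (d := d) ht0 c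
    rw [t3] at h2
    exact lt_of_mul_lt_mul_left (lt_of_lt_of_le h h2) hd'.le)
  obtain ⟨a, b, hE, ha, hb, hta, htb, s1, s2, s3, s4, s5, s6, s7, s8, s9⟩ := this
  refine ⟨a, b, hE, ha, hb, ?_, ?_, s1, s2, s3, s4, s5, s6, s7, s8, ?_⟩
  · rw [← t3]
    rcases hta.lt_or_eq with h | h
    · exact (Real.arctan_strictMono (tn_lt (sl_nonneg a) h)).le
    · unfold ag; rw [h]
  · rw [← t3]
    exact Real.arctan_strictMono (tn_lt ht0 htb)
  · have h := ag_lip (d := d) (sl_nonneg b) a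
    have hpos : 0 ≤ sl b - sl a := by linarith
    rw [abs_of_nonneg hpos] at h
    calc ag d b - ag d a ≤ |Real.arctan (tn d (sl b)) - ag d a| := le_abs_self _
      _ ≤ d.M * (sl b - sl a) := h
      _ ≤ d.M * (16 * K ^ 2 / Q ^ 2) := mul_le_mul_of_nonneg_left s9 hd'.le
      _ = 16 * d.M * K ^ 2 / Q ^ 2 := by ring

theorem exists_At {d : QF} {θ : ℝ} (hθ : Jn d θ) {K Q A : ℕ} (hK : 2 ≤ K) (hQ : 4 ≤ Q)
    (hA : 16 * K ^ 2 * A ≤ Q ^ 2) {ρ : ℝ} (hB : θ ∉ B1 d K Q) (hB2 : θ ∉ B2 d Q ρ) :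
    ∃ a b, At d A ρ θ a b := by
  obtain ⟨a, b, hE, ha, hb, hta, htb, s1, s2, s3, s4, s5, s6, s7, s8, s9⟩ :=
    nbr_angle hθ hK hQ hB
  refine ⟨a, b, hE, ha, hb, ?_, ?_, ?_⟩
  · have e1 : sz a ≤ 4 * a.1 := by unfold sz; omega
    have e2 : sz b ≤ 4 * b.1 := by unfold sz; omega
    have e3 : Q ^ 2 ≤ 16 * K ^ 2 * (a.1 * b.1) := by
      calc Q ^ 2 = Q * Q := by ring
        _ ≤ (K * sz a) * (K * sz b) := Nat.mul_le_mul s3 s4
        _ ≤ (K * (4 * a.1)) * (K * (4 * b.1)) :=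
          Nat.mul_le_mul (Nat.mul_le_mul_left _ e1) (Nat.mul_le_mul_left _ e2)
        _ = 16 * K ^ 2 * (a.1 * b.1) := by ring
    have e4 : 16 * K ^ 2 * A ≤ 16 * K ^ 2 * (a.1 * b.1) := hA.trans e3
    have e5 : A ≤ a.1 * b.1 := Nat.le_of_mul_le_mul_left e4 (by positivity)
    unfold ip; omega
  · have h := not_mem_BB hB2 ha (Nat.lt_succ_of_le s1)
    rw [abs_of_nonneg (by linarith)] at h
    linarith
  · have h := not_mem_BB hB2 hb (Nat.lt_succ_of_le s2)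
    rw [abs_of_neg (by linarith)] at h
    linarith

theorem act_inj {d : QF} {ω : ℕ × Bool} (hω : 10 * d.M ≤ ω.1) {u v : ℕ × ℕ} (hu : Mid u)
    (hv : Mid v) (h : act d ω u = act d ω v) : u = v := by
  obtain ⟨hu1, hu2⟩ := mid_ineq hω hu
  obtain ⟨hv1, hv2⟩ := mid_ineq hω hv
  replace hu1 := hu1.le
  replace hv1 := hv1.le
  have hf := d.f_pos ω.1
  unfold QF.f at hf
  unfold act at h
  have hne : ((ω.1 : ℤ) ^ 2 + d.b * ω.1 + d.c) ≠ 0 := by exact_mod_cast hf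
  split_ifs at h
  · rw [Prod.mk.injEq] at h
    obtain ⟨h1, h2⟩ := h
    zify [hu1, hv1] at h1 h2
    have e1 : ((ω.1 : ℤ) ^ 2 + d.b * ω.1 + d.c) * u.1 = ((ω.1 : ℤ) ^ 2 + d.b * ω.1 + d.c) * v.1 := by
      linear_combination ((ω.1 : ℤ) + d.b) * h1 + (d.c : ℤ) * h2
    have e2 : ((ω.1 : ℤ) ^ 2 + d.b * ω.1 + d.c) * u.2 = ((ω.1 : ℤ) ^ 2 + d.b * ω.1 + d.c) * v.2 := by
      linear_combination (ω.1 : ℤ) * h2 - h1
    have e1' := mul_left_cancel₀ hne e1
    have e2' := mul_left_cancel₀ hne e2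
    ext
    · exact_mod_cast e1'
    · exact_mod_cast e2'
  · rw [Prod.mk.injEq] at h
    obtain ⟨h1, h2⟩ := h
    zify [hu2, hv2] at h1 h2
    have e1 : ((ω.1 : ℤ) ^ 2 + d.b * ω.1 + d.c) * u.1 = ((ω.1 : ℤ) ^ 2 + d.b * ω.1 + d.c) * v.1 := by
      linear_combination (ω.1 : ℤ) * h1 - (d.c : ℤ) * h2
    have e2 : ((ω.1 : ℤ) ^ 2 + d.b * ω.1 + d.c) * u.2 = ((ω.1 : ℤ) ^ 2 + d.b * ω.1 + d.c) * v.2 := by
      linear_combination ((ω.1 : ℤ) + d.b) * h2 + h1
    have e1' := mul_left_cancel₀ hne e1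
    have e2' := mul_left_cancel₀ hne e2
    ext
    · exact_mod_cast e1'
    · exact_mod_cast e2'

/-- vectors that are bad, or whose image is bad -/
noncomputable def BF (h : ℕ → ℤ) (d : QF) (A R : ℕ) (ω : ℕ × Bool) : Finset (ℕ × ℕ) :=
  letI := Classical.decPred fun u : ℕ × ℕ =>
    Mid u ∧ sz u ≤ R ∧ (Bad h d A u ∨ Bad h d A (act d ω u))
  (Finset.range (R + 1) ×ˢ Finset.range (R + 1)).filter fun u =>
    Mid u ∧ sz u ≤ R ∧ (Bad h d A u ∨ Bad h d A (act d ω u))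

theorem mem_BF {h : ℕ → ℤ} {d : QF} {A R : ℕ} {ω : ℕ × Bool} {u : ℕ × ℕ} :
    u ∈ BF h d A R ω ↔ Mid u ∧ sz u ≤ R ∧ (Bad h d A u ∨ Bad h d A (act d ω u)) := by
  classical
  unfold BF
  simp only [Finset.mem_filter, Finset.mem_product, Finset.mem_range]
  constructor
  · rintro ⟨_, h⟩; exact h
  · intro h
    refine ⟨?_, h⟩
    obtain ⟨_, h1, _⟩ := h
    unfold sz at h1
    omega

theorem card_BF (h : ℕ → ℤ) {d : QF} (A R : ℕ) {ω : ℕ × Bool} (hω : 10 * d.M ≤ ω.1)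
    {n : ℕ} (hn : ω.1 ≤ n) : (BF h d A R ω).card ≤ 2 * (badF h d A ((n + d.M) * R)).card := by
  have hM := d.M_pos
  classical
  have hsub : BF h d A R ω ⊆ badF h d A ((n + d.M) * R) ∪
      (BF h d A R ω).filter (fun u => Bad h d A (act d ω u)) := by
    intro u hu
    have hu' := mem_BF.1 hu
    rw [Finset.mem_union]
    rcases hu'.2.2 with hb | hb
    · left
      rw [mem_badF]
      refine ⟨hu'.2.1.trans ?_, hb⟩
      exact Nat.le_mul_of_pos_left _ (by omega)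
    · right
      rw [Finset.mem_filter]
      exact ⟨hu, hb⟩
  have hcard2 : ((BF h d A R ω).filter (fun u => Bad h d A (act d ω u))).card ≤
      (badF h d A ((n + d.M) * R)).card := by
    apply Finset.card_le_card_of_injOn (act d ω)
    · intro u hu
      rw [Finset.mem_coe, Finset.mem_filter] at hu
      have hu' := mem_BF.1 hu.1
      rw [Finset.mem_coe, mem_badF]
      refine ⟨(sz_act ω u).trans ?_, hu.2⟩
      exact Nat.mul_le_mul (by omega) hu'.2.1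
    · intro u hu v hv huv
      rw [Finset.mem_coe, Finset.mem_filter] at hu hv
      exact act_inj hω (mem_BF.1 hu.1).1 (mem_BF.1 hv.1).1 huv
  calc (BF h d A R ω).card ≤ _ := Finset.card_le_card hsub
    _ ≤ _ := Finset.card_union_le _ _
    _ ≤ 2 * (badF h d A ((n + d.M) * R)).card := by omega

/-- the exceptional set for the bad vectors -/
def B3 (h : ℕ → ℤ) (d : QF) (A R : ℕ) (ω : ℕ × Bool) (r : ℝ) : Set ℝ :=
  ⋃ u ∈ BF h d A R ω, Metric.closedBall (ag d u) r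

theorem vol_B3 (h : ℕ → ℤ) {d : QF} (A R : ℕ) {ω : ℕ × Bool} (hω : 10 * d.M ≤ ω.1)
    {n : ℕ} (hn : ω.1 ≤ n) {r : ℝ} (hr : 0 ≤ r) :
    volume (B3 h d A R ω r) ≤ ENNReal.ofReal ((badF h d A ((n + d.M) * R)).card * (4 * r)) := by
  unfold B3
  refine (measure_biUnion_finset_le _ _).trans ?_
  simp only [Real.volume_closedBall]
  rw [Finset.sum_const, nsmul_eq_mul, ← ENNReal.ofReal_natCast, ← ENNReal.ofReal_mul (Nat.cast_nonneg _)]
  apply ENNReal.ofReal_le_ofReal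
  have h1 : ((BF h d A R ω).card : ℝ) ≤ 2 * (badF h d A ((n + d.M) * R)).card := by
    exact_mod_cast card_BF h A R hω hn
  nlinarith

theorem exists_GU {h : ℕ → ℤ} {d : QF} {A R K : ℕ} {ω : ℕ × Bool} {θ : ℝ}
    (hθ : Jn d θ) (hK : 2 ≤ K) (hR : 4 ≤ R) (hB : θ ∉ B1 d K R)
    (hB3 : θ ∉ B3 h d A R ω (16 * d.M * K ^ 2 / R ^ 2)) :
    GU h d A (16 * d.M * K ^ 2 / R ^ 2) θ ω := by
  obtain ⟨a, b, hE, ha, hb, hta, htb, s1, s2, s3, s4, s5, s6, s7, s8, s9⟩ :=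
    nbr_angle hθ hK hR hB
  have hM : Mid a := ⟨ha, by omega, by omega⟩
  have hde : |ag d a - θ| ≤ 16 * d.M * K ^ 2 / R ^ 2 := by
    rw [abs_of_nonpos (by linarith)]
    linarith
  have hnot : ¬ (Bad h d A a ∨ Bad h d A (act d ω a)) := by
    intro hor
    apply hB3
    unfold B3
    rw [mem_iUnion₂]
    refine ⟨a, mem_BF.2 ⟨hM, s1, hor⟩, ?_⟩
    rw [Metric.mem_closedBall, Real.dist_eq, abs_sub_comm]
    exact hde
  push Not at hnot
  exact ⟨a, hM, hde, hnot.1, hnot.2⟩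

theorem al_abs_le {d : QF} {ω : ℕ × Bool} (hω : 0 < ω.1) : |al d ω| ≤ d.M / ω.1 := by
  have hk := d.κ_pos
  have hkM := d.κ_le
  have hω' : (0 : ℝ) < ω.1 := by exact_mod_cast hω
  have hb : (0 : ℝ) ≤ d.b := Nat.cast_nonneg _
  have h0 : (0 : ℝ) ≤ d.κ / ((ω.1 : ℝ) + (d.b : ℝ) / 2) := by positivity
  have h := arctan_lip (d.κ / ((ω.1 : ℝ) + (d.b : ℝ) / 2)) 0
  rw [Real.arctan_zero, sub_zero, sub_zero, abs_of_nonneg h0] at h
  have h2 : d.κ / ((ω.1 : ℝ) + (d.b : ℝ) / 2) ≤ d.M / ω.1 := by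
    apply div_le_div₀ (Nat.cast_nonneg _) hkM hω'
    linarith
  unfold al
  split_ifs
  · exact h.trans h2
  · rw [abs_neg]; exact h.trans h2

/-- main measure estimate -/
theorem vol_not_AG {h : ℕ → ℤ} {d : QF} {A K Q R n : ℕ} (hK : 2 ≤ K) (hQ : 4 ≤ Q)
    (hR : 4 ≤ R) (hA : 16 * K ^ 2 * A ≤ Q ^ 2) {lo0 hi0 : ℝ}
    (hJ : ∀ θ, lo0 ≤ θ → θ ≤ hi0 → Jn d θ) {η c : ℝ}
    (hc : (2 + 128 * (d.M : ℝ)) / K +
      (badF h d A ((n + d.M) * R)).card * (4 * (16 * d.M * K ^ 2 / R ^ 2)) ≤ c) :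
    ∀ (L : List (ℕ × Bool)), (∀ ω ∈ L, 10 * d.M ≤ ω.1 ∧ ω.1 ≤ n ∧ |al d ω| ≤ η) →
      ∀ lo hi : ℝ, lo0 + L.length * η ≤ lo → hi ≤ hi0 - L.length * η →
      volume {θ | lo ≤ θ ∧ θ ≤ hi ∧
        ¬ AG h d A (1 / (K * Q ^ 2)) (16 * d.M * K ^ 2 / R ^ 2) L θ} ≤
          L.length * ENNReal.ofReal c := by
  intro L
  induction L with
  | nil =>
    intro hL lo hi hlo hhi
    simp [AG]
  | cons ω L ih =>
    intro hL lo hi hlo hhi
    obtain ⟨hω1, hω2, hω3⟩ := hL ω (by simp)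
    have hη0 : 0 ≤ η := (abs_nonneg _).trans hω3
    have hL0 : (0 : ℝ) ≤ L.length := Nat.cast_nonneg _
    have hlen : (((ω :: L).length : ℕ) : ℝ) = L.length + 1 := by
      simp
    rw [hlen] at hlo hhi
    have hLη : 0 ≤ (L.length : ℝ) * η := mul_nonneg hL0 hη0
    rw [abs_le] at hω3
    set ρ : ℝ := 1 / (K * Q ^ 2) with hρ
    set r : ℝ := 16 * d.M * K ^ 2 / R ^ 2 with hr
    have hr0 : 0 ≤ r := by rw [hr]; positivity
    set S1 : Set ℝ := B1 d K R ∪ B3 h d A R ω r with hS1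
    set S2 : Set ℝ := B1 d K Q ∪ B2 d Q ρ with hS2
    set S3 : Set ℝ := {θ | lo + al d ω ≤ θ ∧ θ ≤ hi + al d ω ∧ ¬ AG h d A ρ r L θ} with hS3
    have hsub : {θ | lo ≤ θ ∧ θ ≤ hi ∧ ¬ AG h d A ρ r (ω :: L) θ} ⊆
        S1 ∪ ((fun θ => θ + al d ω) ⁻¹' S2 ∪ (fun θ => θ + al d ω) ⁻¹' S3) := by
      rintro θ ⟨g1, g2, g3⟩
      by_contra hnot
      have n1 : θ ∉ S1 := fun hx => hnot (Or.inl hx)
      have n2 : θ + al d ω ∉ S2 := fun hx => hnot (Or.inr (Or.inl hx))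
      have n3 : θ + al d ω ∉ S3 := fun hx => hnot (Or.inr (Or.inr hx))
      apply g3
      rw [hS1, mem_union] at n1
      rw [hS2, mem_union] at n2
      push Not at n1 n2
      refine ⟨?_, ?_, ?_⟩
      · exact exists_GU (hJ _ (by linarith) (by linarith)) hK hR n1.1 n1.2
      · exact exists_At (hJ _ (by linarith) (by linarith)) hK hQ hA n2.1 n2.2
      · by_contra hno
        apply n3
        rw [hS3, mem_ofPred_eq]
        exact ⟨by linarith, by linarith, hno⟩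
    have hK0 : 0 < K := by omega
    have v1 : volume S1 ≤ ENNReal.ofReal (64 * d.M / K) +
        ENNReal.ofReal ((badF h d A ((n + d.M) * R)).card * (4 * r)) :=
      (measure_union_le _ _).trans (add_le_add (vol_B1 hK0 (by omega))
        (vol_B3 h A R hω1 hω2 hr0))
    have v2 : volume ((fun θ => θ + al d ω) ⁻¹' S2) ≤
        ENNReal.ofReal (64 * d.M / K) + ENNReal.ofReal (2 / K) := by
      rw [measure_preimage_add_right]
      exact (measure_union_le _ _).trans (add_le_add (vol_B1 hK0 (by omega)) (vol_B2 hK0 (by omega)))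
    have v3 : volume ((fun θ => θ + al d ω) ⁻¹' S3) ≤ L.length * ENNReal.ofReal c := by
      rw [measure_preimage_add_right]
      exact ih (fun x hx => hL x (List.mem_cons_of_mem _ hx)) (lo + al d ω) (hi + al d ω)
        (by linarith) (by linarith)
    have v12 : volume S1 + volume ((fun θ => θ + al d ω) ⁻¹' S2) ≤ ENNReal.ofReal c := by
      refine (add_le_add v1 v2).trans ?_
      rw [← ENNReal.ofReal_add (by positivity) (by positivity),
        ← ENNReal.ofReal_add (by positivity) (by positivity),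
        ← ENNReal.ofReal_add (by positivity) (by positivity)]
      apply ENNReal.ofReal_le_ofReal
      refine le_trans (le_of_eq ?_) hc
      ring
    calc volume {θ | lo ≤ θ ∧ θ ≤ hi ∧ ¬ AG h d A ρ r (ω :: L) θ}
        ≤ volume (S1 ∪ ((fun θ => θ + al d ω) ⁻¹' S2 ∪ (fun θ => θ + al d ω) ⁻¹' S3)) :=
          measure_mono hsub
      _ ≤ volume S1 + (volume ((fun θ => θ + al d ω) ⁻¹' S2) +
            volume ((fun θ => θ + al d ω) ⁻¹' S3)) :=
          (measure_union_le _ _).trans (add_le_add_right (measure_union_le _ _) _)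
      _ = (volume S1 + volume ((fun θ => θ + al d ω) ⁻¹' S2)) +
            volume ((fun θ => θ + al d ω) ⁻¹' S3) := by rw [add_assoc]
      _ ≤ ENNReal.ofReal c + L.length * ENNReal.ofReal c := add_le_add v12 v3
      _ = ((ω :: L).length : ENNReal) * ENNReal.ofReal c := by
          simp only [List.length_cons, Nat.cast_add, Nat.cast_one]
          ring

end Pool.Agent.H358R2
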