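import Pool.Agent.H358R2.SquarePart
import Pool.Agent.H358R2.Exist

/-!
`n ^ 2 + 1 = k ^ 2 m` with small `k` and `m` squarefree with an odd number of prime factors in a
prescribed set.
-/

namespace Pool.Agent.H358R2

open Filter Finset

open Classical in
/-- parity of the number of prime factors in `S` -/
noncomputable def hS (S : Set ℕ) (n : ℕ) : ℤ :=
  (n.primeFactorsList.map fun p => if p ∈ S then (-1 : ℤ) else 1).prod

theorem CM_hS (S : Set ℕ) : CM (hS S) where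
  mul m n hm hn := by
    classical
    unfold hS
    rw [((Nat.perm_primeFactorsList_mul hm hn).map _).prod_eq, List.map_append, List.prod_append]
  pm m hm := by
    classical
    unfold hS
    induction m.primeFactorsList with
    | nil => left; simp
    | cons p L ih =>
      rw [List.map_cons, List.prod_cons]
      rcases ih with e | e <;> rw [e] <;> split_ifs <;> norm_num

theorem hS_prime {S : Set ℕ} {p : ℕ} (hp : p.Prime) (hpS : p ∈ S) : hS S p = -1 := by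
  classical
  unfold hS
  rw [Nat.primeFactorsList_prime hp]
  simp [hpS]

open Classical in
theorem hS_squarefree {S : Set ℕ} {m : ℕ} (hm : Squarefree m) (h : hS S m = -1) :
    Odd ((m.primeFactors.filter fun p => p ∈ S).card) := by
  have hnd : m.primeFactorsList.Nodup := (Nat.squarefree_iff_nodup_primeFactorsList hm.ne_zero).1 hm
  have h1 : hS S m = ∏ p ∈ m.primeFactors, if p ∈ S then (-1 : ℤ) else 1 := by
    unfold hS
    rw [Finset.prod_eq_multiset_prod]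
    have : m.primeFactors.val = (m.primeFactorsList : Multiset ℕ) := by
      unfold Nat.primeFactors
      rw [List.toFinset_val, hnd.dedup]
    rw [this]
    simp
  rw [h1, Finset.prod_ite, Finset.prod_const_one, mul_one, Finset.prod_const] at h
  rcases Nat.even_or_odd ((m.primeFactors.filter fun p => p ∈ S).card) with he | ho
  · rw [he.neg_one_pow] at h; norm_num at h
  · exact ho

/-- the polynomial `n ^ 2 + 1` -/
def d1 : QF := ⟨0, 1, by norm_num⟩

theorem d1_f (n : ℕ) : d1.f n = n ^ 2 + 1 := by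
  unfold QF.f d1; simp

theorem exists_neg_one {S : Set ℕ} {p0 : ℕ} (hp0 : p0.Prime) (hpS : p0 ∈ S) (hp4 : p0 % 4 ≠ 3) :
    ∃ n : ℕ, hS S (d1.f n) = -1 := by
  by_contra hno
  push Not at hno
  have hall : ∀ n : ℕ, hS S (d1.f n) = 1 := by
    intro n
    rcases (CM_hS S).pm _ (d1.f_pos n) with e | e
    · exact e
    · exact absurd e (hno n)
  haveI : Fact p0.Prime := ⟨hp0⟩
  obtain ⟨a, b, hab⟩ := Nat.Prime.sq_add_sq hp4
  have hne : (a : ℤ) ≠ 0 ∨ (b : ℤ) ≠ 0 := by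
    by_contra hcon
    push Not at hcon
    have ha : a = 0 := by exact_mod_cast hcon.1
    have hb : b = 0 := by exact_mod_cast hcon.2
    rw [ha, hb] at hab
    have := hp0.pos
    omega
  have e1 := all_vec (CM_hS S) d1 (by unfold d1; norm_num) hall hne
  have e2 : FZ d1 a b = ((p0 : ℕ) : ℤ) := by
    unfold FZ d1
    rw [← hab]
    push_cast
    ring
  rw [e2, Int.toNat_natCast, hS_prime hp0 hpS] at e1
  norm_num at e1

open Classical in
/-- **Main theorem for `n ^ 2 + 1`.** -/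
theorem near_squarefree (S : Set ℕ) (p0 : ℕ) (hp0 : p0.Prime) (hpS : p0 ∈ S) (hp4 : p0 % 4 ≠ 3)
    (ε : ℝ) (hε : 0 < ε) :
    ∀ᶠ x : ℕ in atTop, (x : ℝ) ^ (1 - ε) ≤
      ((((Icc 1 x).filter fun n : ℕ => ∃ k m : ℕ, n ^ 2 + 1 = k ^ 2 * m ∧ (k : ℝ) ≤ (x : ℝ) ^ ε ∧
        Squarefree m ∧ Odd ((m.primeFactors.filter fun p => p ∈ S).card)).card : ℕ) : ℝ) := by
  have H := CM_hS S
  have main : ∀ ε : ℝ, 0 < ε → ε ≤ 1 / 2 → ∀ᶠ x : ℕ in atTop, (x : ℝ) ^ (1 - ε) ≤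
      ((((Icc 1 x).filter fun n : ℕ => ∃ k m : ℕ, n ^ 2 + 1 = k ^ 2 * m ∧ (k : ℝ) ≤ (x : ℝ) ^ ε ∧
        Squarefree m ∧ Odd ((m.primeFactors.filter fun p => p ∈ S).card)).card : ℕ) : ℝ) := by
    intro ε hε hε2
    obtain ⟨C2, hC2, hdiv⟩ := div_bound_f d1 (by positivity : 0 < ε / 8)
    have hdich := dichotomy H d1 (exists_neg_one hp0 hpS hp4) (by positivity : 0 < ε / 4)
    have t1 : Tendsto (fun X : ℕ => (X : ℝ) ^ (ε / 8)) atTop atTop :=
      (tendsto_rpow_atTop (by positivity)).comp tendsto_natCast_atTop_atTop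
    filter_upwards [hdich, t1.eventually_ge_atTop (2 * (5 * C2 + 100)), eventually_ge_atTop 1]
      with X hX h1 hX1
    have hX1' : (1 : ℝ) ≤ X := by exact_mod_cast hX1
    have hX0 : (0 : ℝ) < X := by linarith
    set J : ℕ := ⌊(X : ℝ) ^ ε⌋₊ with hJdef
    set Y : ℕ := ⌊(X : ℝ) ^ (3 / 4 : ℝ)⌋₊ with hYdef
    set T : ℕ := ⌊C2 * (X : ℝ) ^ (ε / 8)⌋₊ with hTdef
    have hXε : 1 ≤ (X : ℝ) ^ ε := Real.one_le_rpow hX1' hε.le
    have hJ1 : 1 ≤ J := by rw [hJdef]; exact Nat.le_floor (by simpa using hXε)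
    have hJ1' : (1 : ℝ) ≤ J := by exact_mod_cast hJ1
    have hJle : (J : ℝ) ≤ (X : ℝ) ^ ε := Nat.floor_le (by positivity)
    have hJge : (X : ℝ) ^ ε ≤ 2 * J := by
      have := (Nat.lt_floor_add_one ((X : ℝ) ^ ε)).le
      rw [← hJdef] at this
      linarith
    have hYle : (Y : ℝ) ≤ (X : ℝ) ^ (3 / 4 : ℝ) := Nat.floor_le (by positivity)
    have hYge : (X : ℝ) ^ (3 / 4 : ℝ) ≤ Y + 1 := (Nat.lt_floor_add_one _).le
    have hTle : (T : ℝ) ≤ C2 * (X : ℝ) ^ (ε / 8) := Nat.floor_le (by positivity)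
    have hEX := card_EX J X Y T hJ1 hX1 (by
      intro N hN
      rw [hTdef]
      apply Nat.le_floor
      have := hdiv X hX1 N hN
      rwa [d1_f] at this)
    -- bound the exceptional set
    set W : ℝ := (X : ℝ) ^ (1 - 3 * ε / 8) with hW
    have hW1 : 1 ≤ W := Real.one_le_rpow hX1' (by linarith)
    have hle : ∀ a : ℝ, a ≤ 1 - 3 * ε / 8 → (X : ℝ) ^ a ≤ W := fun a ha =>
      Real.rpow_le_rpow_of_exponent_le hX1' ha
    have b1 : (T : ℝ) * (2 * X / J + Y) ≤ 5 * C2 * W := by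
      have c1 : 2 * (X : ℝ) / J ≤ 4 * (X : ℝ) ^ (1 - ε) := by
        rw [div_le_iff₀ (by linarith)]
        calc 2 * (X : ℝ) = 2 * ((X : ℝ) ^ (1 - ε) * (X : ℝ) ^ ε) := by
              rw [← Real.rpow_add hX0]
              have : 1 - ε + ε = 1 := by ring
              rw [this, Real.rpow_one]
          _ ≤ 2 * ((X : ℝ) ^ (1 - ε) * (2 * J)) := by gcongr
          _ = 4 * (X : ℝ) ^ (1 - ε) * J := by ring
      calc (T : ℝ) * (2 * X / J + Y) ≤ (C2 * (X : ℝ) ^ (ε / 8)) *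
            (4 * (X : ℝ) ^ (1 - ε) + (X : ℝ) ^ (3 / 4 : ℝ)) := by gcongr
        _ = C2 * (4 * ((X : ℝ) ^ (ε / 8) * (X : ℝ) ^ (1 - ε)) +
              (X : ℝ) ^ (ε / 8) * (X : ℝ) ^ (3 / 4 : ℝ)) := by ring
        _ = C2 * (4 * (X : ℝ) ^ (ε / 8 + (1 - ε)) + (X : ℝ) ^ (ε / 8 + 3 / 4)) := by
            rw [Real.rpow_add hX0, Real.rpow_add hX0]
        _ ≤ C2 * (4 * W + W) := by
            apply mul_le_mul_of_nonneg_left _ (by linarith)
            have d1' := hle (ε / 8 + (1 - ε)) (by linarith)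
            have d2' := hle (ε / 8 + 3 / 4) (by linarith)
            linarith
        _ = 5 * C2 * W := by ring
    have b2 : (((X ^ 2 + 1) / (Y + 1) ^ 2 + 1 : ℕ) : ℝ) * (Nat.log 2 X + 1) ≤ 99 * W := by
      have c1 : (((X ^ 2 + 1) / (Y + 1) ^ 2 : ℕ) : ℝ) ≤ 2 * (X : ℝ) ^ (1 / 2 : ℝ) := by
        have e1 : (((X ^ 2 + 1) / (Y + 1) ^ 2 : ℕ) : ℝ) ≤
            ((X ^ 2 + 1 : ℕ) : ℝ) / (((Y + 1) ^ 2 : ℕ) : ℝ) := Nat.cast_div_le
        refine e1.trans ?_
        push_cast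
        rw [div_le_iff₀ (by positivity)]
        have e2 : (X : ℝ) ^ (3 / 2 : ℝ) ≤ ((Y : ℝ) + 1) ^ 2 := by
          calc (X : ℝ) ^ (3 / 2 : ℝ) = ((X : ℝ) ^ (3 / 4 : ℝ)) ^ 2 := by
                rw [← Real.rpow_natCast ((X : ℝ) ^ (3 / 4 : ℝ)), ← Real.rpow_mul hX0.le]
                norm_num
            _ ≤ ((Y : ℝ) + 1) ^ 2 := pow_le_pow_left₀ (by positivity) hYge 2
        calc (X : ℝ) ^ 2 + 1 ≤ 2 * (X : ℝ) ^ 2 := by nlinarith
          _ = 2 * ((X : ℝ) ^ (1 / 2 : ℝ) * (X : ℝ) ^ (3 / 2 : ℝ)) := by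
              rw [← Real.rpow_add hX0]
              norm_num
          _ ≤ 2 * ((X : ℝ) ^ (1 / 2 : ℝ) * ((Y : ℝ) + 1) ^ 2) := by gcongr
          _ = 2 * (X : ℝ) ^ (1 / 2 : ℝ) * ((Y : ℝ) + 1) ^ 2 := by ring
      have c2 : ((Nat.log 2 X : ℕ) : ℝ) ≤ 16 * (X : ℝ) ^ (1 / 8 : ℝ) := by
        have e1 : ((Nat.log 2 X : ℕ) : ℝ) ≤ Real.logb 2 X := Real.natLog_le_logb X 2
        have e2 := Real.log_le_rpow_div hX0.le (by norm_num : (0 : ℝ) < 1 / 8)
        have e3 := Real.log_two_gt_d9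
        refine e1.trans ?_
        unfold Real.logb
        rw [div_le_iff₀ (by linarith)]
        have e4 : 0 ≤ (X : ℝ) ^ (1 / 8 : ℝ) := by positivity
        calc Real.log X ≤ (X : ℝ) ^ (1 / 8 : ℝ) / (1 / 8) := e2
          _ = 8 * (X : ℝ) ^ (1 / 8 : ℝ) := by ring
          _ ≤ 16 * (X : ℝ) ^ (1 / 8 : ℝ) * Real.log 2 := by nlinarith
      have c3 : 1 ≤ (X : ℝ) ^ (1 / 2 : ℝ) := Real.one_le_rpow hX1' (by norm_num)
      have c4 : 1 ≤ (X : ℝ) ^ (1 / 8 : ℝ) := Real.one_le_rpow hX1' (by norm_num)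
      calc (((X ^ 2 + 1) / (Y + 1) ^ 2 + 1 : ℕ) : ℝ) * (Nat.log 2 X + 1)
          = ((((X ^ 2 + 1) / (Y + 1) ^ 2 : ℕ) : ℝ) + 1) * (Nat.log 2 X + 1) := by push_cast; ring
        _ ≤ (3 * (X : ℝ) ^ (1 / 2 : ℝ)) * (17 * (X : ℝ) ^ (1 / 8 : ℝ)) := by
            apply mul_le_mul _ _ (by positivity) (by positivity)
            · linarith
            · linarith
        _ = 51 * (X : ℝ) ^ (1 / 2 + 1 / 8 : ℝ) := by
            rw [Real.rpow_add hX0]; ring
        _ ≤ 51 * W := by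
            have := hle (1 / 2 + 1 / 8) (by linarith)
            linarith
        _ ≤ 99 * W := by linarith
    have b3 : ((EX J X).card : ℝ) + 1 ≤ (5 * C2 + 100) * W := by
      have : ((EX J X).card : ℝ) ≤ 5 * C2 * W + 99 * W := hEX.trans (add_le_add b1 b2)
      nlinarith
    have b4 : (5 * C2 + 100) * W ≤ (X : ℝ) ^ (1 - ε / 4) / 2 := by
      have e : (X : ℝ) ^ (1 - ε / 4) = (X : ℝ) ^ (ε / 8) * W := by
        rw [hW, ← Real.rpow_add hX0]
        congr 1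
        ring
      rw [e]
      have h2 : (2 * (5 * C2 + 100)) * W ≤ (X : ℝ) ^ (ε / 8) * W :=
        mul_le_mul_of_nonneg_right h1 (by positivity)
      linarith
    -- inclusion
    have hsub : SF (hS S) d1 X ⊆ (((Icc 1 X).filter fun n : ℕ => ∃ k m : ℕ,
        n ^ 2 + 1 = k ^ 2 * m ∧ (k : ℝ) ≤ (X : ℝ) ^ ε ∧
        Squarefree m ∧ Odd ((m.primeFactors.filter fun p => p ∈ S).card)) ∪ EX J X) ∪ {0} := by
      intro n hn
      rw [mem_SF, d1_f] at hn
      rw [mem_union, mem_union, mem_singleton, mem_filter, mem_Icc, mem_EX]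
      by_cases hn0 : n = 0
      · right; exact hn0
      left
      obtain ⟨m, k, hmk, hsf⟩ := Nat.sq_mul_squarefree (n ^ 2 + 1)
      by_cases hkJ : k ≤ J
      · left
        refine ⟨⟨by omega, hn.1⟩, k, m, hmk.symm, ?_, hsf, ?_⟩
        · have : (k : ℝ) ≤ J := by exact_mod_cast hkJ
          linarith
        · apply hS_squarefree hsf
          have hk0 : k ≠ 0 := by
            intro h0
            rw [h0] at hmk
            simp at hmk
          rw [← hmk, H.mul _ _ (pow_ne_zero 2 hk0) hsf.ne_zero, H.sq hk0, one_mul] at hn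
          exact hn.2
      · right
        push Not at hkJ
        exact ⟨⟨by omega, hn.1⟩, k, hkJ, ⟨m, hmk.symm⟩⟩
    have hcard := card_le_card hsub
    have hcard2 := (card_union_le (((Icc 1 X).filter fun n : ℕ => ∃ k m : ℕ,
        n ^ 2 + 1 = k ^ 2 * m ∧ (k : ℝ) ≤ (X : ℝ) ^ ε ∧
        Squarefree m ∧ Odd ((m.primeFactors.filter fun p => p ∈ S).card)) ∪ EX J X) {0})
    have hcard3 := (card_union_le ((Icc 1 X).filter fun n : ℕ => ∃ k m : ℕ,
        n ^ 2 + 1 = k ^ 2 * m ∧ (k : ℝ) ≤ (X : ℝ) ^ ε ∧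
        Squarefree m ∧ Odd ((m.primeFactors.filter fun p => p ∈ S).card)) (EX J X))
    rw [card_singleton] at hcard2
    set cc := (((Icc 1 X).filter fun n : ℕ => ∃ k m : ℕ,
        n ^ 2 + 1 = k ^ 2 * m ∧ (k : ℝ) ≤ (X : ℝ) ^ ε ∧
        Squarefree m ∧ Odd ((m.primeFactors.filter fun p => p ∈ S).card)).card) with hcc
    have hfin : (SF (hS S) d1 X).card ≤ cc + (EX J X).card + 1 := by omega
    have hfin' : ((SF (hS S) d1 X).card : ℝ) ≤ cc + (EX J X).card + 1 := by exact_mod_cast hfin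
    have hlast : (X : ℝ) ^ (1 - ε) ≤ (X : ℝ) ^ (1 - ε / 4) / 2 := by
      have e : (X : ℝ) ^ (1 - ε / 4) = (X : ℝ) ^ (3 * ε / 4) * (X : ℝ) ^ (1 - ε) := by
        rw [← Real.rpow_add hX0]
        congr 1
        ring
      rw [e]
      have h2 : (2 : ℝ) ≤ (X : ℝ) ^ (3 * ε / 4) := by
        calc (2 : ℝ) ≤ (X : ℝ) ^ (ε / 8) := by linarith
          _ ≤ (X : ℝ) ^ (3 * ε / 4) := Real.rpow_le_rpow_of_exponent_le hX1' (by linarith)
      have h3 : 0 ≤ (X : ℝ) ^ (1 - ε) := by positivity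
      nlinarith
    linarith
  rcases le_total ε (1 / 2) with h1 | h1
  · exact main ε hε h1
  · filter_upwards [main (1 / 2) (by norm_num) le_rfl, eventually_ge_atTop 1] with X hX hX1
    have hX1' : (1 : ℝ) ≤ X := by exact_mod_cast hX1
    refine le_trans (Real.rpow_le_rpow_of_exponent_le hX1' (by linarith)) (hX.trans ?_)
    have hsub : ((Icc 1 X).filter fun n : ℕ => ∃ k m : ℕ, n ^ 2 + 1 = k ^ 2 * m ∧
        (k : ℝ) ≤ (X : ℝ) ^ (1 / 2 : ℝ) ∧ Squarefree m ∧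
        Odd ((m.primeFactors.filter fun p => p ∈ S).card)) ⊆
        ((Icc 1 X).filter fun n : ℕ => ∃ k m : ℕ, n ^ 2 + 1 = k ^ 2 * m ∧
        (k : ℝ) ≤ (X : ℝ) ^ ε ∧ Squarefree m ∧
        Odd ((m.primeFactors.filter fun p => p ∈ S).card)) := by
      intro n hn
      rw [mem_filter] at hn ⊢
      obtain ⟨h2, k, m, h3, h4, h5, h6⟩ := hn
      exact ⟨h2, k, m, h3, h4.trans (Real.rpow_le_rpow_of_exponent_le hX1' h1), h5, h6⟩
    exact_mod_cast card_le_card hsub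

end Pool.Agent.H358R2
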