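import Pool.Agent.H358R2.Diff

/-!
Sparse sign changes force periodicity.
-/

namespace Pool.Agent.H358R2

theorem CM.ne {h : ℕ → ℤ} (H : CM h) {m : ℕ} (hm : m ≠ 0) : h m * h m = 1 := by
  rcases H.pm m hm with e | e <;> rw [e] <;> norm_num

theorem eq_of_mul_eq_one {a b : ℤ} (ha : a = 1 ∨ a = -1) (h : a * b = 1) : a = b := by
  rcases ha with e | e
  · rw [e] at h ⊢; linarith
  · rw [e] at h ⊢; linarith

theorem per_core (d : QF) (r : ℕ) : ∃ K n1 : ℕ, 0 < K ∧
    ∀ h : ℕ → ℤ, CM h → ∀ (n nh A Q T : ℕ), n1 ≤ n → n + 2 ^ r ≤ nh → 0 < A → 4 ≤ Q →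
      16 * K ^ 2 * A ≤ Q ^ 2 →
      (∀ N ≤ d.M * ((nh + d.M) * (8 * K ^ 2 * Q)) ^ 2, (d.f N).divisors.card ≤ T) →
      2 * d.M * K ^ 3 * (nh + d.M) ^ 2 * T *
        (SF h d (d.M * ((nh + d.M) * (8 * K ^ 2 * Q)) ^ 2)).card ≤ A →
      2 * K * rf 1 (2 ^ r - 1) * Q ^ 2 ≤ n ^ (2 ^ r) →
      h (d.f n) = h (d.f (n + 2 ^ r)) := by
  obtain ⟨lo0, hi0, hlt, h4, hJ⟩ := Jn_interval d
  have hMp := d.M_pos
  have hd' : (0 : ℝ) < d.M := by exact_mod_cast hMp
  obtain ⟨K, hK⟩ := exists_nat_gt (516 * (d.M : ℝ) * ((2 : ℝ) ^ (2 ^ r) + 1) / (hi0 - lo0))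
  obtain ⟨n2, hn2⟩ := exists_nat_gt (4 * (d.M : ℝ) * (2 : ℝ) ^ (2 ^ r) / (hi0 - lo0))
  have hpos : 0 < hi0 - lo0 := by linarith
  refine ⟨K, max n2 (10 * d.M), ?_, ?_⟩
  · have h1 : (0 : ℝ) < 516 * (d.M : ℝ) * ((2 : ℝ) ^ (2 ^ r) + 1) / (hi0 - lo0) := by positivity
    have h2 : (0 : ℝ) < K := h1.trans hK
    exact_mod_cast h2
  intro h H n nh A Q T hn hnh hA0 hQ hA hT hS hpow
  have hn2' : n2 ≤ n := (le_max_left _ _).trans hn
  have hn10 : 10 * d.M ≤ n := (le_max_right _ _).trans hn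
  have hn0 : 0 < n := by omega
  have hn0' : (0 : ℝ) < n := by exact_mod_cast hn0
  have hD : 1 ≤ 2 ^ r := Nat.one_le_two_pow
  have hQ' : (0 : ℝ) < Q := by
    have : 0 < Q := by omega
    exact_mod_cast this
  have hK0 : (0 : ℝ) < K := by
    have h1 : (0 : ℝ) < 516 * (d.M : ℝ) * ((2 : ℝ) ^ (2 ^ r) + 1) / (hi0 - lo0) := by positivity
    exact h1.trans hK
  have hlen : ((LD (2 ^ r) n).length : ℝ) = (2 : ℝ) ^ (2 ^ r) := by
    rw [length_LD]; push_cast; rfl
  have key : sg h d (LD (2 ^ r) n) = 1 := by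
    apply main_lemma H hJ hlt h4 (n := nh) hA0 hQ rfl hA hT hS (LD (2 ^ r) n)
      (η := (d.M : ℝ) / n)
    · intro he
      have := length_LD (2 ^ r) n
      rw [he] at this
      simp only [List.length_nil] at this
      have h2 : 0 < 2 ^ (2 ^ r) := by positivity
      omega
    · rw [hlen]
      rw [div_lt_iff₀ hpos] at hK
      exact hK
    · intro ω hω
      obtain ⟨g1, g2⟩ := mem_LD (2 ^ r) n ω hω
      refine ⟨by omega, by omega, ?_⟩
      refine (al_abs_le (by omega)).trans ?_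
      apply div_le_div_of_nonneg_left hd'.le hn0'
      exact_mod_cast g1
    · rw [hlen]
      have h1 : (n2 : ℝ) ≤ n := by exact_mod_cast hn2'
      have h2 : 4 * (d.M : ℝ) * (2 : ℝ) ^ (2 ^ r) / (hi0 - lo0) < n := by linarith
      rw [div_lt_iff₀ hpos] at h2
      rw [mul_div_assoc', div_le_iff₀ hn0']
      nlinarith
    · refine (tot_LD_bound d (2 ^ r) hD n hn0).trans ?_
      rw [div_le_div_iff₀ (by positivity) (by positivity), one_mul]
      have h1 : 2 * (K : ℝ) * rf 1 (2 ^ r - 1) * Q ^ 2 ≤ (n : ℝ) ^ (2 ^ r) := by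
        exact_mod_cast hpow
      linarith
  rw [sg_LD_two_pow H] at key
  exact eq_of_mul_eq_one (H.pm _ (d.f_pos _)) key

/-- the multiplicative relation -/
theorem rel {h : ℕ → ℤ} (H : CM h) (d : QF) (n : ℕ) :
    h (d.f n) * h (d.f (n + 1)) = h (d.f (n ^ 2 + (d.b + 1) * n + d.c)) := by
  rw [← H.mul _ _ (d.f_pos _) (d.f_pos _)]
  congr 1
  unfold QF.f
  ring

/-- downward induction -/
theorem down {h : ℕ → ℤ} (H : CM h) (d : QF) {P y Y : ℕ} (hP : P ≤ y)
    (hY : 4 * y ^ 2 + (d.b + 1) * (2 * y) + d.c ≤ Y)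
    (hper : ∀ n, y ≤ n → n ≤ Y → h (d.f n) = h (d.f (n + P))) :
    ∀ n ≤ Y, h (d.f n) = h (d.f (n + P)) := by
  have hcp := d.c_pos
  have main : ∀ j : ℕ, j ≤ y → ∀ n, y - j ≤ n → n ≤ Y → h (d.f n) = h (d.f (n + P)) := by
    intro j
    induction j with
    | zero => intro _ n hn hn2; exact hper n (by omega) hn2
    | succ j ih =>
      intro hj n hn hn2
      rcases Nat.lt_or_ge (y - (j + 1)) n with hlt | hge
      · exact ih (by omega) n (by omega) hn2
      · have hb : n = y - (j + 1) := by omega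
        have ih' : ∀ c, n + 1 ≤ c → c ≤ Y → h (d.f c) = h (d.f (c + P)) := by
          intro c hc hc2
          exact ih (by omega) c (by omega) hc2
        have hk : ∀ k c, n + 1 ≤ c → c + k * P ≤ Y + P → h (d.f c) = h (d.f (c + k * P)) := by
          intro k
          induction k with
          | zero => intro c _ _; simp
          | succ k ihk =>
            intro c hc hc2
            rw [ihk c hc (by rw [add_mul] at hc2; omega)]
            have : c + (k + 1) * P = (c + k * P) + P := by ring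
            rw [this]
            apply ih' (c + k * P) (by omega)
            rw [add_mul] at hc2; omega
        have e1 := rel H d n
        have e2 := rel H d (n + P)
        have e3 : (n + P) ^ 2 + (d.b + 1) * (n + P) + d.c =
            (n ^ 2 + (d.b + 1) * n + d.c) + (2 * n + P + d.b + 1) * P := by ring
        have hny : n + 1 ≤ y := by omega
        have hbound : (n + P) ^ 2 + (d.b + 1) * (n + P) + d.c ≤ Y := by
          have h1 : n + P ≤ 2 * y := by omega
          have h2 : (n + P) ^ 2 ≤ (2 * y) ^ 2 := Nat.pow_le_pow_left h1 2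
          have h3 : (2 * y) ^ 2 = 4 * y ^ 2 := by ring
          have h4 : (d.b + 1) * (n + P) ≤ (d.b + 1) * (2 * y) := Nat.mul_le_mul_left _ h1
          omega
        have hnb : n ≤ (d.b + 1) * n := Nat.le_mul_of_pos_left _ (by omega)
        have e4 := hk (2 * n + P + d.b + 1) (n ^ 2 + (d.b + 1) * n + d.c) (by omega)
          (by rw [← e3]; omega)
        rw [e3, ← e4, ← e1] at e2
        have hnn1 : n + 1 ≤ Y := by
          have h5 : 2 * y ≤ (d.b + 1) * (2 * y) := Nat.le_mul_of_pos_left _ (by omega)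
          omega
        have e5 := ih' (n + 1) le_rfl hnn1
        have e6 : n + P + 1 = n + 1 + P := by ring
        rw [e6, ← e5] at e2
        have hne : h (d.f (n + 1)) ≠ 0 := by
          intro h0
          rcases H.pm (d.f (n + 1)) (d.f_pos _) with e | e <;> rw [h0] at e <;>
            norm_num at e
        exact (mul_right_cancel₀ hne e2).symm
  intro n hn
  exact main y le_rfl n (by omega) hn

end Pool.Agent.H358R2
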