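import Pool.Agent.H358R2.Period

/-!
Choice of parameters.
-/

namespace Pool.Agent.H358R2

theorem SF_mono (h : ℕ → ℤ) (d : QF) {X Y : ℕ} (hXY : X ≤ Y) : SF h d X ⊆ SF h d Y := by
  intro N hN
  rw [mem_SF] at hN ⊢
  exact ⟨hN.1.trans hXY, hN.2⟩

theorem per_nat (d : QF) (r : ℕ) : ∃ C n1 : ℕ, 0 < C ∧
    ∀ h : ℕ → ℤ, CM h → ∀ X y T : ℕ, n1 ≤ y → C * y ^ 8 ≤ X → X ^ 2 ≤ y ^ (2 ^ r) →
      (∀ N ≤ X, (d.f N).divisors.card ≤ T) → C * y ^ 8 * T * (SF h d X).card ≤ X →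
      ∀ n ≤ 8 * y ^ 2, h (d.f n) = h (d.f (n + 2 ^ r)) := by
  obtain ⟨K, n1, hK, hcore⟩ := per_core d r
  have hMp := d.M_pos
  refine ⟨108000000 * d.M ^ 2 * K ^ 9, max n1 (max (2 ^ r + d.M) (2 * K * rf 1 (2 ^ r - 1))),
    by positivity, ?_⟩
  intro h H X y T hy hX hXy hT hS
  have hy1 : n1 ≤ y := (le_max_left _ _).trans hy
  have hy2 : 2 ^ r + d.M ≤ y := (le_max_left _ _).trans ((le_max_right _ _).trans hy)
  have hy3 : 2 * K * rf 1 (2 ^ r - 1) ≤ y := (le_max_right _ _).trans ((le_max_right _ _).trans hy)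
  have hD : 1 ≤ 2 ^ r := Nat.one_le_two_pow
  have hy0 : 0 < y := by omega
  obtain ⟨nh, hnh⟩ : ∃ nh, nh = 8 * y ^ 2 + 2 ^ r := ⟨_, rfl⟩
  obtain ⟨Z, hZ⟩ : ∃ Z, Z = nh + d.M := ⟨_, rfl⟩
  have hyy : y ≤ y ^ 2 := Nat.le_self_pow (by norm_num) y
  have hZle : Z ≤ 9 * y ^ 2 := by omega
  have hZ0 : 0 < Z := by omega
  obtain ⟨B, hB⟩ : ∃ B, B = 64 * d.M * K ^ 4 * Z ^ 2 := ⟨_, rfl⟩
  have hB0 : 0 < B := by rw [hB]; positivity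
  obtain ⟨Q, hQ⟩ : ∃ Q, Q = Nat.sqrt (X / B) := ⟨_, rfl⟩
  obtain ⟨A, hA⟩ : ∃ A, A = Q ^ 2 / (16 * K ^ 2) := ⟨_, rfl⟩
  have hy8 : y ^ 4 ≤ y ^ 8 := Nat.pow_le_pow_right hy0 (by norm_num)
  have hK9 : K ^ 6 ≤ K ^ 9 := Nat.pow_le_pow_right hK (by norm_num)
  have hd2 : d.M ≤ d.M ^ 2 := Nat.le_self_pow (by norm_num) d.M
  -- size of `Q`
  have hBle : 16 * K ^ 2 * B ≤ X := by
    have h1 : Z ^ 2 ≤ (9 * y ^ 2) ^ 2 := Nat.pow_le_pow_left hZle 2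
    calc 16 * K ^ 2 * B = 1024 * d.M * K ^ 6 * Z ^ 2 := by rw [hB]; ring
      _ ≤ 1024 * d.M * K ^ 6 * (9 * y ^ 2) ^ 2 := Nat.mul_le_mul_left _ h1
      _ = 82944 * (d.M * K ^ 6 * y ^ 4) := by ring
      _ ≤ 82944 * (d.M ^ 2 * K ^ 9 * y ^ 8) :=
          Nat.mul_le_mul_left _ (Nat.mul_le_mul (Nat.mul_le_mul hd2 hK9) hy8)
      _ ≤ 108000000 * (d.M ^ 2 * K ^ 9 * y ^ 8) := Nat.mul_le_mul_right _ (by norm_num)
      _ = 108000000 * d.M ^ 2 * K ^ 9 * y ^ 8 := by ring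
      _ ≤ X := hX
  have hXB : 16 * K ^ 2 ≤ X / B := by
    rw [Nat.le_div_iff_mul_le hB0]; exact hBle
  have hQK : 4 * K ≤ Q := by
    rw [hQ, Nat.le_sqrt]
    calc 4 * K * (4 * K) = 16 * K ^ 2 := by ring
      _ ≤ X / B := hXB
  have hQ4 : 4 ≤ Q := by omega
  have hQsq : Q ^ 2 ≤ X / B := by
    rw [hQ, pow_two]; exact Nat.sqrt_le _
  have hBQ : B * Q ^ 2 ≤ X := by
    calc B * Q ^ 2 ≤ B * (X / B) := Nat.mul_le_mul_left _ hQsq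
      _ ≤ X := Nat.mul_div_le X B
  have hXBQ : X ≤ 4 * B * Q ^ 2 := by
    have h1 : X / B < (Q + 1) * (Q + 1) := by
      rw [hQ]; exact Nat.lt_succ_sqrt _
    have h2 : X < B * (X / B + 1) := by
      have := Nat.lt_mul_div_succ X hB0
      simpa using this
    have h3 : X / B + 1 ≤ (Q + 1) * (Q + 1) := h1
    have h4 : (Q + 1) * (Q + 1) ≤ (2 * Q) * (2 * Q) := Nat.mul_le_mul (by omega) (by omega)
    calc X ≤ B * (X / B + 1) := h2.le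
      _ ≤ B * ((2 * Q) * (2 * Q)) := Nat.mul_le_mul_left _ (h3.trans h4)
      _ = 4 * B * Q ^ 2 := by ring
  have hQ2 : 16 * K ^ 2 ≤ Q ^ 2 := by
    calc 16 * K ^ 2 = (4 * K) ^ 2 := by ring
      _ ≤ Q ^ 2 := Nat.pow_le_pow_left hQK 2
  have hK16 : 0 < 16 * K ^ 2 := by positivity
  have hA0 : 0 < A := by
    rw [hA]; exact Nat.div_pos hQ2 hK16
  have hAQ : 16 * K ^ 2 * A ≤ Q ^ 2 := by
    rw [hA]; exact Nat.mul_div_le _ _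
  have hQA : Q ^ 2 ≤ 32 * K ^ 2 * A := by
    have h1 : Q ^ 2 < 16 * K ^ 2 * (A + 1) := by
      rw [hA]
      have := Nat.lt_mul_div_succ (Q ^ 2) hK16
      simpa using this
    have h2 : 16 * K ^ 2 * (A + 1) ≤ 16 * K ^ 2 * (A + A) :=
      Nat.mul_le_mul_left _ (by omega)
    calc Q ^ 2 ≤ 16 * K ^ 2 * (A + 1) := h1.le
      _ ≤ 16 * K ^ 2 * (A + A) := h2
      _ = 32 * K ^ 2 * A := by ring
  have harg : d.M * ((nh + d.M) * (8 * K ^ 2 * Q)) ^ 2 ≤ X := by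
    calc d.M * ((nh + d.M) * (8 * K ^ 2 * Q)) ^ 2 = B * Q ^ 2 := by rw [hB, hZ]; ring
      _ ≤ X := hBQ
  have hT' : ∀ N ≤ d.M * ((nh + d.M) * (8 * K ^ 2 * Q)) ^ 2, (d.f N).divisors.card ≤ T :=
    fun N hN => hT N (hN.trans harg)
  obtain ⟨s, hs⟩ : ∃ s, s = (SF h d X).card := ⟨_, rfl⟩
  have hs' : (SF h d (d.M * ((nh + d.M) * (8 * K ^ 2 * Q)) ^ 2)).card ≤ s := by
    rw [hs]; exact Finset.card_le_card (SF_mono h d harg)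
  have hS' : 2 * d.M * K ^ 3 * (nh + d.M) ^ 2 * T *
      (SF h d (d.M * ((nh + d.M) * (8 * K ^ 2 * Q)) ^ 2)).card ≤ A := by
    refine (Nat.mul_le_mul_left _ hs').trans ?_
    rw [← hZ]
    have hBK : 0 < 128 * B * K ^ 2 := by positivity
    apply Nat.le_of_mul_le_mul_left _ hBK
    have h1 : Z ^ 4 ≤ (9 * y ^ 2) ^ 4 := Nat.pow_le_pow_left hZle 4
    calc 128 * B * K ^ 2 * (2 * d.M * K ^ 3 * Z ^ 2 * T * s)
        = 16384 * (d.M ^ 2 * K ^ 9 * T * s) * Z ^ 4 := by rw [hB]; ring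
      _ ≤ 16384 * (d.M ^ 2 * K ^ 9 * T * s) * (9 * y ^ 2) ^ 4 := Nat.mul_le_mul_left _ h1
      _ = 107495424 * (d.M ^ 2 * K ^ 9 * T * s * y ^ 8) := by ring
      _ ≤ 108000000 * (d.M ^ 2 * K ^ 9 * T * s * y ^ 8) := Nat.mul_le_mul_right _ (by norm_num)
      _ = 108000000 * d.M ^ 2 * K ^ 9 * y ^ 8 * T * s := by ring
      _ ≤ X := by rw [hs]; exact hS
      _ ≤ 4 * B * Q ^ 2 := hXBQ
      _ ≤ 4 * B * (32 * K ^ 2 * A) := Nat.mul_le_mul_left _ hQA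
      _ = 128 * B * K ^ 2 * A := by ring
  have hXrf : 2 * K * rf 1 (2 ^ r - 1) ≤ X := by
    have h1 : y ≤ y ^ 8 := Nat.le_self_pow (by norm_num) y
    have h2 : 1 ≤ 108000000 * d.M ^ 2 * K ^ 9 := Nat.succ_le_of_lt (by positivity)
    calc 2 * K * rf 1 (2 ^ r - 1) ≤ y := hy3
      _ ≤ y ^ 8 := h1
      _ = 1 * y ^ 8 := by ring
      _ ≤ 108000000 * d.M ^ 2 * K ^ 9 * y ^ 8 := Nat.mul_le_mul_right _ h2
      _ ≤ X := hX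
  have hQX : Q ^ 2 ≤ X := hQsq.trans (Nat.div_le_self _ _)
  have hMdef : d.M = 1 + d.b + d.c := rfl
  apply down H d (y := y) (P := 2 ^ r) (Y := 8 * y ^ 2) (by omega)
  · have h1 : d.b + 1 ≤ y := by omega
    have h2 : d.c ≤ y := by omega
    have h3 : (d.b + 1) * (2 * y) ≤ y * (2 * y) := Nat.mul_le_mul_right _ h1
    have h4 : y * (2 * y) = 2 * y ^ 2 := by ring
    omega
  · intro n hn hn2
    apply hcore h H n nh A Q T (hy1.trans hn) (by omega) hA0 hQ4 hAQ hT' hS'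
    calc 2 * K * rf 1 (2 ^ r - 1) * Q ^ 2 ≤ X * X := Nat.mul_le_mul hXrf hQX
      _ = X ^ 2 := by ring
      _ ≤ y ^ (2 ^ r) := hXy
      _ ≤ n ^ (2 ^ r) := Nat.pow_le_pow_left hn _

end Pool.Agent.H358R2
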