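import Pool.Agent.H358R2.Asym

/-!
Large square divisors of `n ^ 2 + 1` are rare.
-/

namespace Pool.Agent.H358R2

open Filter Finset

/-- integers up to `X` with `q ∣ n ^ 2 + 1` -/
def DQ (q X : ℕ) : Finset ℕ := (range (X + 1)).filter fun n => q ∣ n ^ 2 + 1

theorem mem_DQ {q X n : ℕ} : n ∈ DQ q X ↔ n ≤ X ∧ q ∣ n ^ 2 + 1 := by
  unfold DQ
  rw [mem_filter, mem_range, Nat.lt_succ_iff]

theorem fibre_dvd {q : ℕ} {n0 n n' : ℤ} (h0 : (q : ℤ) ∣ n0 ^ 2 + 1) (h1 : (q : ℤ) ∣ n ^ 2 + 1)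
    (h2 : (q : ℤ) ∣ n' ^ 2 + 1) (hg : Int.gcd (n - n0) q = Int.gcd (n' - n0) q) :
    (q : ℤ) ∣ 2 * (n - n') := by
  set δ : ℤ := ((Int.gcd (n - n0) q : ℕ) : ℤ) with hδ
  have hd1 : δ ∣ n - n0 := Int.gcd_dvd_left ..
  have hd2 : δ ∣ n' - n0 := by
    rw [hδ, hg]; exact Int.gcd_dvd_left ..
  -- `q ∣ δ (n + n0)`
  have key : ∀ z : ℤ, (q : ℤ) ∣ z ^ 2 + 1 → δ = ((Int.gcd (z - n0) q : ℕ) : ℤ) → (q : ℤ) ∣ δ * (z + n0) := by
    intro z hz hzδ
    have hb := Int.gcd_eq_gcd_ab (z - n0) q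
    rw [← hzδ] at hb
    obtain ⟨k, hk⟩ := hz
    obtain ⟨l, hl⟩ := h0
    refine ⟨(Int.gcdA (z - n0) q) * (k - l) + Int.gcdB (z - n0) q * (z + n0), ?_⟩
    rw [hb]
    linear_combination (Int.gcdA (z - n0) q) * (hk - hl)
  have e1 := key n h1 rfl
  have e2 := key n' h2 (by rw [hδ, hg])
  obtain ⟨u, hu⟩ := hd1
  obtain ⟨u', hu'⟩ := hd2
  -- `w = n - n' = δ v`
  have hw : n - n' = δ * (u - u') := by linear_combination hu - hu'
  have e3 : (q : ℤ) ∣ δ * (n - n') := by
    have := dvd_sub e1 e2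
    have e : δ * (n + n0) - δ * (n' + n0) = δ * (n - n') := by ring
    rwa [e] at this
  have e4 : (q : ℤ) ∣ (n - n') * (n + n0) := by
    rw [hw]
    have := e1.mul_left (u - u')
    have e : (u - u') * (δ * (n + n0)) = δ * (u - u') * (n + n0) := by ring
    rwa [e] at this
  have e5 : (q : ℤ) ∣ (n - n') * (n - n0) := by
    rw [hu]
    have := e3.mul_left u
    have e : u * (δ * (n - n')) = (n - n') * (δ * u) := by ring
    rwa [e] at this
  have e6 : (q : ℤ) ∣ 2 * n0 * (n - n') := by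
    have := dvd_sub e4 e5
    have e : (n - n') * (n + n0) - (n - n') * (n - n0) = 2 * n0 * (n - n') := by ring
    rwa [e] at this
  obtain ⟨k, hk⟩ := e6
  obtain ⟨l, hl⟩ := h0
  refine ⟨-n0 * k + l * (2 * (n - n')), ?_⟩
  linear_combination (-n0) * hk + (2 * (n - n')) * hl

theorem card_DQ (q X : ℕ) (hq : 0 < q) :
    (DQ q X).card ≤ q.divisors.card * (2 * X / q + 1) := by
  classical
  rcases (DQ q X).eq_empty_or_nonempty with he | ⟨n0, hn0⟩
  · rw [he]; simp
  rw [mem_DQ] at hn0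
  have h0 : (q : ℤ) ∣ (n0 : ℤ) ^ 2 + 1 := by exact_mod_cast hn0.2
  have hmaps : ∀ n ∈ DQ q X, Int.gcd ((n : ℤ) - n0) q ∈ q.divisors := by
    intro n _
    rw [Nat.mem_divisors]
    refine ⟨?_, hq.ne'⟩
    have : ((Int.gcd ((n : ℤ) - n0) q : ℕ) : ℤ) ∣ (q : ℤ) := Int.gcd_dvd_right ..
    exact_mod_cast this
  rw [card_eq_sum_card_fiberwise hmaps]
  have hfib : ∀ δ ∈ q.divisors, ((DQ q X).filter fun n : ℕ => Int.gcd ((n : ℤ) - n0) q = δ).card ≤
      2 * X / q + 1 := by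
    intro δ _
    calc ((DQ q X).filter fun n : ℕ => Int.gcd ((n : ℤ) - n0) q = δ).card
        ≤ (range (2 * X / q + 1)).card := by
          apply card_le_card_of_injOn (fun n => 2 * n / q)
          · intro n hn
            rw [Finset.mem_coe, mem_filter, mem_DQ] at hn
            rw [Finset.mem_coe, mem_range]
            apply Nat.lt_succ_of_le
            exact Nat.div_le_div_right (Nat.mul_le_mul_left _ hn.1.1)
          · intro n hn n' hn' heq
            rw [Finset.mem_coe, mem_filter, mem_DQ] at hn hn'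
            have heq' : 2 * n / q = 2 * n' / q := heq
            have hdvd := fibre_dvd (q := q) (n0 := n0) (n := n) (n' := n') h0
              (by exact_mod_cast hn.1.2) (by exact_mod_cast hn'.1.2) (hn.2.trans hn'.2.symm)
            have a1 := Nat.div_add_mod (2 * n) q
            have a2 := Nat.div_add_mod (2 * n') q
            have a3 := Nat.mod_lt (2 * n) hq
            have a4 := Nat.mod_lt (2 * n') hq
            rw [heq'] at a1
            have hlt : |2 * ((n : ℤ) - n')| < q := by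
              generalize 2 * n % q = u at a1 a3
              generalize 2 * n' % q = v at a2 a4
              generalize q * (2 * n' / q) = w at a1 a2
              rw [abs_lt]
              constructor <;> omega
            have h3 := Int.eq_zero_of_abs_lt_dvd hdvd hlt
            omega
      _ = 2 * X / q + 1 := card_range _
  calc ∑ δ ∈ q.divisors, ((DQ q X).filter fun n : ℕ => Int.gcd ((n : ℤ) - n0) q = δ).card
      ≤ ∑ δ ∈ q.divisors, (2 * X / q + 1) := sum_le_sum hfib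
    _ = q.divisors.card * (2 * X / q + 1) := by rw [sum_const, smul_eq_mul]

/-- doubling of the solutions of `n ^ 2 + 1 = m j ^ 2` -/
theorem doubling {m n n' j j' : ℕ} (hm : 2 ≤ m) (h : n ^ 2 + 1 = m * j ^ 2)
    (h' : n' ^ 2 + 1 = m * j' ^ 2) (hlt : n < n') : 2 * n < n' := by
  have hj : j < j' := by
    by_contra hge
    push Not at hge
    have h1 : m * j' ^ 2 ≤ m * j ^ 2 := Nat.mul_le_mul_left _ (Nat.pow_le_pow_left hge 2)
    have h2 : n ^ 2 < n' ^ 2 := Nat.pow_lt_pow_left hlt two_ne_zero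
    omega
  have hjn : j' ≤ n' := by
    by_contra hgt
    push Not at hgt
    have h1 : (n' + 1) ^ 2 ≤ j' ^ 2 := Nat.pow_le_pow_left hgt 2
    have h2 : 2 * j' ^ 2 ≤ m * j' ^ 2 := Nat.mul_le_mul_right _ hm
    nlinarith
  -- cross relation
  have hrel : j ^ 2 * (n' ^ 2 + 1) = j' ^ 2 * (n ^ 2 + 1) := by rw [h, h']; ring
  have hu : j' * n < j * n' := by
    by_contra hge
    push Not at hge
    have h1 : (j * n') ^ 2 ≤ (j' * n) ^ 2 := Nat.pow_le_pow_left hge 2
    have h2 : j ^ 2 < j' ^ 2 := Nat.pow_lt_pow_left hj two_ne_zero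
    have h3 : j ^ 2 * (n' ^ 2 + 1) = (j * n') ^ 2 + j ^ 2 := by ring
    have h4 : j' ^ 2 * (n ^ 2 + 1) = (j' * n) ^ 2 + j' ^ 2 := by ring
    omega
  have hsum : j * n' + j' * n ≤ j' ^ 2 := by
    obtain ⟨u, hu'⟩ := Nat.exists_eq_add_of_lt hu
    have h3 : j ^ 2 * (n' ^ 2 + 1) = (j * n') ^ 2 + j ^ 2 := by ring
    have h4 : j' ^ 2 * (n ^ 2 + 1) = (j' * n) ^ 2 + j' ^ 2 := by ring
    rw [h3, h4] at hrel
    have h5 : (j * n') ^ 2 = (j' * n) ^ 2 + (u + 1) * (j * n' + j' * n) := by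
      rw [hu']; ring
    have h6 : j * n' + j' * n ≤ (u + 1) * (j * n' + j' * n) := Nat.le_mul_of_pos_left _ (by omega)
    omega
  have h7 : 2 * (j' * n) < j' * j' := by
    have : j' ^ 2 = j' * j' := by ring
    omega
  have h8 : 2 * n < j' := by
    by_contra hge
    push Not at hge
    have : j' * j' ≤ j' * (2 * n) := Nat.mul_le_mul_left _ hge
    have e : j' * (2 * n) = 2 * (j' * n) := by ring
    omega
  omega

/-- solutions of `n ^ 2 + 1 = m j ^ 2` up to `X` -/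
noncomputable def DM (m X : ℕ) : Finset ℕ :=
  letI := Classical.decPred fun n : ℕ => ∃ j, n ^ 2 + 1 = m * j ^ 2
  (Icc 1 X).filter fun n => ∃ j, n ^ 2 + 1 = m * j ^ 2

theorem mem_DM {m X n : ℕ} : n ∈ DM m X ↔ (1 ≤ n ∧ n ≤ X) ∧ ∃ j, n ^ 2 + 1 = m * j ^ 2 := by
  classical
  unfold DM
  rw [mem_filter, mem_Icc]

theorem card_DM (m X : ℕ) : (DM m X).card ≤ Nat.log 2 X + 1 := by
  classical
  rcases Nat.lt_or_ge m 2 with hm | hm
  · -- no solutions
    have : DM m X = ∅ := by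
      rw [eq_empty_iff_forall_notMem]
      intro n hn
      rw [mem_DM] at hn
      obtain ⟨⟨h1, _⟩, j, hj⟩ := hn
      have hm01 : m = 0 ∨ m = 1 := by omega
      rcases hm01 with h | h
      · rw [h, zero_mul] at hj; omega
      · rw [h, one_mul] at hj
        have h2 : n < j := by
          by_contra hge
          push Not at hge
          have := Nat.pow_le_pow_left hge 2
          omega
        have h3 : (n + 1) ^ 2 ≤ j ^ 2 := Nat.pow_le_pow_left h2 2
        nlinarith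
    rw [this]; simp
  · calc (DM m X).card ≤ (range (Nat.log 2 X + 1)).card := by
          apply card_le_card_of_injOn (fun n => Nat.log 2 n)
          · intro n hn
            rw [Finset.mem_coe, mem_DM] at hn
            rw [Finset.mem_coe, mem_range]
            exact Nat.lt_succ_of_le (Nat.log_mono_right hn.1.2)
          · intro n hn n' hn' heq
            rw [Finset.mem_coe, mem_DM] at hn hn'
            obtain ⟨⟨a1, _⟩, j, hj⟩ := hn
            obtain ⟨⟨b1, _⟩, j', hj'⟩ := hn'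
            have heq' : Nat.log 2 n = Nat.log 2 n' := heq
            have key : ∀ a b : ℕ, 1 ≤ a → 2 * a < b → Nat.log 2 a < Nat.log 2 b := by
              intro a b ha hab
              have h1 : Nat.log 2 (a * 2) = Nat.log 2 a + 1 :=
                Nat.log_mul_base (by norm_num) (by omega)
              have h2 : Nat.log 2 (a * 2) ≤ Nat.log 2 b := Nat.log_mono_right (by omega)
              omega
            rcases lt_trichotomy n n' with h | h | h
            · have := key n n' a1 (doubling hm hj hj' h)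
              omega
            · exact h
            · have := key n' n b1 (doubling hm hj' hj h)
              omega
      _ = Nat.log 2 X + 1 := card_range _

/-- integers with a large square divisor -/
noncomputable def EX (J X : ℕ) : Finset ℕ :=
  letI := Classical.decPred fun n : ℕ => ∃ j, J < j ∧ j ^ 2 ∣ n ^ 2 + 1
  (Icc 1 X).filter fun n => ∃ j, J < j ∧ j ^ 2 ∣ n ^ 2 + 1

theorem mem_EX {J X n : ℕ} :
    n ∈ EX J X ↔ (1 ≤ n ∧ n ≤ X) ∧ ∃ j, J < j ∧ j ^ 2 ∣ n ^ 2 + 1 := by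
  classical
  unfold EX
  rw [mem_filter, mem_Icc]

theorem sum_inv_sq (J Y : ℕ) (hJ : 1 ≤ J) :
    ∑ j ∈ Ioc J Y, (1 : ℝ) / (j : ℝ) ^ 2 ≤ 1 / J := by
  have hJ' : (0 : ℝ) < J := by exact_mod_cast hJ
  rcases Nat.lt_or_ge Y J with h | h
  · rw [Ioc_eq_empty (by omega)]; simp
  · have key : ∀ Y, J ≤ Y → ∑ j ∈ Ioc J Y, (1 : ℝ) / (j : ℝ) ^ 2 ≤ 1 / J - 1 / Y := by
      intro Y hY
      induction Y, hY using Nat.le_induction with
      | base => simp
      | succ Y hY ih =>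
        have hY' : (0 : ℝ) < Y := by
          have : 0 < Y := by omega
          exact_mod_cast this
        rw [← Finset.insert_Ioc_right_eq_Ioc_add_one (by omega), sum_insert (by simp)]
        have h2 : (1 : ℝ) / ((Y + 1 : ℕ) : ℝ) ^ 2 ≤ 1 / Y - 1 / ((Y + 1 : ℕ) : ℝ) := by
          push_cast
          have e : (1 : ℝ) / Y - 1 / (Y + 1) = 1 / (Y * (Y + 1)) := by field_simp; ring
          rw [e]
          apply one_div_le_one_div_of_le (by positivity)
          nlinarith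
        linarith
    have := key Y h
    have h2 : (0 : ℝ) ≤ 1 / Y := by positivity
    linarith

theorem card_EX (J X Y T : ℕ) (hJ : 1 ≤ J) (hX : 1 ≤ X)
    (hT : ∀ N ≤ X, (N ^ 2 + 1).divisors.card ≤ T) :
    ((EX J X).card : ℝ) ≤ T * (2 * X / J + Y) +
      ((X ^ 2 + 1) / (Y + 1) ^ 2 + 1 : ℕ) * (Nat.log 2 X + 1) := by
  classical
  have hsub : EX J X ⊆ ((Ioc J Y).biUnion fun j => DQ (j ^ 2) X) ∪
      ((range ((X ^ 2 + 1) / (Y + 1) ^ 2 + 1)).biUnion fun m => DM m X) := by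
    intro n hn
    rw [mem_EX] at hn
    obtain ⟨⟨h1, h2⟩, j, hj1, hj2⟩ := hn
    rw [mem_union]
    by_cases hjY : j ≤ Y
    · left
      rw [mem_biUnion]
      exact ⟨j, mem_Ioc.2 ⟨hj1, hjY⟩, mem_DQ.2 ⟨h2, hj2⟩⟩
    · right
      push Not at hjY
      obtain ⟨m, hm⟩ := hj2
      rw [mem_biUnion]
      refine ⟨m, ?_, mem_DM.2 ⟨⟨h1, h2⟩, j, by rw [hm]; ring⟩⟩
      rw [mem_range]
      apply Nat.lt_succ_of_le
      rw [Nat.le_div_iff_mul_le (by positivity)]
      calc m * (Y + 1) ^ 2 ≤ m * j ^ 2 := Nat.mul_le_mul_left _ (Nat.pow_le_pow_left hjY 2)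
        _ = n ^ 2 + 1 := by rw [hm]; ring
        _ ≤ X ^ 2 + 1 := by
            have := Nat.pow_le_pow_left h2 2
            omega
  have hDQ : ∀ j ∈ Ioc J Y, ((DQ (j ^ 2) X).card : ℝ) ≤ T * (2 * X * (1 / (j : ℝ) ^ 2) + 1) := by
    intro j hj
    rw [mem_Ioc] at hj
    have hj0 : 0 < j := by omega
    have hj0' : (0 : ℝ) < j := by exact_mod_cast hj0
    rcases (DQ (j ^ 2) X).eq_empty_or_nonempty with he | ⟨n0, hn0⟩
    · rw [he]; simp; positivity
    · rw [mem_DQ] at hn0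
      have hτ : (j ^ 2).divisors.card ≤ T := by
        refine le_trans ?_ (hT n0 hn0.1)
        exact card_le_card (Nat.divisors_subset_of_dvd (by positivity) hn0.2)
      have h1 := card_DQ (j ^ 2) X (by positivity)
      have h2 : (DQ (j ^ 2) X).card ≤ T * (2 * X / j ^ 2 + 1) :=
        h1.trans (Nat.mul_le_mul_right _ hτ)
      have h3 : ((DQ (j ^ 2) X).card : ℝ) ≤ T * (((2 * X / j ^ 2 : ℕ) : ℝ) + 1) := by
        exact_mod_cast h2
      refine h3.trans ?_
      apply mul_le_mul_of_nonneg_left _ (Nat.cast_nonneg _)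
      have h4 : ((2 * X / j ^ 2 : ℕ) : ℝ) ≤ ((2 * X : ℕ) : ℝ) / ((j ^ 2 : ℕ) : ℝ) := Nat.cast_div_le
      push_cast at h4
      have e : (2 : ℝ) * X * (1 / (j : ℝ) ^ 2) = 2 * X / (j : ℝ) ^ 2 := by ring
      rw [e]
      linarith
  have hc1 : ((((Ioc J Y).biUnion fun j => DQ (j ^ 2) X).card : ℕ) : ℝ) ≤ T * (2 * X / J + Y) := by
    calc ((((Ioc J Y).biUnion fun j => DQ (j ^ 2) X).card : ℕ) : ℝ)
        ≤ ((∑ j ∈ Ioc J Y, (DQ (j ^ 2) X).card : ℕ) : ℝ) := by exact_mod_cast card_biUnion_le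
      _ = ∑ j ∈ Ioc J Y, ((DQ (j ^ 2) X).card : ℝ) := by push_cast; rfl
      _ ≤ ∑ j ∈ Ioc J Y, T * (2 * X * (1 / (j : ℝ) ^ 2) + 1) := sum_le_sum hDQ
      _ = T * (2 * X * (∑ j ∈ Ioc J Y, 1 / (j : ℝ) ^ 2) + (Ioc J Y).card) := by
          rw [← mul_sum, sum_add_distrib, ← mul_sum]
          simp
      _ ≤ T * (2 * X / J + Y) := by
          apply mul_le_mul_of_nonneg_left _ (Nat.cast_nonneg _)
          have h1 := sum_inv_sq J Y hJ
          have h2 : ((Ioc J Y).card : ℝ) ≤ Y := by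
            rw [Nat.card_Ioc]
            exact_mod_cast Nat.sub_le _ _
          have h3 : (2 : ℝ) * X * (∑ j ∈ Ioc J Y, 1 / (j : ℝ) ^ 2) ≤ 2 * X * (1 / J) :=
            mul_le_mul_of_nonneg_left h1 (by positivity)
          have e : (2 : ℝ) * X * (1 / J) = 2 * X / J := by ring
          linarith
  have hc2 : ((range ((X ^ 2 + 1) / (Y + 1) ^ 2 + 1)).biUnion fun m => DM m X).card ≤
      ((X ^ 2 + 1) / (Y + 1) ^ 2 + 1) * (Nat.log 2 X + 1) := by
    refine card_biUnion_le.trans ?_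
    calc ∑ m ∈ range ((X ^ 2 + 1) / (Y + 1) ^ 2 + 1), (DM m X).card
        ≤ ∑ m ∈ range ((X ^ 2 + 1) / (Y + 1) ^ 2 + 1), (Nat.log 2 X + 1) :=
          sum_le_sum fun m _ => card_DM m X
      _ = _ := by rw [sum_const, smul_eq_mul, card_range]
  have hc2' : ((((range ((X ^ 2 + 1) / (Y + 1) ^ 2 + 1)).biUnion fun m => DM m X).card : ℕ) : ℝ) ≤
      ((X ^ 2 + 1) / (Y + 1) ^ 2 + 1 : ℕ) * (Nat.log 2 X + 1) := by exact_mod_cast hc2
  calc ((EX J X).card : ℝ) ≤ (((((Ioc J Y).biUnion fun j => DQ (j ^ 2) X) ∪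
      ((range ((X ^ 2 + 1) / (Y + 1) ^ 2 + 1)).biUnion fun m => DM m X)).card : ℕ) : ℝ) := by
        exact_mod_cast card_le_card hsub
    _ ≤ ((((Ioc J Y).biUnion fun j => DQ (j ^ 2) X).card +
      ((range ((X ^ 2 + 1) / (Y + 1) ^ 2 + 1)).biUnion fun m => DM m X).card : ℕ) : ℝ) := by
        exact_mod_cast card_union_le _ _
    _ ≤ _ := by push_cast at hc1 hc2' ⊢; linarith

end Pool.Agent.H358R2
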