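import Pool.Agent.H358R2.Geom

/-!
Walking along a list of rotations.
-/

namespace Pool.Agent.H358R2

/-- half of the square root of the absolute discriminant -/
noncomputable def QF.κ (d : QF) : ℝ := √(4 * (d.c : ℝ) - (d.b : ℝ) ^ 2) / 2

theorem QF.κ_pos (d : QF) : 0 < d.κ := by
  have h : ((d.b : ℝ)) ^ 2 < 4 * (d.c : ℝ) := by exact_mod_cast d.neg
  unfold QF.κ
  have : 0 < √(4 * (d.c : ℝ) - (d.b : ℝ) ^ 2) := Real.sqrt_pos.2 (by linarith)
  linarith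

theorem QF.κ_sq (d : QF) : d.κ ^ 2 = d.c - (d.b : ℝ) ^ 2 / 4 := by
  have h : ((d.b : ℝ)) ^ 2 < 4 * (d.c : ℝ) := by exact_mod_cast d.neg
  unfold QF.κ
  rw [div_pow, Real.sq_sqrt (by linarith)]
  ring

theorem QF.κ_le (d : QF) : d.κ ≤ d.M := by
  have h1 := d.κ_sq
  have h2 := d.κ_pos
  have hc : (1 : ℝ) ≤ d.c := by exact_mod_cast d.c_pos
  have h3 : d.κ ^ 2 ≤ (d.c : ℝ) ^ 2 := by
    rw [h1]
    nlinarith [sq_nonneg (d.b : ℝ)]
  have h4 : d.κ ≤ d.c := by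
    exact (pow_le_pow_iff_left₀ h2.le (by linarith) two_ne_zero).1 h3
  have h5 : (d.c : ℝ) ≤ d.M := by
    have : d.c ≤ d.M := by unfold QF.M; omega
    exact_mod_cast this
  linarith

/-- tangent of the angle with slope `t` -/
noncomputable def tn (d : QF) (t : ℝ) : ℝ := d.κ * t / (1 + (d.b : ℝ) / 2 * t)

theorem tn_lt {d : QF} {s t : ℝ} (hs : 0 ≤ s) (hst : s < t) : tn d s < tn d t := by
  have hk := d.κ_pos
  have hb : (0 : ℝ) ≤ d.b := Nat.cast_nonneg _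
  unfold tn
  have ht : 0 ≤ t := by linarith
  rw [div_lt_div_iff₀ (by positivity) (by positivity)]
  have : d.κ * s < d.κ * t := mul_lt_mul_of_pos_left hst hk
  nlinarith

theorem tn_lip {d : QF} {s t : ℝ} (hs : 0 ≤ s) (ht : 0 ≤ t) :
    |tn d t - tn d s| ≤ d.M * |t - s| := by
  have hk := d.κ_pos
  have hkM := d.κ_le
  have hb : (0 : ℝ) ≤ d.b := Nat.cast_nonneg _
  have e : tn d t - tn d s = d.κ / ((1 + (d.b : ℝ) / 2 * t) * (1 + (d.b : ℝ) / 2 * s)) * (t - s) := by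
    unfold tn
    field_simp
    ring
  rw [e, abs_mul]
  apply mul_le_mul_of_nonneg_right _ (abs_nonneg _)
  rw [abs_of_nonneg (by positivity)]
  refine le_trans ?_ hkM
  rw [div_le_iff₀ (by positivity)]
  have h1 : 1 ≤ (1 + (d.b : ℝ) / 2 * t) * (1 + (d.b : ℝ) / 2 * s) := by
    have a1 : 1 ≤ 1 + (d.b : ℝ) / 2 * t := by
      have : 0 ≤ (d.b : ℝ) / 2 * t := by positivity
      linarith
    have a2 : 1 ≤ 1 + (d.b : ℝ) / 2 * s := by
      have : 0 ≤ (d.b : ℝ) / 2 * s := by positivity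
      linarith
    nlinarith
  nlinarith

/-- angle of a vector -/
noncomputable def ag (d : QF) (u : ℕ × ℕ) : ℝ := Real.arctan (tn d (sl u))

/-- angle of a rotation -/
noncomputable def al (d : QF) (ω : ℕ × Bool) : ℝ :=
  if ω.2 then Real.arctan (d.κ / ((ω.1 : ℝ) + (d.b : ℝ) / 2))
  else -Real.arctan (d.κ / ((ω.1 : ℝ) + (d.b : ℝ) / 2))

/-- multiplication by `n + τ` or by its conjugate -/
def act (d : QF) (ω : ℕ × Bool) (u : ℕ × ℕ) : ℕ × ℕ :=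
  if ω.2 then (ω.1 * u.1 - d.c * u.2, ω.1 * u.2 + u.1 + d.b * u.2)
  else ((ω.1 + d.b) * u.1 + d.c * u.2, ω.1 * u.2 - u.1)

/-- vectors in the middle of the quadrant -/
def Mid (u : ℕ × ℕ) : Prop := 0 < u.1 ∧ u.1 ≤ 4 * u.2 ∧ u.2 ≤ 4 * u.1

theorem sl_nonneg (u : ℕ × ℕ) : 0 ≤ sl u := by unfold sl; positivity

theorem mid_ineq {d : QF} {n : ℕ} (hω : 10 * d.M ≤ n) {u : ℕ × ℕ} (hu : Mid u) :
    d.c * u.2 < n * u.1 ∧ u.1 ≤ n * u.2 := by
  obtain ⟨h0, h1, h2⟩ := hu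
  have hcM : d.c ≤ d.M := by unfold QF.M; omega
  have hM := d.M_pos
  have e1 : 10 * d.M * u.1 ≤ n * u.1 := Nat.mul_le_mul_right _ hω
  have e2 : d.c * u.2 ≤ d.M * (4 * u.1) := Nat.mul_le_mul hcM h2
  have e3 : 0 < d.M * u.1 := Nat.mul_pos hM h0
  have e4 : 10 * d.M * u.2 ≤ n * u.2 := Nat.mul_le_mul_right _ hω
  have e5 : u.2 ≤ d.M * u.2 := Nat.le_mul_of_pos_left _ hM
  constructor <;> nlinarith

theorem nm_act_int {n b c x y : ℤ} :
    (n * x - c * y) ^ 2 + b * ((n * x - c * y) * (n * y + x + b * y)) +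
      c * (n * y + x + b * y) ^ 2 = (n ^ 2 + b * n + c) * (x ^ 2 + b * (x * y) + c * y ^ 2) := by
  ring

theorem nm_act_int' {n b c x y : ℤ} :
    ((n + b) * x + c * y) ^ 2 + b * (((n + b) * x + c * y) * (n * y - x)) +
      c * (n * y - x) ^ 2 = (n ^ 2 + b * n + c) * (x ^ 2 + b * (x * y) + c * y ^ 2) := by
  ring

theorem nm_act {d : QF} {ω : ℕ × Bool} (hω : 10 * d.M ≤ ω.1) {u : ℕ × ℕ} (hu : Mid u) :
    nm d (act d ω u) = d.f ω.1 * nm d u := by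
  obtain ⟨g1, g2⟩ := mid_ineq hω hu
  unfold act nm QF.f
  split_ifs
  · have := nm_act_int (n := ω.1) (b := d.b) (c := d.c) (x := u.1) (y := u.2)
    zify [g1.le]
    exact this
  · have := nm_act_int' (n := ω.1) (b := d.b) (c := d.c) (x := u.1) (y := u.2)
    zify [g2]
    exact this

theorem act_pos {d : QF} {ω : ℕ × Bool} (hω : 10 * d.M ≤ ω.1) {u : ℕ × ℕ} (hu : Mid u) :
    0 < (act d ω u).1 := by
  obtain ⟨g1, g2⟩ := mid_ineq hω hu
  unfold act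
  split_ifs
  · simp only; omega
  · have : 0 < ω.1 * u.1 := by omega
    have h2 : ω.1 * u.1 ≤ (ω.1 + d.b) * u.1 := Nat.mul_le_mul_right _ (by omega)
    simp only; omega

theorem sz_act {d : QF} (ω : ℕ × Bool) (u : ℕ × ℕ) :
    sz (act d ω u) ≤ (ω.1 + d.M) * sz u := by
  unfold act sz QF.M
  split_ifs
  · simp only
    have h1 : ω.1 * u.1 - d.c * u.2 ≤ ω.1 * u.1 := Nat.sub_le _ _
    nlinarith [Nat.zero_le (d.c * u.2), Nat.zero_le (d.c * u.1), Nat.zero_le (d.b * u.1)]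
  · simp only
    have h1 : ω.1 * u.2 - u.1 ≤ ω.1 * u.2 := Nat.sub_le _ _
    nlinarith [Nat.zero_le (d.c * u.2), Nat.zero_le (d.c * u.1), Nat.zero_le (d.b * u.2)]

theorem act_pos2 {d : QF} {ω : ℕ × Bool} (hω : 10 * d.M ≤ ω.1) {u : ℕ × ℕ} (hu : Mid u) :
    (0 : ℝ) < (ω.1 : ℝ) * u.1 - d.c * u.2 ∧ (0 : ℝ) ≤ (ω.1 : ℝ) * u.2 - u.1 := by
  obtain ⟨g1, g2⟩ := mid_ineq hω hu
  have g1' : (d.c : ℝ) * u.2 < ω.1 * u.1 := by exact_mod_cast g1
  have g2' : (u.1 : ℝ) ≤ ω.1 * u.2 := by exact_mod_cast g2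
  constructor <;> linarith

theorem ag_act {d : QF} {ω : ℕ × Bool} (hω : 10 * d.M ≤ ω.1) {u : ℕ × ℕ} (hu : Mid u) :
    ag d (act d ω u) = ag d u + al d ω := by
  obtain ⟨g1, g2⟩ := mid_ineq hω hu
  obtain ⟨p1, p2⟩ := act_pos2 hω hu
  have hu0 := hu.1
  have hu1 : (0 : ℝ) < u.1 := by exact_mod_cast hu0
  have hM := d.M_pos
  have hn0 : 0 < ω.1 := by omega
  have hn : (0 : ℝ) < ω.1 := by exact_mod_cast hn0
  have hu2 : (0 : ℝ) ≤ u.2 := Nat.cast_nonneg _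
  have hb : (0 : ℝ) ≤ d.b := Nat.cast_nonneg _
  have hc : (0 : ℝ) ≤ d.c := Nat.cast_nonneg _
  have hk := d.κ_pos
  have hk2 := d.κ_sq
  unfold ag al
  have htn : ∀ v : ℕ × ℕ, 0 < v.1 → tn d (sl v) = d.κ * v.2 / (v.1 + (d.b : ℝ) / 2 * v.2) := by
    intro v hv
    have hv' : (0 : ℝ) < v.1 := by exact_mod_cast hv
    have hv2 : (0 : ℝ) ≤ v.2 := Nat.cast_nonneg _
    unfold tn sl
    field_simp
  rw [htn _ (act_pos hω hu), htn u hu0]
  have hD1 : (0 : ℝ) < u.1 + (d.b : ℝ) / 2 * u.2 := by positivity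
  have hD2 : (0 : ℝ) < (ω.1 : ℝ) + (d.b : ℝ) / 2 := by positivity
  by_cases hbb : ω.2 = true
  · simp only [hbb, if_true]
    have hkey : 1 - d.κ * u.2 / (u.1 + (d.b : ℝ) / 2 * u.2) * (d.κ / ((ω.1 : ℝ) + (d.b : ℝ) / 2)) =
        ((ω.1 * u.1 - d.c * u.2) + (d.b : ℝ) / 2 * (ω.1 * u.2 + u.1 + d.b * u.2)) /
          ((u.1 + (d.b : ℝ) / 2 * u.2) * ((ω.1 : ℝ) + (d.b : ℝ) / 2)) := by
      rw [div_mul_div_comm, eq_div_iff (by positivity), sub_mul, div_mul_cancel₀ _ (by positivity)]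
      have : d.κ * (u.2 : ℝ) * d.κ = d.κ ^ 2 * u.2 := by ring
      rw [this, hk2]
      ring
    have hnum : (0 : ℝ) < (ω.1 * u.1 - d.c * u.2) + (d.b : ℝ) / 2 * (ω.1 * u.2 + u.1 + d.b * u.2) := by
      positivity
    rw [Real.arctan_add]
    · congr 1
      rw [hkey]
      unfold act
      simp only [hbb, if_true]
      rw [Nat.cast_sub g1.le]
      push_cast
      rw [div_add_div _ _ hD1.ne' hD2.ne', div_div_div_cancel_right₀ (by positivity)]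
      congr 1
      ring
    · have : 0 < 1 - d.κ * u.2 / (u.1 + (d.b : ℝ) / 2 * u.2) * (d.κ / ((ω.1 : ℝ) + (d.b : ℝ) / 2)) := by
        rw [hkey]; positivity
      linarith
  · have hb' : ω.2 = false := by simpa using hbb
    simp only [hb', Bool.false_eq_true, if_false]
    have hkey : 1 - d.κ * u.2 / (u.1 + (d.b : ℝ) / 2 * u.2) * (-(d.κ / ((ω.1 : ℝ) + (d.b : ℝ) / 2))) =
        (((ω.1 + d.b) * u.1 + d.c * u.2) + (d.b : ℝ) / 2 * (ω.1 * u.2 - u.1)) /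
          ((u.1 + (d.b : ℝ) / 2 * u.2) * ((ω.1 : ℝ) + (d.b : ℝ) / 2)) := by
      rw [mul_neg, div_mul_div_comm, eq_div_iff (by positivity), sub_neg_eq_add, add_mul,
        div_mul_cancel₀ _ (by positivity)]
      have : d.κ * (u.2 : ℝ) * d.κ = d.κ ^ 2 * u.2 := by ring
      rw [this, hk2]
      ring
    have hnum : (0 : ℝ) < ((ω.1 + d.b) * u.1 + d.c * u.2) + (d.b : ℝ) / 2 * (ω.1 * u.2 - u.1) := by
      positivity
    rw [← Real.arctan_neg, Real.arctan_add]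
    · congr 1
      rw [hkey]
      unfold act
      simp only [hb', Bool.false_eq_true, if_false]
      rw [Nat.cast_sub g2]
      push_cast
      rw [← neg_div, div_add_div _ _ hD1.ne' hD2.ne', div_div_div_cancel_right₀ (by positivity)]
      congr 1
      ring
    · rw [mul_neg]
      have : 0 ≤ d.κ * u.2 / (u.1 + (d.b : ℝ) / 2 * u.2) * (d.κ / ((ω.1 : ℝ) + (d.b : ℝ) / 2)) := by
        positivity
      linarith

/-- an edge around the angle `θ` with margin `μ` and inner product at least `A` -/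
def At (d : QF) (A : ℕ) (μ θ : ℝ) (a b : ℕ × ℕ) : Prop :=
  Edge a b ∧ 0 < a.1 ∧ 0 < b.1 ∧ A ≤ ip d a b ∧ ag d a + μ ≤ θ ∧ θ + μ ≤ ag d b

/-- there is a good vector near `θ` -/
def GU (h : ℕ → ℤ) (d : QF) (A : ℕ) (r θ : ℝ) (ω : ℕ × Bool) : Prop :=
  ∃ u, Mid u ∧ |ag d u - θ| ≤ r ∧ ¬ Bad h d A u ∧ ¬ Bad h d A (act d ω u)

/-- total angle -/
noncomputable def tot (d : QF) : List (ℕ × Bool) → ℝ
  | [] => 0
  | ω :: L => al d ω + tot d L

/-- total sign -/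
def sg (h : ℕ → ℤ) (d : QF) : List (ℕ × Bool) → ℤ
  | [] => 1
  | ω :: L => h (d.f ω.1) * sg h d L

/-- everything is good along the list -/
def AG (h : ℕ → ℤ) (d : QF) (A : ℕ) (ρ r : ℝ) : List (ℕ × Bool) → ℝ → Prop
  | [], _ => True
  | ω :: L, θ => GU h d A r θ ω ∧ (∃ a b, At d A ρ (θ + al d ω) a b) ∧ AG h d A ρ r L (θ + al d ω)

theorem At.mono {d : QF} {A : ℕ} {μ μ' θ : ℝ} {a b : ℕ × ℕ} (h : At d A μ θ a b) (hle : μ' ≤ μ) :
    At d A μ' θ a b := by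
  obtain ⟨h1, h2, h3, h4, h5, h6⟩ := h
  exact ⟨h1, h2, h3, h4, by linarith, by linarith⟩

theorem sl_lt_of_ag_lt {d : QF} {a b : ℕ × ℕ} (h : ag d a < ag d b) : sl a < sl b := by
  have h1 := Real.arctan_strictMono.lt_iff_lt.1 h
  by_contra hlt
  push Not at hlt
  rcases hlt.lt_or_eq with h2 | h2
  · have := tn_lt (d := d) (sl_nonneg b) h2
    linarith
  · rw [h2] at h1
    exact lt_irrefl _ h1

theorem At.color {h : ℕ → ℤ} (H : CM h) {d : QF} {A : ℕ} {μ r θ : ℝ} (hr : r < μ)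
    {a b u : ℕ × ℕ} (hab : At d A μ θ a b) (hu : 0 < u.1) (hθ : |ag d u - θ| ≤ r)
    (hbad : ¬ Bad h d A u) : h (nm d u) = h (nm d a) := by
  obtain ⟨h1, h2, h3, h4, h5, h6⟩ := hab
  rw [abs_le] at hθ
  refine cone_color H h1 h2 h3 hu ?_ ?_ h4 hbad
  · have : ag d a < ag d u := by linarith
    exact sl_lt_of_ag_lt this
  · have : ag d u < ag d b := by linarith
    exact sl_lt_of_ag_lt this

theorem step {h : ℕ → ℤ} (H : CM h) {d : QF} {A : ℕ} {μ r θ : ℝ} (hr : r < μ)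
    {ω : ℕ × Bool} (hω : 10 * d.M ≤ ω.1) (hG : GU h d A r θ ω) {a b a' b' : ℕ × ℕ}
    (hab : At d A μ θ a b) (hab' : At d A μ (θ + al d ω) a' b') :
    h (nm d a') = h (d.f ω.1) * h (nm d a) := by
  obtain ⟨u, hM, hu, hb1, hb2⟩ := hG
  have e1 := hab.color H hr hM.1 hu hb1
  have e2 : h (nm d (act d ω u)) = h (nm d a') := by
    apply hab'.color H hr (act_pos hω hM) _ hb2
    rw [ag_act hω hM]
    have : ag d u + al d ω - (θ + al d ω) = ag d u - θ := by ring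
    rw [this]; exact hu
  have hnu : nm d u ≠ 0 := by
    apply nm_pos_of_sz
    have := hM.1
    unfold sz; omega
  rw [← e2, nm_act hω hM, H.mul _ _ (d.f_pos _) hnu, e1]

theorem walk {h : ℕ → ℤ} (H : CM h) {d : QF} {A : ℕ} {μ ρ r : ℝ} (hr : r < μ)
    (hμ : μ ≤ ρ) :
    ∀ (L : List (ℕ × Bool)) (ω : ℕ × Bool) (θ : ℝ) (a b a' b' : ℕ × ℕ),
      (∀ ω' ∈ ω :: L, 10 * d.M ≤ ω'.1) → AG h d A ρ r (ω :: L) θ → At d A μ θ a b →
      At d A μ (θ + tot d (ω :: L)) a' b' → h (nm d a') = sg h d (ω :: L) * h (nm d a) := by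
  intro L
  induction L with
  | nil =>
    intro ω θ a b a' b' hL hAG hab hab'
    obtain ⟨hG, -, -⟩ := hAG
    simp only [tot, add_zero] at hab'
    simp only [sg, mul_one]
    exact step H hr (hL ω (by simp)) hG hab hab'
  | cons ω' L ih =>
    intro ω θ a b a' b' hL hAG hab hab'
    obtain ⟨hG, ⟨a1, b1, h1⟩, hAG'⟩ := hAG
    have h1' := h1.mono hμ
    have e1 := step H hr (hL ω (by simp)) hG hab h1'
    have e2 := ih ω' (θ + al d ω) a1 b1 a' b' (fun x hx => hL x (List.mem_cons_of_mem _ hx)) hAG'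
      h1'
      (by
        have : θ + al d ω + tot d (ω' :: L) = θ + tot d (ω :: ω' :: L) := by
          simp only [tot]; ring
        rw [this]; exact hab')
    rw [e2, e1]
    simp only [sg]
    ring

end Pool.Agent.H358R2
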